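import Mathlib
import Pool.Agent.Helper13.Cech

/-!
# Scalar cochains of explicit up-sets (handoff B for MP_430249_ag)

`cone_acyc` : a family of finite sets closed under toggling one vertex has acyclic scalar cochains.
`kind_status` : the cohomology of the explicit up-sets `Fxyz`.

The proof of the second one is a discrete Morse reduction for convex families of subsets.
-/

set_option linter.unusedSectionVars false

namespace Pool.Agent.Helper13

open Finset

namespace Upset

section Sign

variable (k : Type*) [Field k] {V : Type*} [LinearOrder V]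

/-- the sign of the face `T \ {v}` -/
noncomputable def sg (v : V) (T : Finset V) : k := (-1 : k) ^ (T.filter (· < v)).card

variable {k}

theorem sg_mul_self (v : V) (T : Finset V) : sg k v T * sg k v T = 1 := by
  unfold sg
  rw [← pow_add, ← two_mul, pow_mul]
  simp

theorem sg_erase_self (v : V) (T : Finset V) : sg k v (T.erase v) = sg k v T := by
  unfold sg
  congr 2
  ext x
  simp only [mem_filter, mem_erase]
  constructor
  · rintro ⟨⟨_, h⟩, h'⟩
    exact ⟨h, h'⟩
  · rintro ⟨h, h'⟩
    exact ⟨⟨ne_of_lt h', h⟩, h'⟩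

theorem sg_erase_gt {v w : V} (h : v < w) (T : Finset V) : sg k v (T.erase w) = sg k v T := by
  unfold sg
  congr 2
  ext x
  simp only [mem_filter, mem_erase]
  constructor
  · rintro ⟨⟨_, h⟩, h'⟩
    exact ⟨h, h'⟩
  · rintro ⟨h1, h'⟩
    exact ⟨⟨ne_of_lt (lt_trans h' h), h1⟩, h'⟩

theorem sg_erase_lt {v w : V} (h : w < v) {T : Finset V} (hw : w ∈ T) :
    sg k v (T.erase w) = - sg k v T := by
  unfold sg
  have : (T.filter (· < v)) = insert w ((T.erase w).filter (· < v)) := by
    ext x
    simp only [mem_filter, mem_erase, mem_insert]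
    constructor
    · rintro ⟨h1, h2⟩
      by_cases hx : x = w
      · exact Or.inl hx
      · exact Or.inr ⟨⟨hx, h1⟩, h2⟩
    · rintro (rfl | ⟨⟨_, h1⟩, h2⟩)
      · exact ⟨hw, h⟩
      · exact ⟨h1, h2⟩
  rw [this, card_insert_of_notMem (by simp), pow_succ]
  ring

theorem sg_insert_self (v : V) (T : Finset V) : sg k v (insert v T) = sg k v T := by
  by_cases h : v ∈ T
  · rw [insert_eq_of_mem h]
  · rw [← sg_erase_self, erase_insert h]

theorem sg_insert_gt {v w : V} (h : v < w) (T : Finset V) : sg k v (insert w T) = sg k v T := by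
  by_cases h' : w ∈ T
  · rw [insert_eq_of_mem h']
  · rw [← sg_erase_gt h, erase_insert h']

theorem sg_insert_lt {v w : V} (h : w < v) {T : Finset V} (hw : w ∉ T) :
    sg k v (insert w T) = - sg k v T := by
  have := sg_erase_lt (k := k) h (mem_insert_self w T)
  rw [erase_insert hw] at this
  rw [this, neg_neg]

theorem cobd_eq (u : Finset V → k) (T : Finset V) :
    cobd k k u T = ∑ v ∈ T, sg k v T * u (T.erase v) := by
  rw [cobd_apply]
  rfl

/-- `D² = 0` -/
theorem cobd_cobd (u : Finset V → k) : cobd k k (cobd k k u) = 0 := by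
  classical
  ext T
  rw [cobd_eq]
  simp only [cobd_eq, Pi.zero_apply]
  have h1 : ∀ v ∈ T, sg k v T * ∑ w ∈ T.erase v, sg k w (T.erase v) * u ((T.erase v).erase w) =
      ∑ w ∈ T, if w = v then 0 else sg k v T * (sg k w (T.erase v) * u ((T.erase v).erase w)) := by
    intro v hv
    rw [mul_sum, ← Finset.add_sum_erase T _ hv, if_pos rfl, zero_add]
    apply Finset.sum_congr rfl
    intro w hw
    rw [if_neg (Finset.ne_of_mem_erase hw)]
  rw [Finset.sum_congr rfl h1, ← Finset.sum_product']
  apply Finset.sum_involution (fun p _ => (p.2, p.1))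
  · rintro ⟨v, w⟩ hp
    simp only [mem_product] at hp
    obtain ⟨hv, hw⟩ := hp
    dsimp only
    rcases lt_trichotomy v w with h | h | h
    · rw [if_neg (ne_of_gt h), if_neg (ne_of_lt h), sg_erase_lt h hv, sg_erase_gt h,
        Finset.erase_right_comm]
      ring
    · subst h
      simp
    · rw [if_neg (ne_of_lt h), if_neg (ne_of_gt h), sg_erase_lt h hw, sg_erase_gt h,
        Finset.erase_right_comm]
      ring
  · rintro ⟨v, w⟩ hp hne heq
    simp only [Prod.mk.injEq] at heq
    apply hne
    dsimp only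
    rw [if_pos heq.1]
  · rintro ⟨v, w⟩ hp
    simp only [mem_product] at hp ⊢
    exact ⟨hp.2, hp.1⟩
  · rintro ⟨v, w⟩ hp
    rfl

/-- contraction along the vertex `v` -/
noncomputable def hc (v : V) (u : Finset V → k) : Finset V → k :=
  fun T => if v ∈ T then 0 else sg k v T * u (insert v T)

theorem hc_of_mem {v : V} {T : Finset V} (h : v ∈ T) (u : Finset V → k) : hc v u T = 0 := by
  simp [hc, h]

theorem hc_of_notMem {v : V} {T : Finset V} (h : v ∉ T) (u : Finset V → k) :
    hc v u T = sg k v T * u (insert v T) := by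
  simp [hc, h]

/-- `D h + h D = id` -/
theorem cobd_hc (v : V) (u : Finset V → k) : cobd k k (hc v u) + hc v (cobd k k u) = u := by
  ext T
  rw [Pi.add_apply]
  by_cases hv : v ∈ T
  · rw [hc_of_mem hv, add_zero, cobd_eq, ← Finset.add_sum_erase T _ hv]
    rw [hc_of_notMem (notMem_erase v T), insert_erase hv, sg_erase_self, ← mul_assoc, sg_mul_self,
      one_mul]
    rw [Finset.sum_eq_zero, add_zero]
    intro w hw
    rw [hc_of_mem (mem_erase.2 ⟨(Finset.ne_of_mem_erase hw).symm, hv⟩), mul_zero]
  · rw [hc_of_notMem hv, cobd_eq, cobd_eq, Finset.sum_insert hv, sg_insert_self, erase_insert hv,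
      mul_add, ← mul_assoc, sg_mul_self, one_mul, mul_sum, add_left_comm, ← Finset.sum_add_distrib,
      Finset.sum_eq_zero, add_zero]
    intro w hw
    have hwv : w ≠ v := fun h => hv (h ▸ hw)
    have hvn : v ∉ T.erase w := fun h => hv (mem_of_mem_erase h)
    rw [hc_of_notMem hvn, erase_insert_of_ne hwv.symm]
    rcases lt_or_gt_of_ne hwv with h | h
    · rw [sg_erase_lt h hw, sg_insert_gt h]
      ring
    · rw [sg_erase_gt h, sg_insert_lt h hv]
      ring

end Sign

end Upset

/-- A family closed under toggling the vertex `v` is acyclic. -/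
theorem cone_acyc (k : Type*) [Field k] {V : Type*} [LinearOrder V] (F : Finset V → Prop) (v : V)
    (h : ∀ T, F (insert v T) ↔ F (T.erase v)) : Status k F .acyc := by
  intro q u hu
  obtain ⟨hu1, hu2⟩ := hu
  refine ⟨Upset.hc v u, ?_, ?_⟩
  · intro T hT
    by_cases hv : v ∈ T
    · exact absurd (Upset.hc_of_mem hv u) hT
    · rw [Upset.hc_of_notMem hv] at hT
      have := hu1 _ (right_ne_zero_of_mul hT)
      refine ⟨?_, ?_⟩
      · have h' := (h T).1 this.1
        rwa [erase_eq_of_notMem hv] at h'
      · have h' := this.2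
        rw [card_insert_of_notMem hv] at h'
        push_cast at h'
        linarith
  · have h1 := Upset.cobd_hc v u
    rw [LinearMap.mem_ker.1 hu2] at h1
    have h2 : Upset.hc v (0 : Finset V → k) = 0 := by
      ext T
      simp [Upset.hc]
    rwa [h2, add_zero] at h1


namespace Upset

section Convex

variable (k : Type*) [Field k] {V : Type*} [LinearOrder V]

/-- restriction of a function to a family -/
noncomputable def rs (Q : Finset V → Prop) : (Finset V → k) →ₗ[k] (Finset V → k) :=
  open Classical in LinearMap.pi fun T => if Q T then LinearMap.proj T else 0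

variable {k}

theorem rs_of (Q : Finset V → Prop) {T : Finset V} (h : Q T) (u : Finset V → k) :
    rs k Q u T = u T := by
  simp [rs, h]

theorem rs_of_not (Q : Finset V → Prop) {T : Finset V} (h : ¬ Q T) (u : Finset V → k) :
    rs k Q u T = 0 := by
  simp [rs, h]

/-- `u` is supported on `Q` -/
def Supp (Q : Finset V → Prop) (u : Finset V → k) : Prop := ∀ T, u T ≠ 0 → Q T

theorem supp_rs (Q : Finset V → Prop) (u : Finset V → k) : Supp Q (rs k Q u) := by
  intro T hT
  by_contra h
  exact hT (rs_of_not Q h u)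

theorem Supp.add {Q : Finset V → Prop} {u w : Finset V → k} (hu : Supp Q u) (hw : Supp Q w) :
    Supp Q (u + w) := by
  intro T hT
  by_cases h : u T = 0
  · exact hw T (by intro h'; apply hT; simp [h, h'])
  · exact hu T h

theorem Supp.neg {Q : Finset V → Prop} {u : Finset V → k} (hu : Supp Q u) : Supp Q (-u) := by
  intro T hT
  exact hu T (by intro h'; apply hT; simp [h'])

theorem Supp.sub {Q : Finset V → Prop} {u w : Finset V → k} (hu : Supp Q u) (hw : Supp Q w) :
    Supp Q (u - w) := by
  rw [sub_eq_add_neg]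
  exact hu.add hw.neg

theorem Supp.smul {Q : Finset V → Prop} {u : Finset V → k} (hu : Supp Q u) (c : k) :
    Supp Q (c • u) := by
  intro T hT
  exact hu T (by intro h'; apply hT; simp [h'])

theorem Supp.mono {Q Q' : Finset V → Prop} {u : Finset V → k} (hu : Supp Q u)
    (h : ∀ T, Q T → Q' T) : Supp Q' u := fun T hT => h T (hu T hT)

theorem rs_eq_self {Q : Finset V → Prop} {u : Finset V → k} (hu : Supp Q u) : rs k Q u = u := by
  ext T
  by_cases h : Q T
  · exact rs_of Q h u
  · rw [rs_of_not Q h]
    by_contra h'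
    exact h (hu T (fun h'' => h' h''.symm))

variable (k)

/-- the coboundary of the convex family `Q` -/
noncomputable def dq (Q : Finset V → Prop) : (Finset V → k) →ₗ[k] (Finset V → k) :=
  (rs k Q).comp (cobd k k)

variable {k}

theorem dq_apply (Q : Finset V → Prop) (u : Finset V → k) : dq k Q u = rs k Q (cobd k k u) := rfl

theorem supp_dq (Q : Finset V → Prop) (u : Finset V → k) : Supp Q (dq k Q u) := supp_rs _ _

/-- convex families -/
def Cvx (Q : Finset V → Prop) : Prop := ∀ S T U, S ⊆ T → T ⊆ U → Q S → Q U → Q T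

theorem dq_dq {Q : Finset V → Prop} (hQ : Cvx Q) {u : Finset V → k} (hu : Supp Q u) :
    dq k Q (dq k Q u) = 0 := by
  ext T
  rw [Pi.zero_apply]
  by_cases hT : Q T
  · rw [dq_apply, rs_of Q hT, dq_apply]
    have h0 : cobd k k (cobd k k u) T = 0 := by rw [cobd_cobd]; rfl
    rw [← h0, cobd_eq, cobd_eq]
    apply Finset.sum_congr rfl
    intro v hv
    congr 1
    by_cases h : Q (T.erase v)
    · rw [rs_of Q h]
    · rw [rs_of_not Q h, cobd_eq]
      symm
      apply Finset.sum_eq_zero
      intro w hw
      by_contra h'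
      have h1 := hu _ (right_ne_zero_of_mul h')
      exact h (hQ _ _ _ (erase_subset w _) (erase_subset v T) h1 hT)
  · rw [dq_apply, rs_of_not Q hT]

/-- homogeneous of degree `d` -/
def Hom (d : ℕ) (u : Finset V → k) : Prop := ∀ T, u T ≠ 0 → T.card = d

/-- total version of the status of a convex family -/
def Stat (k : Type*) [Field k] (Q : Finset V → Prop) : Kind → Prop
  | .acyc => ∀ u : Finset V → k, Supp Q u → dq k Q u = 0 → ∃ w, Supp Q w ∧ dq k Q w = u
  | .sph d => ∃ z : Finset V → k, Supp Q z ∧ Hom d z ∧ dq k Q z = 0 ∧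
      (¬ ∃ w, Supp Q w ∧ dq k Q w = z) ∧
      ∀ u : Finset V → k, Supp Q u → dq k Q u = 0 → ∃ c : k, ∃ w, Supp Q w ∧ u = dq k Q w + c • z

theorem rs_rs_of_imp {Q Q' : Finset V → Prop} (h : ∀ T, Q' T → Q T) (u : Finset V → k) :
    rs k Q' (rs k Q u) = rs k Q' u := by
  ext T
  by_cases hT : Q' T
  · rw [rs_of Q' hT, rs_of Q' hT, rs_of Q (h T hT)]
  · rw [rs_of_not Q' hT, rs_of_not Q' hT]

/-- supported on sets containing `v`: the two coboundaries agree -/
theorem dq_inn (Q : Finset V → Prop) (v : V) {u : Finset V → k} (hu : Supp (fun T => Q T ∧ v ∈ T) u) :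
    dq k Q u = dq k (fun T => Q T ∧ v ∈ T) u := by
  ext T
  by_cases hT : Q T
  · by_cases hv : v ∈ T
    · rw [dq_apply, dq_apply, rs_of Q hT, rs_of (fun T => Q T ∧ v ∈ T) ⟨hT, hv⟩]
    · rw [dq_apply, dq_apply, rs_of Q hT, rs_of_not (fun T => Q T ∧ v ∈ T) (fun h => hv h.2),
        cobd_eq]
      apply Finset.sum_eq_zero
      intro w hw
      by_contra h'
      have h1 := hu _ (right_ne_zero_of_mul h')
      exact hv (mem_of_mem_erase h1.2)
  · rw [dq_apply, dq_apply, rs_of_not Q hT, rs_of_not (fun T => Q T ∧ v ∈ T) (fun h => hT h.1)]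

/-- the restriction to the sets avoiding `v` is a map of complexes -/
theorem rs_out_dq (Q : Finset V → Prop) (v : V) {u : Finset V → k} (hu : Supp Q u) :
    rs k (fun T => Q T ∧ v ∉ T) (dq k Q u) =
      dq k (fun T => Q T ∧ v ∉ T) (rs k (fun T => Q T ∧ v ∉ T) u) := by
  rw [dq_apply, rs_rs_of_imp (fun T h => h.1), dq_apply]
  ext T
  by_cases hT : Q T ∧ v ∉ T
  · rw [rs_of (fun T => Q T ∧ v ∉ T) hT, rs_of (fun T => Q T ∧ v ∉ T) hT, cobd_eq, cobd_eq]
    apply Finset.sum_congr rfl
    intro w hw
    congr 1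
    by_cases h : u (T.erase w) = 0
    · rw [h]
      by_cases h' : Q (T.erase w) ∧ v ∉ T.erase w
      · rw [rs_of (fun T => Q T ∧ v ∉ T) h', h]
      · rw [rs_of_not (fun T => Q T ∧ v ∉ T) h']
    · rw [rs_of (fun T => Q T ∧ v ∉ T) ⟨hu _ h, fun h' => hT.2 (mem_of_mem_erase h')⟩]
  · rw [rs_of_not (fun T => Q T ∧ v ∉ T) hT, rs_of_not (fun T => Q T ∧ v ∉ T) hT]

theorem supp_inn_of_rs_out (Q : Finset V → Prop) (v : V) {u : Finset V → k} (hu : Supp Q u)
    (h : rs k (fun T => Q T ∧ v ∉ T) u = 0) : Supp (fun T => Q T ∧ v ∈ T) u := by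
  intro T hT
  refine ⟨hu T hT, ?_⟩
  by_contra hv
  have := congrFun h T
  rw [rs_of (fun T => Q T ∧ v ∉ T) ⟨hu T hT, hv⟩] at this
  exact hT this

theorem rs_out_of_supp_inn (Q : Finset V → Prop) (v : V) {u : Finset V → k}
    (hu : Supp (fun T => Q T ∧ v ∈ T) u) : rs k (fun T => Q T ∧ v ∉ T) u = 0 := by
  ext T
  rw [Pi.zero_apply]
  by_cases hT : Q T ∧ v ∉ T
  · rw [rs_of (fun T => Q T ∧ v ∉ T) hT]
    by_contra h
    exact hT.2 (hu T h).2
  · rw [rs_of_not (fun T => Q T ∧ v ∉ T) hT]

/-- splitting at `v`, the part avoiding `v` being acyclic -/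
theorem stat_inn {Q : Finset V → Prop} (hQ : Cvx Q) (v : V) {κ : Kind}
    (h0 : Stat k (fun T => Q T ∧ v ∉ T) .acyc) (h1 : Stat k (fun T => Q T ∧ v ∈ T) κ) :
    Stat k Q κ := by
  -- main reduction
  have main : ∀ u : Finset V → k, Supp Q u →
      dq k (fun T => Q T ∧ v ∉ T) (rs k (fun T => Q T ∧ v ∉ T) u) = 0 →
      ∃ y, Supp Q y ∧ Supp (fun T => Q T ∧ v ∈ T) (u - dq k Q y) := by
    intro u hu h
    obtain ⟨y, hy, hy'⟩ := h0 _ (supp_rs _ u) h
    have hyQ : Supp Q y := hy.mono (fun T h => h.1)
    refine ⟨y, hyQ, supp_inn_of_rs_out Q v (hu.sub (supp_dq _ _)) ?_⟩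
    rw [map_sub, rs_out_dq Q v hyQ, rs_eq_self hy, hy', sub_self]
  cases κ with
  | acyc =>
    intro u hu hdu
    obtain ⟨y, hy, hy'⟩ := main u hu (by rw [← rs_out_dq Q v hu, hdu, map_zero])
    obtain ⟨w, hw, hw'⟩ := h1 _ hy' (by rw [← dq_inn Q v hy', map_sub, dq_dq hQ hy, hdu, sub_zero])
    refine ⟨y + w, hy.add (hw.mono fun T h => h.1), ?_⟩
    rw [map_add, dq_inn Q v hw, hw']
    abel
  | sph d =>
    obtain ⟨z, hz, hzh, hz0, hzn, hall⟩ := h1
    refine ⟨z, hz.mono fun T h => h.1, hzh, by rw [dq_inn Q v hz, hz0], ?_, ?_⟩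
    · rintro ⟨w, hw, hw'⟩
      obtain ⟨y, hy, hy'⟩ := main w hw
        (by rw [← rs_out_dq Q v hw, hw', rs_out_of_supp_inn Q v hz])
      apply hzn
      refine ⟨w - dq k Q y, hy', ?_⟩
      rw [← dq_inn Q v hy', map_sub, dq_dq hQ hy, hw', sub_zero]
    · intro u hu hdu
      obtain ⟨y, hy, hy'⟩ := main u hu (by rw [← rs_out_dq Q v hu, hdu, map_zero])
      obtain ⟨c, w, hw, hw'⟩ := hall _ hy'
        (by rw [← dq_inn Q v hy', map_sub, dq_dq hQ hy, hdu, sub_zero])
      refine ⟨c, y + w, hy.add (hw.mono fun T h => h.1), ?_⟩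
      rw [map_add, dq_inn Q v hw, add_assoc, ← hw']
      abel

/-- the homogeneous part of degree `d` -/
theorem cobd_hom {d : ℕ} (u : Finset V → k) (T : Finset V) (hT : T.card = d + 1) :
    cobd k k (rs k (fun T => T.card = d) u) T = cobd k k u T := by
  rw [cobd_eq, cobd_eq]
  apply Finset.sum_congr rfl
  intro v hv
  rw [rs_of (fun T => T.card = d)]
  rw [card_erase_of_mem hv, hT]
  rfl

theorem cobd_hom' {d : ℕ} {u : Finset V → k} (hu : Hom d u) (T : Finset V) (hT : T.card ≠ d + 1) :
    cobd k k u T = 0 := by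
  rw [cobd_eq]
  apply Finset.sum_eq_zero
  intro v hv
  by_contra h
  have := hu _ (right_ne_zero_of_mul h)
  rw [card_erase_of_mem hv] at this
  have hpos : 0 < T.card := card_pos.2 ⟨v, hv⟩
  omega

/-- splitting at `v`, the part containing `v` being acyclic -/
theorem stat_out {Q : Finset V → Prop} (hQ : Cvx Q) (v : V) {κ : Kind}
    (h1 : Stat k (fun T => Q T ∧ v ∈ T) .acyc) (h0 : Stat k (fun T => Q T ∧ v ∉ T) κ) :
    Stat k Q κ := by
  have main : ∀ u : Finset V → k, Supp Q u → dq k Q u = 0 →
      rs k (fun T => Q T ∧ v ∉ T) u = 0 → ∃ w, Supp (fun T => Q T ∧ v ∈ T) w ∧ dq k Q w = u := by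
    intro u hu hdu h
    have hu' := supp_inn_of_rs_out Q v hu h
    obtain ⟨w, hw, hw'⟩ := h1 u hu' (by rw [← dq_inn Q v hu', hdu])
    exact ⟨w, hw, by rw [dq_inn Q v hw, hw']⟩
  cases κ with
  | acyc =>
    intro u hu hdu
    obtain ⟨w, hw, hw'⟩ := h0 _ (supp_rs _ u) (by rw [← rs_out_dq Q v hu, hdu, map_zero])
    have hwQ : Supp Q w := hw.mono fun T h => h.1
    obtain ⟨y, hy, hy'⟩ := main (u - dq k Q w) (hu.sub (supp_dq _ _))
      (by rw [map_sub, hdu, dq_dq hQ hwQ, sub_zero])
      (by rw [map_sub, rs_out_dq Q v hwQ, rs_eq_self hw, hw', sub_self])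
    refine ⟨w + y, hwQ.add (hy.mono fun T h => h.1), ?_⟩
    rw [map_add, hy']
    abel
  | sph d =>
    obtain ⟨z0, hz, hzh, hz0, hzn, hall⟩ := h0
    have hzQ : Supp Q z0 := hz.mono fun T h => h.1
    obtain ⟨y, hy, hy'⟩ := main (dq k Q z0) (supp_dq _ _) (dq_dq hQ hzQ)
      (by rw [rs_out_dq Q v hzQ, rs_eq_self hz, hz0])
    -- take the homogeneous part of `y`
    have hyd : dq k Q (rs k (fun T => T.card = d) y) = dq k Q z0 := by
      rw [← hy']
      ext T
      by_cases hT : Q T
      · rw [dq_apply, dq_apply, rs_of Q hT, rs_of Q hT]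
        by_cases hc : T.card = d + 1
        · exact cobd_hom y T hc
        · rw [cobd_hom' (d := d) (fun T hT => supp_rs (fun T => T.card = d) y T hT) T hc]
          have h2 := congrFun hy' T
          rw [dq_apply, dq_apply, rs_of Q hT, rs_of Q hT, cobd_hom' hzh T hc] at h2
          exact h2.symm
      · rw [dq_apply, dq_apply, rs_of_not Q hT, rs_of_not Q hT]
    have hys : Supp (fun T => Q T ∧ v ∈ T) (rs k (fun T => T.card = d) y) := by
      intro T hT
      apply hy
      by_cases hc : T.card = d
      · rwa [rs_of (fun T => T.card = d) hc] at hT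
      · exact absurd (rs_of_not (fun T => T.card = d) hc y) hT
    refine ⟨z0 - rs k (fun T => T.card = d) y, hzQ.sub (hys.mono fun T h => h.1), ?_, ?_, ?_, ?_⟩
    · intro T hT
      by_contra hc
      apply hT
      rw [Pi.sub_apply, rs_of_not (fun T => T.card = d) hc, sub_zero]
      by_contra h
      exact hc (hzh T h)
    · rw [map_sub, hyd, sub_self]
    · rintro ⟨w, hw, hw'⟩
      apply hzn
      refine ⟨rs k (fun T => Q T ∧ v ∉ T) w, supp_rs _ _, ?_⟩
      rw [← rs_out_dq Q v hw, hw', map_sub, rs_eq_self hz, rs_out_of_supp_inn Q v hys, sub_zero]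
    · intro u hu hdu
      obtain ⟨c, w, hw, hw'⟩ := hall _ (supp_rs _ u) (by rw [← rs_out_dq Q v hu, hdu, map_zero])
      have hwQ : Supp Q w := hw.mono fun T h => h.1
      have hsupp : Supp Q (z0 - rs k (fun T => T.card = d) y) :=
        hzQ.sub (hys.mono fun T h => h.1)
      obtain ⟨y2, hy2, hy2'⟩ := main (u - dq k Q w - c • (z0 - rs k (fun T => T.card = d) y))
        ((hu.sub (supp_dq _ _)).sub (hsupp.smul c))
        (by rw [map_sub, map_sub, hdu, dq_dq hQ hwQ, map_smul, map_sub, hyd]; simp)
        (by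
          rw [map_sub, map_sub, rs_out_dq Q v hwQ, rs_eq_self hw, map_smul, map_sub,
            rs_eq_self hz, rs_out_of_supp_inn Q v hys, sub_zero, hw']
          abel)
      refine ⟨c, w + y2, hwQ.add (hy2.mono fun T h => h.1), ?_⟩
      rw [map_add, hy2']
      abel

/-- a family closed under toggling -/
theorem stat_toggle {Q : Finset V → Prop} (v : V) (h1 : ∀ T, Q T → Q (insert v T))
    (h2 : ∀ T, Q T → Q (T.erase v)) : Stat k Q .acyc := by
  intro u hu hdu
  have hs : Supp Q (hc v u) := by
    intro T hT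
    by_cases hv : v ∈ T
    · exact absurd (hc_of_mem hv u) hT
    · rw [hc_of_notMem hv] at hT
      have := h2 _ (hu _ (right_ne_zero_of_mul hT))
      rwa [erase_insert hv] at this
  refine ⟨hc v u, hs, ?_⟩
  ext T
  by_cases hT : Q T
  · rw [dq_apply, rs_of Q hT]
    have h3 := congrFun (cobd_hc v u) T
    rw [Pi.add_apply] at h3
    have h4 : hc v (cobd k k u) T = 0 := by
      by_cases hv : v ∈ T
      · exact hc_of_mem hv _
      · rw [hc_of_notMem hv]
        have h5 := congrFun hdu (insert v T)
        rw [dq_apply, rs_of Q (h1 T hT)] at h5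
        rw [h5]
        simp
    rwa [h4, add_zero] at h3
  · rw [dq_apply, rs_of_not Q hT]
    by_contra h
    exact hT (hu T (fun h' => h h'.symm))

theorem stat_empty {Q : Finset V → Prop} (h : ∀ T, ¬ Q T) : Stat k Q .acyc := by
  intro u hu _
  refine ⟨0, fun T hT => absurd rfl hT, ?_⟩
  ext T
  rw [map_zero]
  by_contra h'
  exact h T (hu T (fun h'' => h' h''.symm))

/-- a one-element family -/
theorem stat_single {Q : Finset V → Prop} (T₀ : Finset V) (h : ∀ T, Q T ↔ T = T₀) :
    Stat k Q (.sph T₀.card) := by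
  have hd : ∀ w : Finset V → k, Supp Q w → dq k Q w = 0 := by
    intro w hw
    ext T
    rw [Pi.zero_apply]
    by_cases hT : Q T
    · rw [dq_apply, rs_of Q hT, cobd_eq]
      apply Finset.sum_eq_zero
      intro v hv
      by_contra h'
      have h1 := (h _).1 (hw _ (right_ne_zero_of_mul h'))
      rw [(h T).1 hT] at h1 hv
      exact (Finset.erase_ne_self.2 hv) h1
    · rw [dq_apply, rs_of_not Q hT]
  refine ⟨Pi.single T₀ 1, ?_, ?_, ?_, ?_, ?_⟩
  · intro T hT
    rw [h]
    by_contra h'
    exact hT (Pi.single_eq_of_ne h' 1)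
  · intro T hT
    by_contra h'
    apply hT
    exact Pi.single_eq_of_ne (fun h'' => h' (by rw [h''])) 1
  · apply hd
    intro T hT
    rw [h]
    by_contra h'
    exact hT (Pi.single_eq_of_ne h' 1)
  · rintro ⟨w, hw, hw'⟩
    rw [hd w hw] at hw'
    have := congrFun hw' T₀
    rw [Pi.single_eq_same] at this
    simp at this
  · intro u hu _
    refine ⟨u T₀, 0, fun T hT => absurd rfl hT, ?_⟩
    rw [map_zero, zero_add]
    ext T
    by_cases hT : T = T₀
    · rw [hT]
      simp
    · rw [Pi.smul_apply, Pi.single_eq_of_ne hT, smul_zero]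
      by_contra h'
      exact hT ((h T).1 (hu T h'))

/-- from the total version to the graded version -/
theorem status_of_stat {F : Finset V → Prop} (hF : ∀ S T, S ⊆ T → F S → F T) {κ : Kind}
    (h : Stat k F κ) : Status k F κ := by
  have hdq : ∀ u : Finset V → k, Supp F u → dq k F u = cobd k k u := by
    intro u hu
    rw [dq_apply]
    apply rs_eq_self
    intro T hT
    rw [cobd_eq] at hT
    obtain ⟨v, hv, hv'⟩ := Finset.exists_ne_zero_of_sum_ne_zero hT
    exact hF _ _ (erase_subset v T) (hu _ (right_ne_zero_of_mul hv'))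
  -- graded parts
  have hgr : ∀ (q : ℤ) (u w : Finset V → k), (∀ T, u T ≠ 0 → (T.card : ℤ) = q) → Supp F w →
      (∀ T, (T.card : ℤ) = q → u T = cobd k k w T) → u ∈ BF k F q := by
    intro q u w hu hw h
    refine ⟨rs k (fun T => (T.card : ℤ) = q - 1) w, ?_, ?_⟩
    · intro T hT
      have h1 := supp_rs (fun T : Finset V => (T.card : ℤ) = q - 1) w T hT
      refine ⟨hw T ?_, h1⟩
      rwa [rs_of (fun T : Finset V => (T.card : ℤ) = q - 1) h1] at hT
    · ext T
      by_cases hc : (T.card : ℤ) = q
      · rw [h T hc, cobd_eq, cobd_eq]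
        apply Finset.sum_congr rfl
        intro v hv
        rw [rs_of (fun T : Finset V => (T.card : ℤ) = q - 1)]
        rw [card_erase_of_mem hv]
        have : 0 < T.card := card_pos.2 ⟨v, hv⟩
        omega
      · have h2 : u T = 0 := by
          by_contra h'
          exact hc (hu T h')
        rw [h2, cobd_eq]
        apply Finset.sum_eq_zero
        intro v hv
        rw [rs_of_not (fun T : Finset V => (T.card : ℤ) = q - 1), mul_zero]
        rw [card_erase_of_mem hv]
        have : 0 < T.card := card_pos.2 ⟨v, hv⟩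
        omega
  cases κ with
  | acyc =>
    intro q u hu
    have hs : Supp F u := fun T hT => (hu.1 T hT).1
    obtain ⟨w, hw, hw'⟩ := h u hs (by rw [hdq u hs]; exact LinearMap.mem_ker.1 hu.2)
    refine hgr q u w (fun T hT => (hu.1 T hT).2) hw (fun T _ => ?_)
    rw [← hw', hdq w hw]
  | sph d =>
    obtain ⟨z, hz, hzh, hz0, hzn, hall⟩ := h
    have hzB : z ∉ BF k F d := by
      rintro ⟨w, hw, hw'⟩
      have hs : Supp F w := fun T hT => (hw T hT).1
      exact hzn ⟨w, hs, by rw [hdq w hs, hw']⟩
    have hzZ : z ∈ ZF k F d := by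
      refine ⟨fun T hT => ⟨hz T hT, by rw [hzh T hT]⟩, ?_⟩
      rw [SetLike.mem_coe, LinearMap.mem_ker, ← hdq z hz, hz0]
    refine ⟨?_, ?_⟩
    · intro q hq u hu
      have hs : Supp F u := fun T hT => (hu.1 T hT).1
      obtain ⟨c, w, hw, hw'⟩ := hall u hs (by rw [hdq u hs]; exact LinearMap.mem_ker.1 hu.2)
      refine hgr q u w (fun T hT => (hu.1 T hT).2) hw (fun T hT => ?_)
      rw [hw', hdq w hw, Pi.add_apply, Pi.smul_apply]
      have : z T = 0 := by
        by_contra h'
        apply hq
        rw [← hT, hzh T h']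
      rw [this, smul_zero, add_zero]
    · obtain ⟨ε, hε, hε'⟩ := Submodule.exists_le_ker_of_notMem hzB
      refine ⟨(ε z)⁻¹ • ε, ⟨z, hzZ, ?_⟩, ?_, ?_⟩
      · rw [LinearMap.smul_apply, smul_eq_mul, inv_mul_cancel₀ hε]
      · intro u hu
        rw [LinearMap.smul_apply, LinearMap.mem_ker.1 (hε' hu), smul_zero]
      · intro u hu h0
        have hs : Supp F u := fun T hT => (hu.1 T hT).1
        obtain ⟨c, w, hw, hw'⟩ := hall u hs (by rw [hdq u hs]; exact LinearMap.mem_ker.1 hu.2)
        have hB : u - c • z ∈ BF k F d := by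
          refine hgr d _ w ?_ hw ?_
          · intro T hT
            by_cases h' : u T = 0
            · have : z T ≠ 0 := by
                intro h''
                apply hT
                simp [h', h'']
              rw [hzh T this]
            · exact (hu.1 T h').2
          · intro T _
            rw [hw', hdq w hw]
            simp
        have h1 := LinearMap.mem_ker.1 (hε' hB)
        rw [LinearMap.smul_apply, smul_eq_mul] at h0
        have h2 : ε u = 0 := by
          rcases mul_eq_zero.1 h0 with h | h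
          · exact absurd h (inv_ne_zero hε)
          · exact h
        rw [map_sub, h2, map_smul, zero_sub, neg_eq_zero, smul_eq_mul] at h1
        have hc0 : c = 0 := by
          rcases mul_eq_zero.1 h1 with h | h
          · exact h
          · exact absurd h hε
        rw [hc0, zero_smul, sub_zero] at hB
        exact hB

end Convex

/-! ### decision trees -/

/-- decision trees for the families of subsets of `Fin 6` which avoid `O` and meet all members of `L` -/
inductive Tree
  | toggle (v : Fin 6) : Tree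
  | empty : Tree
  | single : Tree
  | inn (v : Fin 6) (t0 t1 : Tree) : Tree
  | out (v : Fin 6) (t1 t0 : Tree) : Tree

/-- results of a decision tree -/
inductive Res
  | fail : Res
  | acyc : Res
  | single (A : Finset (Fin 6)) : Res
  deriving DecidableEq

/-- can one toggle `v`? -/
def togOK (v : Fin 6) (O : List (Fin 6)) (L : List (List (Fin 6))) : Bool :=
  (!O.contains v) && L.all fun C => (!C.contains v) || C.any fun w => (!(w == v)) && L.contains [w]

/-- is the family empty? -/
def empOK (O : List (Fin 6)) (L : List (List (Fin 6))) : Bool :=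
  L.any fun C => C.all fun v => O.contains v

/-- is the family a singleton? -/
def sinOK (O : List (Fin 6)) (L : List (List (Fin 6))) : Bool :=
  ((List.finRange 6).all fun v => O.contains v || L.contains [v]) &&
    (O.all fun v => !(L.contains [v])) &&
    (L.all fun C => C.any fun w => L.contains [w])

/-- evaluation of a decision tree -/
def run : Tree → List (Fin 6) → List (List (Fin 6)) → Res
  | .toggle v, O, L => if togOK v O L then .acyc else .fail
  | .empty, O, L => if empOK O L then .acyc else .fail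
  | .single, O, L =>
      if sinOK O L then .single (Finset.univ.filter fun v => L.contains [v]) else .fail
  | .inn v t0 t1, O, L => if run t0 (v :: O) L = .acyc then run t1 O ([v] :: L) else .fail
  | .out v t1 t0, O, L => if run t1 O ([v] :: L) = .acyc then run t0 (v :: O) L else .fail

/-- the tree for the pattern of rows `a b` and columns `c d e` -/
def treeY : Bool → Bool → Bool → Bool → Bool → Tree
  | false, false, false, false, false => .toggle 0
  | false, false, false, false, true => .toggle 0
  | false, false, false, true, false => .toggle 0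
  | false, false, false, true, true => .toggle 0
  | false, false, true, false, false => .toggle 1
  | false, false, true, false, true => .toggle 1
  | false, false, true, true, false => .toggle 2
  | false, false, true, true, true => .out 0 (.toggle 3) (.out 1 (.toggle 4) (.out 2 (.toggle 5) (.inn 3 .empty (.inn 4 .empty (.inn 5 .empty .single)))))
  | false, true, false, false, false => .toggle 0
  | false, true, false, false, true => .toggle 0
  | false, true, false, true, false => .toggle 0
  | false, true, false, true, true => .toggle 0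
  | false, true, true, false, false => .toggle 1
  | false, true, true, false, true => .toggle 1
  | false, true, true, true, false => .toggle 2
  | false, true, true, true, true => .inn 3 (.inn 4 (.inn 5 .empty (.toggle 2)) (.toggle 1)) (.toggle 0)
  | true, false, false, false, false => .toggle 3
  | true, false, false, false, true => .toggle 3
  | true, false, false, true, false => .toggle 3
  | true, false, false, true, true => .toggle 3
  | true, false, true, false, false => .toggle 4
  | true, false, true, false, true => .toggle 4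
  | true, false, true, true, false => .toggle 5
  | true, false, true, true, true => .inn 0 (.inn 1 (.inn 2 .empty (.toggle 5)) (.toggle 4)) (.toggle 3)
  | true, true, false, false, false => .out 0 (.toggle 1) (.out 1 (.toggle 2) (.inn 2 .empty (.out 3 (.toggle 4) (.out 4 (.toggle 5) (.inn 5 .empty .single)))))
  | true, true, false, false, true => .inn 2 (.inn 5 .empty (.toggle 3)) (.toggle 0)
  | true, true, false, true, false => .inn 1 (.inn 4 .empty (.toggle 3)) (.toggle 0)
  | true, true, false, true, true => .inn 1 (.inn 4 .empty (.toggle 3)) (.toggle 0)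
  | true, true, true, false, false => .inn 0 (.inn 3 .empty (.toggle 4)) (.toggle 1)
  | true, true, true, false, true => .inn 0 (.inn 3 .empty (.toggle 4)) (.toggle 1)
  | true, true, true, true, false => .inn 0 (.inn 3 .empty (.toggle 5)) (.toggle 2)
  | true, true, true, true, true => .inn 0 (.inn 3 .empty (.inn 1 (.inn 2 .empty (.toggle 5)) (.toggle 4))) (.out 4 (.toggle 1) (.inn 1 .empty (.out 5 (.toggle 2) (.inn 2 .empty (.inn 3 .empty .single)))))

/-- the clauses of a pattern -/
def clY (a b c d e : Bool) : List (List (Fin 6)) :=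
  (if a then [[0, 1, 2]] else []) ++ (if b then [[3, 4, 5]] else []) ++
  (if c then [[0, 3]] else []) ++ (if d then [[1, 4]] else []) ++ (if e then [[2, 5]] else [])

/-- expected kind of a pattern -/
def kdY (a b c d e : Bool) : Kind :=
  if (a && b) && (!c && !d && !e) then .sph 2
  else if (a && b) && (c && d && e) then .sph 4
  else if (!a && !b) && (c && d && e) then .sph 3
  else .acyc

/-- comparison of a result with a kind -/
def Res.agree : Res → Kind → Bool
  | .acyc, .acyc => true
  | .single A, .sph d => A.card == d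
  | _, _ => false

theorem run_treeY : ∀ a b c d e : Bool,
    (run (treeY a b c d e) [] (clY a b c d e)).agree (kdY a b c d e) = true := by
  decide

/-- tree of a simplex boundary -/
def treeX : Tree := .out 5 (.toggle 0) (.out 4 (.toggle 0) (.out 3 (.toggle 0) (.out 2 (.toggle 0)
  (.out 1 (.toggle 0) (.inn 0 .empty .single)))))

theorem run_treeX : (run treeX [] [[0, 1, 2, 3, 4, 5]]).agree (.sph 1) = true := by
  decide

section Run

variable {k : Type*} [Field k] {V : Type*} [LinearOrder V]

/-- the families of the decision trees, with a context `G` -/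
def BQ (e : Fin 6 → V) (O : List (Fin 6)) (L : List (List (Fin 6))) (G : Finset V → Prop)
    (T : Finset V) : Prop :=
  (∀ v ∈ O, e v ∉ T) ∧ (∀ C ∈ L, ∃ v ∈ C, e v ∈ T) ∧ G T

/-- `G` does not depend on the block `e` -/
def Ins (e : Fin 6 → V) (G : Finset V → Prop) : Prop := ∀ v T, G (insert (e v) T) ↔ G T

theorem Ins.erase {e : Fin 6 → V} {G : Finset V → Prop} (h : Ins e G) (v : Fin 6) (T : Finset V) :
    G (T.erase (e v)) ↔ G T := by
  by_cases hv : e v ∈ T
  · have := h v (T.erase (e v))
    rw [insert_erase hv] at this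
    exact this.symm
  · rw [erase_eq_of_notMem hv]

theorem cvx_BQ (e : Fin 6 → V) (O : List (Fin 6)) (L : List (List (Fin 6))) {G : Finset V → Prop}
    (hG : Cvx G) : Cvx (BQ e O L G) := by
  intro S T U hST hTU hS hU
  refine ⟨fun v hv h => hU.1 v hv (hTU h), fun C hC => ?_, hG S T U hST hTU hS.2.2 hU.2.2⟩
  obtain ⟨v, hv, hv'⟩ := hS.2.1 C hC
  exact ⟨v, hv, hST hv'⟩

theorem stat_congr {Q Q' : Finset V → Prop} (h : ∀ T, Q T ↔ Q' T) {κ : Kind} (hQ : Stat k Q κ) :
    Stat k Q' κ := by
  have : Q = Q' := funext fun T => propext (h T)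
  rwa [← this]

theorem BQ_out (e : Fin 6 → V) (O : List (Fin 6)) (L : List (List (Fin 6))) (G : Finset V → Prop)
    (v : Fin 6) (T : Finset V) : BQ e (v :: O) L G T ↔ BQ e O L G T ∧ e v ∉ T := by
  unfold BQ
  constructor
  · rintro ⟨h1, h2, h3⟩
    exact ⟨⟨fun w hw => h1 w (List.mem_cons_of_mem _ hw), h2, h3⟩, h1 v List.mem_cons_self⟩
  · rintro ⟨⟨h1, h2, h3⟩, h4⟩
    refine ⟨fun w hw => ?_, h2, h3⟩
    rcases List.mem_cons.1 hw with rfl | hw
    · exact h4
    · exact h1 w hw

theorem BQ_inn (e : Fin 6 → V) (O : List (Fin 6)) (L : List (List (Fin 6))) (G : Finset V → Prop)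
    (v : Fin 6) (T : Finset V) : BQ e O ([v] :: L) G T ↔ BQ e O L G T ∧ e v ∈ T := by
  unfold BQ
  constructor
  · rintro ⟨h1, h2, h3⟩
    refine ⟨⟨h1, fun w hw => h2 w (List.mem_cons_of_mem _ hw), h3⟩, ?_⟩
    obtain ⟨w, hw, hw'⟩ := h2 [v] List.mem_cons_self
    rw [List.mem_singleton] at hw
    rwa [hw] at hw'
  · rintro ⟨⟨h1, h2, h3⟩, h4⟩
    refine ⟨h1, fun C hC => ?_, h3⟩
    rcases List.mem_cons.1 hC with rfl | hC
    · exact ⟨v, List.mem_singleton_self v, h4⟩
    · exact h2 C hC

/-- what a result of a decision tree says -/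
def Sound (k : Type*) [Field k] (e : Fin 6 → V) (G Q : Finset V → Prop) : Res → Prop
  | .fail => True
  | .acyc => Stat k Q .acyc
  | .single A => ∀ κ, Stat k (fun T => (∀ v, e v ∈ T ↔ v ∈ A) ∧ G T) κ → Stat k Q κ

theorem run_sound {e : Fin 6 → V} (he : Function.Injective e) {G : Finset V → Prop} (hG : Cvx G)
    (hi : Ins e G) (t : Tree) : ∀ (O : List (Fin 6)) (L : List (List (Fin 6))),
      Sound k e G (BQ e O L G) (run t O L) := by
  induction t with
  | toggle v =>
    intro O L
    unfold run
    split_ifs with h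
    · unfold togOK at h
      simp only [Bool.and_eq_true, List.all_eq_true, Bool.or_eq_true, List.any_eq_true,
        Bool.not_eq_true', List.contains_eq_mem, decide_eq_true_eq, decide_eq_false_iff_not,
        beq_eq_false_iff_ne] at h
      obtain ⟨hO, hL⟩ := h
      refine stat_toggle (e v) ?_ ?_
      · rintro T ⟨h1, h2, h3⟩
        refine ⟨fun w hw => ?_, fun C hC => ?_, (hi v T).2 h3⟩
        · rw [mem_insert, not_or]
          refine ⟨fun h => hO ?_, h1 w hw⟩
          rw [he h] at hw
          exact hw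
        · obtain ⟨w, hw, hw'⟩ := h2 C hC
          exact ⟨w, hw, mem_insert_of_mem hw'⟩
      · rintro T ⟨h1, h2, h3⟩
        refine ⟨fun w hw h => h1 w hw (mem_of_mem_erase h), fun C hC => ?_, (hi.erase v T).2 h3⟩
        rcases hL C hC with h | ⟨w, hw, hwv, hw'⟩
        · obtain ⟨w, hw, hw'⟩ := h2 C hC
          refine ⟨w, hw, mem_erase.2 ⟨fun h' => h ?_, hw'⟩⟩
          rw [he h'] at hw
          exact hw
        · obtain ⟨w', hw1, hw2⟩ := h2 [w] hw'
          rw [List.mem_singleton] at hw1
          rw [hw1] at hw2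
          exact ⟨w, hw, mem_erase.2 ⟨fun h' => hwv (he h'), hw2⟩⟩
    · trivial
  | empty =>
    intro O L
    unfold run
    split_ifs with h
    · unfold empOK at h
      simp only [List.all_eq_true, List.any_eq_true, List.contains_eq_mem,
        decide_eq_true_eq] at h
      obtain ⟨C, hC, hC'⟩ := h
      apply stat_empty
      rintro T ⟨h1, h2, _⟩
      obtain ⟨v, hv, hv'⟩ := h2 C hC
      exact h1 v (hC' v hv) hv'
    · trivial
  | single =>
    intro O L
    unfold run
    split_ifs with h
    · unfold sinOK at h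
      simp only [Bool.and_eq_true, List.all_eq_true, Bool.or_eq_true, List.any_eq_true,
        Bool.not_eq_true', List.contains_eq_mem, decide_eq_true_eq, decide_eq_false_iff_not,
        List.mem_finRange, true_imp_iff] at h
      obtain ⟨⟨h1, h2⟩, h3⟩ := h
      intro κ hκ
      refine stat_congr (fun T => ?_) hκ
      constructor
      · rintro ⟨hA, hG'⟩
        refine ⟨fun v hv h' => ?_, fun C hC => ?_, hG'⟩
        · have := (hA v).1 h'
          simp only [List.contains_eq_mem, decide_eq_true_eq, mem_filter, mem_univ, true_and] at this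
          exact h2 v hv this
        · obtain ⟨w, hw, hw'⟩ := h3 C hC
          refine ⟨w, hw, (hA w).2 ?_⟩
          simpa using hw'
      · rintro ⟨hO, hL, hG'⟩
        refine ⟨fun v => ?_, hG'⟩
        simp only [List.contains_eq_mem, decide_eq_true_eq, mem_filter, mem_univ, true_and]
        constructor
        · intro hv
          rcases h1 v with h | h
          · exact absurd hv (hO v h)
          · exact h
        · intro hv
          obtain ⟨w, hw, hw'⟩ := hL [v] hv
          rw [List.mem_singleton] at hw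
          rwa [hw] at hw'
    · trivial
  | inn v t0 t1 ih0 ih1 =>
    intro O L
    unfold run
    split_ifs with h
    · have h0 := ih0 (v :: O) L
      rw [h] at h0
      have h1 := ih1 O ([v] :: L)
      have hc := cvx_BQ e O L hG
      have h0' : Stat k (fun T => BQ e O L G T ∧ e v ∉ T) .acyc :=
        stat_congr (BQ_out e O L G v) h0
      cases hr : run t1 O ([v] :: L) with
      | fail => trivial
      | acyc =>
        rw [hr] at h1
        exact stat_inn hc (e v) h0' (stat_congr (κ := .acyc) (BQ_inn e O L G v) h1)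
      | single A =>
        rw [hr] at h1
        intro κ hκ
        exact stat_inn hc (e v) h0' (stat_congr (BQ_inn e O L G v) (h1 κ hκ))
    · trivial
  | out v t1 t0 ih1 ih0 =>
    intro O L
    unfold run
    split_ifs with h
    · have h1 := ih1 O ([v] :: L)
      rw [h] at h1
      have h0 := ih0 (v :: O) L
      have hc := cvx_BQ e O L hG
      have h1' : Stat k (fun T => BQ e O L G T ∧ e v ∈ T) .acyc :=
        stat_congr (BQ_inn e O L G v) h1
      cases hr : run t0 (v :: O) L with
      | fail => trivial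
      | acyc =>
        rw [hr] at h0
        exact stat_out hc (e v) h1' (stat_congr (κ := .acyc) (BQ_out e O L G v) h0)
      | single A =>
        rw [hr] at h0
        intro κ hκ
        exact stat_out hc (e v) h1' (stat_congr (BQ_out e O L G v) (h0 κ hκ))
    · trivial

/-- a condition `P` on the trace in a block has kind `κ₀` -/
def BK (k : Type*) [Field k] {V : Type*} [LinearOrder V] (e : Fin 6 → V)
    (P : (Fin 6 → Prop) → Prop) : Kind → Prop
  | .acyc => ∀ G : Finset V → Prop, Cvx G → Ins e G →
      Stat k (fun T => P (fun j => e j ∈ T) ∧ G T) .acyc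
  | .sph d => ∃ A : Finset (Fin 6), A.card = d ∧ ∀ G : Finset V → Prop, Cvx G → Ins e G →
      ∀ κ, Stat k (fun T => (∀ v, e v ∈ T ↔ v ∈ A) ∧ G T) κ →
        Stat k (fun T => P (fun j => e j ∈ T) ∧ G T) κ

theorem BK_of_run {e : Fin 6 → V} (he : Function.Injective e) {P : (Fin 6 → Prop) → Prop}
    (t : Tree) (L : List (List (Fin 6))) (κ₀ : Kind) (hr : (run t [] L).agree κ₀ = true)
    (hP : ∀ s : Fin 6 → Prop, P s ↔ ∀ C ∈ L, ∃ v ∈ C, s v) : BK k e P κ₀ := by
  have key : ∀ G : Finset V → Prop, ∀ T, BQ e [] L G T ↔ P (fun j => e j ∈ T) ∧ G T := by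
    intro G T
    unfold BQ
    rw [hP]
    simp
  cases hrun : run t [] L with
  | fail =>
    rw [hrun] at hr
    cases κ₀ <;> simp [Res.agree] at hr
  | acyc =>
    cases κ₀ with
    | acyc =>
      intro G hG hi
      have := run_sound (k := k) he hG hi t [] L
      rw [hrun] at this
      exact stat_congr (κ := .acyc) (key G) this
    | sph d =>
      rw [hrun] at hr
      simp [Res.agree] at hr
  | single A =>
    cases κ₀ with
    | acyc =>
      rw [hrun] at hr
      simp [Res.agree] at hr
    | sph d =>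
      rw [hrun] at hr
      refine ⟨A, by simpa [Res.agree] using hr, ?_⟩
      intro G hG hi κ hκ
      have := run_sound (k := k) he hG hi t [] L
      rw [hrun] at this
      exact stat_congr (key G) (this κ hκ)

end Run

/-! ### the blocks of `Fin 18` -/

/-- y-block -/
def ey (j : Fin 6) : Fin 18 := ⟨6 + j.1, by omega⟩

/-- z-block -/
def ez (j : Fin 6) : Fin 18 := ⟨12 + j.1, by omega⟩

theorem xv_inj : Function.Injective xv := by
  intro a b h
  have : (xv a).1 = (xv b).1 := by rw [h]
  simp only [xv] at this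
  exact Fin.ext this

theorem ey_inj : Function.Injective ey := by
  intro a b h
  have : (ey a).1 = (ey b).1 := by rw [h]
  simp only [ey] at this
  exact Fin.ext (by omega)

theorem ez_inj : Function.Injective ez := by
  intro a b h
  have : (ez a).1 = (ez b).1 := by rw [h]
  simp only [ez] at this
  exact Fin.ext (by omega)

theorem xv_ne_ey (a b : Fin 6) : xv a ≠ ey b := by
  intro h
  have : (xv a).1 = (ey b).1 := by rw [h]
  simp only [xv, ey] at this
  omega

theorem xv_ne_ez (a b : Fin 6) : xv a ≠ ez b := by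
  intro h
  have : (xv a).1 = (ez b).1 := by rw [h]
  simp only [xv, ez] at this
  omega

theorem ey_ne_ez (a b : Fin 6) : ey a ≠ ez b := by
  intro h
  have : (ey a).1 = (ez b).1 := by rw [h]
  simp only [ey, ez] at this
  omega

/-- the x-condition -/
def PX (neg : Fin 6 → Prop) (low : Prop) (s : Fin 6 → Prop) : Prop :=
  (∀ a, neg a → s a) ∧ (low → ∃ a, s a)

/-- the index of `(b,i)` -/
def ix (b : Fin 2) (i : Fin 3) : Fin 6 := ⟨3 * b.1 + i.1, by omega⟩

/-- the y-condition -/
def PY (r : Fin 2 → Prop) (c : Fin 3 → Prop) (s : Fin 6 → Prop) : Prop :=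
  (∀ b, r b → ∃ i, s (ix b i)) ∧ ∀ i, c i → ∃ b, s (ix b i)

theorem Fxyz_iff (neg : Fin 6 → Prop) (low : Prop) (ry : Fin 2 → Prop) (cy : Fin 3 → Prop)
    (rz : Fin 2 → Prop) (cz : Fin 3 → Prop) (T : Finset (Fin 18)) :
    Fxyz neg low ry cy rz cz T ↔ PX neg low (fun j => xv j ∈ T) ∧ PY ry cy (fun j => ey j ∈ T) ∧
      PY rz cz (fun j => ez j ∈ T) := by
  have h1 : ∀ b i, yv b i = ey (ix b i) := by
    intro b i
    apply Fin.ext
    simp only [yv, ey, ix]
    omega
  have h2 : ∀ b i, zv b i = ez (ix b i) := by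
    intro b i
    apply Fin.ext
    simp only [zv, ez, ix]
    omega
  unfold Fxyz PX PY
  simp only [h1, h2]

theorem BK_Y (k : Type*) [Field k] {V : Type*} [LinearOrder V] {e : Fin 6 → V}
    (he : Function.Injective e) (r : Fin 2 → Prop) (c : Fin 3 → Prop) :
    BK k e (PY r c) (kindY r c) := by
  classical
  have hk : kindY r c = kdY (decide (r 0)) (decide (r 1)) (decide (c 0)) (decide (c 1))
      (decide (c 2)) := by
    unfold kindY kdY
    simp only [Fin.forall_fin_succ]
    by_cases h0 : r 0 <;> by_cases h1 : r 1 <;> by_cases h2 : c 0 <;> by_cases h3 : c 1 <;>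
      by_cases h4 : c 2 <;> simp [h0, h1, h2, h3, h4]
  rw [hk]
  refine BK_of_run he _ _ _ (run_treeY _ _ _ _ _) ?_
  intro s
  unfold PY clY
  by_cases h0 : r 0 <;> by_cases h1 : r 1 <;> by_cases h2 : c 0 <;> by_cases h3 : c 1 <;>
      by_cases h4 : c 2 <;>
      simp [Fin.forall_fin_succ, Fin.exists_fin_succ, ix,
        h0, h1, h2, h3, h4, and_assoc]

theorem BK_X (k : Type*) [Field k] {V : Type*} [LinearOrder V] {e : Fin 6 → V}
    (he : Function.Injective e) (neg : Fin 6 → Prop) (low : Prop) :
    BK k e (PX neg low) (kindX neg low) := by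
  classical
  unfold kindX
  split_ifs with h1 h2
  · -- all negative
    have hr : (run .single [] [[0], [1], [2], [3], [4], [5]]).agree (.sph 6) = true := by decide
    refine BK_of_run he .single [[0], [1], [2], [3], [4], [5]] (.sph 6) hr ?_
    intro s
    unfold PX
    constructor
    · rintro ⟨h, _⟩
      have : ∀ a, s a := fun a => h a (h1 a)
      simp [this]
    · intro h
      have hs : ∀ a, s a := by
        intro a
        have ha : [a] ∈ ([[0], [1], [2], [3], [4], [5]] : List (List (Fin 6))) := by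
          revert a
          decide
        obtain ⟨v, hv, hv'⟩ := h [a] ha
        rw [List.mem_singleton] at hv
        rwa [hv] at hv'
      exact ⟨fun a _ => hs a, fun _ => ⟨0, hs 0⟩⟩
  · -- nothing negative, low
    refine BK_of_run he treeX [[0, 1, 2, 3, 4, 5]] (.sph 1) run_treeX ?_
    intro s
    unfold PX
    obtain ⟨h3, h4⟩ := h2
    simp [h3, h4, Fin.exists_fin_succ]
  · -- acyclic
    intro G hG hi
    obtain ⟨b, hb⟩ := not_forall.1 h1
    have h3 : (∃ a, neg a) ∨ ¬ low := by
      by_contra h
      push Not at h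
      exact h2 ⟨h.1, h.2⟩
    refine stat_toggle (e b) ?_ ?_
    · rintro T ⟨⟨h4, h5⟩, h6⟩
      refine ⟨⟨fun a ha => mem_insert_of_mem (h4 a ha), fun hl => ?_⟩, (hi b T).2 h6⟩
      obtain ⟨a, ha⟩ := h5 hl
      exact ⟨a, mem_insert_of_mem ha⟩
    · rintro T ⟨⟨h4, h5⟩, h6⟩
      have h7 : ∀ a, neg a → e a ∈ T.erase (e b) := by
        intro a ha
        refine mem_erase.2 ⟨fun h => hb ?_, h4 a ha⟩
        rw [← he h]
        exact ha
      refine ⟨⟨h7, fun hl => ?_⟩, (hi.erase b T).2 h6⟩
      rcases h3 with ⟨a, ha⟩ | h3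
      · exact ⟨a, h7 a ha⟩
      · exact absurd hl h3

theorem PX_mono {neg : Fin 6 → Prop} {low : Prop} {s s' : Fin 6 → Prop} (h : ∀ j, s j → s' j)
    (hs : PX neg low s) : PX neg low s' :=
  ⟨fun a ha => h a (hs.1 a ha), fun hl => (hs.2 hl).imp h⟩

theorem PY_mono {r : Fin 2 → Prop} {c : Fin 3 → Prop} {s s' : Fin 6 → Prop} (h : ∀ j, s j → s' j)
    (hs : PY r c s) : PY r c s' :=
  ⟨fun b hb => (hs.1 b hb).imp fun _ => h _, fun i hi => (hs.2 i hi).imp fun _ => h _⟩

theorem cvx_of_mono {V : Type*} [LinearOrder V] {e : Fin 6 → V} {P : (Fin 6 → Prop) → Prop}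
    (hP : ∀ s s' : Fin 6 → Prop, (∀ j, s j → s' j) → P s → P s') :
    Cvx (fun T : Finset V => P (fun j => e j ∈ T)) :=
  fun _ _ _ hST _ hS _ => hP _ _ (fun _ h => hST h) hS

theorem cvx_tr {V : Type*} [LinearOrder V] (e : Fin 6 → V) (A : Finset (Fin 6)) :
    Cvx (fun T : Finset V => ∀ v, e v ∈ T ↔ v ∈ A) :=
  fun _ _ _ hST hTU hS hU v => ⟨fun h => (hU v).1 (hTU h), fun h => hST ((hS v).2 h)⟩

theorem Cvx.and {V : Type*} [LinearOrder V] {P Q : Finset V → Prop} (hP : Cvx P) (hQ : Cvx Q) :
    Cvx (fun T => P T ∧ Q T) :=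
  fun S T U hST hTU hS hU => ⟨hP S T U hST hTU hS.1 hU.1, hQ S T U hST hTU hS.2 hU.2⟩

theorem Ins.and {V : Type*} [LinearOrder V] {e : Fin 6 → V} {P Q : Finset V → Prop} (hP : Ins e P)
    (hQ : Ins e Q) : Ins e (fun T => P T ∧ Q T) :=
  fun v T => and_congr (hP v T) (hQ v T)

theorem tr_insert {V : Type*} [LinearOrder V] {e e' : Fin 6 → V} (h : ∀ a b, e a ≠ e' b)
    (v : Fin 6) (T : Finset V) : (fun j => e' j ∈ insert (e v) T) = fun j => e' j ∈ T := by
  funext j
  rw [mem_insert]
  exact propext ⟨fun h' => h'.resolve_left (h v j).symm, Or.inr⟩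

theorem ins_P {V : Type*} [LinearOrder V] {e e' : Fin 6 → V} (h : ∀ a b, e a ≠ e' b)
    (P : (Fin 6 → Prop) → Prop) : Ins e (fun T : Finset V => P (fun j => e' j ∈ T)) := by
  intro v T
  dsimp only
  rw [tr_insert h]

theorem ins_tr {V : Type*} [LinearOrder V] {e e' : Fin 6 → V} (h : ∀ a b, e a ≠ e' b)
    (A : Finset (Fin 6)) : Ins e (fun T : Finset V => ∀ v, e' v ∈ T ↔ v ∈ A) :=
  ins_P h (fun s => ∀ v, s v ↔ v ∈ A)

/-- three conditions on the three blocks of `Fin 18` -/
theorem stat_three (k : Type*) [Field k] {P1 P2 P3 : (Fin 6 → Prop) → Prop} {κ1 κ2 κ3 : Kind}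
    (hm1 : ∀ s s' : Fin 6 → Prop, (∀ j, s j → s' j) → P1 s → P1 s')
    (hm2 : ∀ s s' : Fin 6 → Prop, (∀ j, s j → s' j) → P2 s → P2 s')
    (hm3 : ∀ s s' : Fin 6 → Prop, (∀ j, s j → s' j) → P3 s → P3 s')
    (h1 : BK k xv P1 κ1) (h2 : BK k ey P2 κ2) (h3 : BK k ez P3 κ3) :
    Stat k (fun T : Finset (Fin 18) => P1 (fun j => xv j ∈ T) ∧ P2 (fun j => ey j ∈ T) ∧
      P3 (fun j => ez j ∈ T)) (κ1.add (κ2.add κ3)) := by
  have c1 : Cvx (fun T : Finset (Fin 18) => P1 (fun j => xv j ∈ T)) := cvx_of_mono hm1
  have c2 : Cvx (fun T : Finset (Fin 18) => P2 (fun j => ey j ∈ T)) := cvx_of_mono hm2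
  have c3 : Cvx (fun T : Finset (Fin 18) => P3 (fun j => ez j ∈ T)) := cvx_of_mono hm3
  have nyx : ∀ a b, ey a ≠ xv b := fun a b => (xv_ne_ey b a).symm
  have nzx : ∀ a b, ez a ≠ xv b := fun a b => (xv_ne_ez b a).symm
  have nzy : ∀ a b, ez a ≠ ey b := fun a b => (ey_ne_ez b a).symm
  cases κ1 with
  | acyc =>
    have : Kind.add .acyc (κ2.add κ3) = .acyc := rfl
    rw [this]
    exact h1 _ (c2.and c3) ((ins_P xv_ne_ey P2).and (ins_P xv_ne_ez P3))
  | sph d1 =>
    obtain ⟨A1, hA1, h1⟩ := h1
    cases κ2 with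
    | acyc =>
      have : Kind.add (.sph d1) (Kind.add .acyc κ3) = .acyc := rfl
      rw [this]
      refine stat_congr (κ := .acyc) (fun T => ?_)
        (h2 _ (c1.and c3) ((ins_P nyx P1).and (ins_P ey_ne_ez P3)))
      exact and_left_comm
    | sph d2 =>
      obtain ⟨A2, hA2, h2⟩ := h2
      cases κ3 with
      | acyc =>
        have : Kind.add (.sph d1) (Kind.add (.sph d2) .acyc) = .acyc := rfl
        rw [this]
        refine stat_congr (κ := .acyc) (fun T => ?_)
          (h3 _ (c1.and c2) ((ins_P nzx P1).and (ins_P nzy P2)))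
        rw [and_comm, and_assoc]
      | sph d3 =>
        obtain ⟨A3, hA3, h3⟩ := h3
        have : Kind.add (.sph d1) (Kind.add (.sph d2) (.sph d3)) = .sph (d1 + (d2 + d3)) := rfl
        rw [this]
        refine h1 _ (c2.and c3) ((ins_P xv_ne_ey P2).and (ins_P xv_ne_ez P3)) _ ?_
        refine stat_congr (fun T => and_left_comm)
          (h2 _ ((cvx_tr xv A1).and c3) ((ins_tr nyx A1).and (ins_P ey_ne_ez P3)) _ ?_)
        refine stat_congr (fun T => ?_)
          (h3 _ ((cvx_tr ey A2).and (cvx_tr xv A1)) ((ins_tr nzy A2).and (ins_tr nzx A1)) _ ?_)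
        · tauto
        · have hcard : (A3.map ⟨ez, ez_inj⟩ ∪ (A2.map ⟨ey, ey_inj⟩ ∪ A1.map ⟨xv, xv_inj⟩)).card =
              d1 + (d2 + d3) := by
            rw [card_union_of_disjoint, card_union_of_disjoint, card_map, card_map, card_map,
              hA1, hA2, hA3]
            · omega
            · rw [disjoint_left]
              intro x hx hx'
              rw [mem_map] at hx hx'
              obtain ⟨a, _, rfl⟩ := hx
              obtain ⟨b, _, hb⟩ := hx'
              exact nyx a b hb.symm
            · rw [disjoint_left]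
              intro x hx hx'
              rw [mem_union, mem_map, mem_map] at hx'
              rw [mem_map] at hx
              obtain ⟨a, _, rfl⟩ := hx
              rcases hx' with ⟨b, _, hb⟩ | ⟨b, _, hb⟩
              · exact nzy a b hb.symm
              · exact nzx a b hb.symm
          rw [← hcard]
          apply stat_single
          intro T
          constructor
          · rintro ⟨t3, t2, t1⟩
            ext x
            rw [mem_union, mem_union, mem_map, mem_map, mem_map]
            constructor
            · intro hx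
              by_cases hx1 : x.1 < 6
              · right; right
                have hxx : xv ⟨x.1, hx1⟩ = x := Fin.ext rfl
                exact ⟨⟨x.1, hx1⟩, (t1 _).1 (by rwa [hxx]), hxx⟩
              · by_cases hx2 : x.1 < 12
                · right; left
                  have hxx : ey ⟨x.1 - 6, by omega⟩ = x := by
                    apply Fin.ext
                    simp only [ey]
                    omega
                  exact ⟨⟨x.1 - 6, by omega⟩, (t2 _).1 (by rwa [hxx]), hxx⟩
                · left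
                  have hx3 := x.2
                  have hxx : ez ⟨x.1 - 12, by omega⟩ = x := by
                    apply Fin.ext
                    simp only [ez]
                    omega
                  exact ⟨⟨x.1 - 12, by omega⟩, (t3 _).1 (by rwa [hxx]), hxx⟩
            · rintro (⟨a, ha, rfl⟩ | ⟨a, ha, rfl⟩ | ⟨a, ha, rfl⟩)
              · exact (t3 a).2 ha
              · exact (t2 a).2 ha
              · exact (t1 a).2 ha
          · rintro rfl
            refine ⟨fun v => ?_, fun v => ?_, fun v => ?_⟩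
            · rw [mem_union, mem_union, mem_map, mem_map, mem_map]
              constructor
              · rintro (⟨a, ha, h⟩ | ⟨a, ha, h⟩ | ⟨a, ha, h⟩)
                · rw [← ez_inj h]; exact ha
                · exact absurd h (ey_ne_ez a v)
                · exact absurd h (xv_ne_ez a v)
              · intro h
                exact Or.inl ⟨v, h, rfl⟩
            · rw [mem_union, mem_union, mem_map, mem_map, mem_map]
              constructor
              · rintro (⟨a, ha, h⟩ | ⟨a, ha, h⟩ | ⟨a, ha, h⟩)
                · exact absurd h (nzy a v)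
                · rw [← ey_inj h]; exact ha
                · exact absurd h (xv_ne_ey a v)
              · intro h
                exact Or.inr (Or.inl ⟨v, h, rfl⟩)
            · rw [mem_union, mem_union, mem_map, mem_map, mem_map]
              constructor
              · rintro (⟨a, ha, h⟩ | ⟨a, ha, h⟩ | ⟨a, ha, h⟩)
                · exact absurd h (nzx a v)
                · exact absurd h (nyx a v)
                · rw [← xv_inj h]; exact ha
              · intro h
                exact Or.inr (Or.inr ⟨v, h, rfl⟩)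

end Upset

/-- The cohomology of the explicit up-sets. -/
theorem kind_status (k : Type*) [Field k] (neg : Fin 6 → Prop) (low : Prop) (ry : Fin 2 → Prop)
    (cy : Fin 3 → Prop) (rz : Fin 2 → Prop) (cz : Fin 3 → Prop) :
    Status k (Fxyz neg low ry cy rz cz) ((kindX neg low).add ((kindY ry cy).add (kindY rz cz))) := by
  apply Upset.status_of_stat
  · intro S T hST hS
    rw [Upset.Fxyz_iff] at hS ⊢
    exact ⟨Upset.PX_mono (fun _ h => hST h) hS.1, Upset.PY_mono (fun _ h => hST h) hS.2.1,
      Upset.PY_mono (fun _ h => hST h) hS.2.2⟩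
  · exact Upset.stat_congr (fun T => (Upset.Fxyz_iff neg low ry cy rz cz T).symm)
      (Upset.stat_three k (fun _ _ => Upset.PX_mono) (fun _ _ => Upset.PY_mono)
        (fun _ _ => Upset.PY_mono) (Upset.BK_X k Upset.xv_inj neg low) (Upset.BK_Y k Upset.ey_inj ry cy)
        (Upset.BK_Y k Upset.ez_inj rz cz))

end Pool.Agent.Helper13
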