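import Pool.Agent.Helper13.PartF2
import Pool.Agent.Helper13.Kern

/-!
# Nonvanishing of `H^8(L_n / f L'_n)` in one block degree
-/

set_option linter.unusedSectionVars false

namespace Pool.Agent.Helper13

open Finset AddMonoidAlgebra

namespace NEp

variable (k : Type*) [Field k]

/-- the base exponent -/
def pp (n : ℕ) : ExL :=
  ![3 * n - 3, 0, 0, 0, 0, 0, 0, 0, n - 1, 2 * n - 1, -1, 0, 0, n - 1, 2 * n - 1,
    3 * n + 2 - 2 * n ^ 2]

/-- the block degree -/
def ll (n : ℕ) : Lam :=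
  ![3 * n - 1, n - 1, 2 * n - 1, -1, n - 1, 2 * n - 1, 3 * n + 2 - 2 * n ^ 2]

theorem muf_inj {p : ExL} {L t b c t' b' c' : ℤ} (h : muf p L t b c = muf p L t' b' c') :
    t = t' ∧ b = b' ∧ c = c' := by
  have h1 := congrFun h 1
  have h7 := congrFun h 7
  have h12 := congrFun h 12
  simp only [muf, Matrix.cons_val] at h1 h7 h12
  omega

/-- the element built from a family of polynomials -/
noncomputable def hh (p : ExL) (L P Q : ℕ) (U : ℕ → ℕ → Polynomial k) : E16 k :=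
  ∑ x ∈ (range (L + 1) ×ˢ (range (P + 1) ×ˢ range (Q + 1))),
    single (muf p L x.1 x.2.1 x.2.2) ((U x.2.1 x.2.2).coeff x.1)

variable {k}

theorem hh_coeff_muf {p : ExL} {L P Q : ℕ} {U : ℕ → ℕ → Polynomial k}
    (hU : ∀ b c, (U b c).natDegree ≤ L) {t : ℤ} {b c : ℕ} (hb : b ≤ P) (hc : c ≤ Q) :
    (hh k p L P Q U).coeff (muf p L t b c) = if 0 ≤ t then (U b c).coeff t.toNat else 0 := by
  unfold hh
  rw [coeff_sum, Finsupp.finsetSum_apply]
  simp only [coeff_single, Finsupp.single_apply]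
  by_cases ht : 0 ≤ t ∧ t ≤ L
  · obtain ⟨t0, rfl⟩ := Int.eq_ofNat_of_zero_le ht.1
    have ht0 : t0 ≤ L := by exact_mod_cast ht.2
    rw [if_pos ht.1]
    rw [Finset.sum_eq_single (t0, b, c)]
    · rw [if_pos rfl]; simp
    · rintro ⟨t', b', c'⟩ - hne
      rw [if_neg]
      intro h
      obtain ⟨h1, h2, h3⟩ := muf_inj h
      apply hne
      simp only [Prod.mk.injEq]
      refine ⟨by exact_mod_cast h1, by exact_mod_cast h2, by exact_mod_cast h3⟩
    · intro h
      exfalso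
      apply h
      simp only [mem_product, mem_range]
      omega
  · rw [Finset.sum_eq_zero]
    · split_ifs with h0
      · symm
        apply Polynomial.coeff_eq_zero_of_natDegree_lt
        have := hU b c
        omega
      · rfl
    · rintro ⟨t', b', c'⟩ hx
      simp only [mem_product, mem_range] at hx
      rw [if_neg]
      intro h
      obtain ⟨h1, h2, h3⟩ := muf_inj h
      apply ht
      rw [← h1]
      constructor
      · positivity
      · simp only; omega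

theorem hh_coeff_ne {p : ExL} {L P Q : ℕ} {U : ℕ → ℕ → Polynomial k} {μ : ExL}
    (h : (hh k p L P Q U).coeff μ ≠ 0) :
    ∃ t b c : ℕ, t ≤ L ∧ b ≤ P ∧ c ≤ Q ∧ μ = muf p L t b c := by
  unfold hh at h
  rw [coeff_sum, Finsupp.finsetSum_apply] at h
  simp only [coeff_single, Finsupp.single_apply] at h
  obtain ⟨⟨t, b, c⟩, hx, hx'⟩ := Finset.exists_ne_zero_of_sum_ne_zero h
  simp only [mem_product, mem_range] at hx
  refine ⟨t, b, c, by omega, by omega, by omega, ?_⟩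
  by_contra hne
  apply hx'
  rw [if_neg]
  exact fun h => hne h.symm

theorem muf_Reg {n t b c : ℕ} (hn : 3 ≤ n) (ht : t ≤ 3 * n - 3) (hb : b ≤ 3 * n + 3)
    (hc : c ≤ 2 * n ^ 2) : Reg n 2 (muf (pp n) (3 * n - 3 : ℕ) t b c) := by
  have h1 : (3 : ℤ) * n + 2 - 2 * n ^ 2 < 0 := by
    have : (3 : ℤ) ≤ n := by exact_mod_cast hn
    nlinarith
  have hc' : (c : ℤ) ≤ 2 * n ^ 2 := by exact_mod_cast hc
  have h2 : ((3 * n - 3 : ℕ) : ℤ) = 3 * n - 3 := by omega
  refine ⟨⟨?_, ?_, ?_, ?_, ?_, ?_⟩, ?_, ⟨?_, ?_, ?_, ?_, ?_⟩, ⟨?_, ?_, ?_, ?_, ?_⟩⟩ <;>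
  simp only [muf, pp, Matrix.cons_val, h2] <;> omega

theorem muf_Eqn {n : ℕ} {L t b c : ℤ} : Eqn 2 (muf (pp n) L t b c) := by
  constructor <;> simp only [muf, pp, Matrix.cons_val] <;> ring

theorem muf_SL {n t b c : ℕ} (hn : 3 ≤ n) :
    muf (pp n) (3 * n - 3 : ℕ) t b c ∈ SL (ll n - ef) := by
  have h2 : ((3 * n - 3 : ℕ) : ℤ) = 3 * n - 3 := by omega
  rw [SL_iff]
  refine ⟨?_, ?_, ?_, ?_, ?_, ?_, ?_⟩ <;>
  simp only [muf, pp, ll, ef, Matrix.cons_val, h2, Pi.sub_apply] <;> ring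

/-- the vanishing of the coefficients of `f h` in the region -/
theorem fh_zero {n : ℕ} (hn : 3 ≤ n) {U : ℕ → ℕ → Polynomial k}
    (hU : ∀ b c, (U b c).natDegree ≤ 3 * n - 3)
    (hrel : K.Rel (3 * n + 3) (2 * n ^ 2) U) {ν : ExL} (hS : ν ∈ SL (ll n))
    (hR : Reg n 0 ν) (hE : Eqn 0 ν) :
    (fL k * hh k (pp n) (3 * n - 3) (3 * n + 3) (2 * n ^ 2) U).coeff ν = 0 := by
  rw [fL_mul_coeff]
  obtain ⟨⟨x0, x1, x2, x3, x4, x5⟩, hlow, ⟨y0, y1, y2, y3, y4⟩, ⟨z0, z1, z2, z3, z4⟩⟩ := hR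
  obtain ⟨q1, q2⟩ := hE
  obtain ⟨s0, s1, s2, s3, s4, s5, s6⟩ := SL_iff.1 hS
  simp only [ll, Matrix.cons_val] at s0 s1 s2 s3 s4 s5 s6
  by_cases hz : ν 2 = 0 ∧ ν 3 = 0 ∧ ν 4 = 0 ∧ ν 5 = 0
  · obtain ⟨w2, w3, w4, w5⟩ := hz
    obtain ⟨b, hb⟩ := Int.eq_ofNat_of_zero_le (show 0 ≤ -1 - ν 7 by omega)
    obtain ⟨c, hc⟩ := Int.eq_ofNat_of_zero_le (show 0 ≤ -1 - ν 12 by omega)
    obtain ⟨t, ht⟩ := Int.eq_ofNat_of_zero_le (show 0 ≤ ν 1 by omega)
    have h2 : ((3 * n - 3 : ℕ) : ℤ) = 3 * n - 3 := by omega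
    have hν : ν = nuf (pp n) (3 * n - 3 : ℕ) t b c := by
      ext a
      fin_cases a <;> simp only [Fin.zero_eta, Fin.mk_one, Fin.reduceFinMk, nuf, pp,
        Matrix.cons_val, h2] <;> omega
    have hbP : b + 2 ≤ 3 * n + 3 := by omega
    have hcQ : c + 2 ≤ 2 * n ^ 2 := by
      have : (c : ℤ) + 2 ≤ 2 * n ^ 2 := by omega
      exact_mod_cast this
    have h0 := congrArg (fun q : Polynomial k => q.coeff t) (hrel b c hbP hcQ)
    simp only [Polynomial.coeff_zero] at h0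
    rw [Polynomial.finsetSum_coeff] at h0
    have h1 : ∀ j ∈ range 3, (∑ i ∈ range 3, K.F k j i * U (b + j) (c + i)).coeff t =
        ∑ i ∈ range 3, ∑ u ∈ range 3, ct k u j i *
          (if u ≤ t then (U (b + j) (c + i)).coeff (t - u) else 0) := by
      intro j hj
      rw [Polynomial.finsetSum_coeff]
      refine sum_congr rfl fun i hi => ?_
      rw [F_eq k j i (mem_range.1 hj) (mem_range.1 hi), sum_mul, Polynomial.finsetSum_coeff]
      refine sum_congr rfl fun u hu => ?_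
      rw [← Polynomial.C_mul_X_pow_eq_monomial, mul_assoc, Polynomial.coeff_C_mul,
        mul_comm (Polynomial.X ^ u), Polynomial.coeff_mul_X_pow']
    rw [sum_congr rfl h1] at h0
    rw [sum_comm]
    refine Eq.trans (sum_congr rfl fun j hj => ?_) h0
    rw [sum_comm]
    refine sum_congr rfl fun i hi => ?_
    refine sum_congr rfl fun u hu => ?_
    have hu' := mem_range.1 hu
    have hj' := mem_range.1 hj
    have hi' := mem_range.1 hi
    rw [hν, nuf_sub]
    congr 1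
    have h3 := hh_coeff_muf (p := pp n) (P := 3 * n + 3) (Q := 2 * n ^ 2) hU
      (t := (t : ℤ) - u) (b := b + j) (c := c + i) (by omega) (by omega)
    rw [Nat.cast_add, Nat.cast_add] at h3
    rw [h3]
    by_cases hut : u ≤ t
    · rw [if_pos hut, if_pos (by omega)]
      congr 1
      omega
    · rw [if_neg hut, if_neg (by omega)]
  · refine sum_eq_zero fun u hu => sum_eq_zero fun j hj => sum_eq_zero fun i hi => ?_
    by_cases hne : (hh k (pp n) (3 * n - 3) (3 * n + 3) (2 * n ^ 2) U).coeff (ν - tau u j i) = 0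
    · rw [hne, mul_zero]
    · exfalso
      obtain ⟨t, b, c, -, -, -, h⟩ := hh_coeff_ne hne
      have h2 := congrFun h 2
      have h3 := congrFun h 3
      have h4 := congrFun h 4
      have h5 := congrFun h 5
      simp only [muf, pp, tau, Matrix.cons_val, Pi.sub_apply] at h2 h3 h4 h5
      omega

end NEp

open NEp

variable (k : Type*) [Field k]

theorem ne_piece' (n : ℕ) (hn : 3 ≤ n) :
    ¬ Van (fr (LF k n 0) (SL (ll n))) (fr (JF k n) (SL (ll n))) 8 := by
  obtain ⟨U, hU, hrel, b0, hb0, c0, hc0, hne⟩ := K.T_nz k (3 * n - 3) (3 * n + 3) (2 * n ^ 2)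
    (by omega) (by nlinarith) (by
      obtain ⟨m, rfl⟩ := Nat.exists_eq_add_of_le hn
      have e1 : 3 * (3 + m) - 3 = 3 * m + 6 := by omega
      have e2 : 3 * (3 + m) + 3 - 1 = 3 * m + 11 := by omega
      have e3 : 2 * (3 + m) ^ 2 - 1 = 2 * m ^ 2 + 12 * m + 17 := by
        have : 2 * (3 + m) ^ 2 = 2 * m ^ 2 + 12 * m + 18 := by ring
        omega
      rw [e1, e2, e3]
      nlinarith)
  set h : E16 k := hh k (pp n) (3 * n - 3) (3 * n + 3) (2 * n ^ 2) U with hh_def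
  obtain ⟨-, ε, ⟨z, hz, hεz⟩, hε0, -⟩ := status_Fst k
  have hzF : z ∈ CF k Fst 9 := hz.1
  have hzd : cobd k k z = 0 := hz.2
  let e : Finset (Fin 18) → E16 k := fun T => z T • h
  have hcof : ∀ μ, cof e μ = h.coeff μ • z := by
    intro μ
    funext T
    simp only [cof, e, coeff_smul, Finsupp.smul_apply, Pi.smul_apply, smul_eq_mul]
    ring
  have htr := tr_f_fr k n (ll n - ef)
  rw [sub_add_cancel] at htr
  have he : e ∈ Coch (fr (LF k n 2) (SL (ll n - ef))) 9 := by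
    rw [LF_eq]
    intro T
    refine ⟨⟨?_, ?_⟩, ?_⟩
    · intro μ hμ
      simp only [e, coeff_smul, Finsupp.smul_apply, smul_eq_mul] at hμ
      obtain ⟨t, b, c, ht, hb, hc, hm⟩ := hh_coeff_ne (right_ne_zero_of_mul hμ)
      change FL n 2 μ T
      rw [hm, FL_eq_Fst muf_Eqn (muf_Reg hn ht hb hc)]
      exact (hzF T (left_ne_zero_of_mul hμ)).1
    · intro μ hμ
      simp only [e, coeff_smul, Finsupp.smul_apply, smul_eq_mul] at hμ
      obtain ⟨t, b, c, ht, hb, hc, hm⟩ := hh_coeff_ne (right_ne_zero_of_mul hμ)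
      rw [hm]
      exact muf_SL hn
    · intro hT
      have : z T = 0 := by
        by_contra h0
        exact hT (hzF T h0).2
      simp only [e, this, zero_smul]
  have hde : cobd k _ e = 0 := by
    funext T
    ext μ
    have h1 : (cobd k _ e T).coeff μ = cobd k k (cof e μ) T := by
      rw [← cof_cobd]; rfl
    rw [h1, hcof, map_smul, hzd]
    simp
  set fe := post (LinearMap.mulLeft k (fL k)) e with fe_def
  have hfeJ : fe ∈ Coch (fr (JF k n) (SL (ll n))) 9 := htr.map_coch he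
  have hfeL : fe ∈ Coch (fr (LF k n 0) (SL (ll n))) 9 :=
    Coch_mono (fr_le_fr (JF_le_LF k n) _) hfeJ
  have hdfe : cobd k _ fe = 0 := by
    rw [fe_def, cobd_post, hde, map_zero]
  have hfeL' := hfeL
  rw [LF_eq] at hfeL'
  have h5 : ∀ ν ∈ SL (ll n), cof fe ν ∈ BF k (FL n 0 ν) 9 := by
    intro ν hν
    have h6 := cof_mem_ZF hfeL' hdfe ν
    by_cases hE : Eqn 0 ν
    · by_cases hR : Reg n 0 ν
      · have h7 : cof fe ν = 0 := by
          funext T
          have h8 : cof fe ν T = z T * (fL k * h).coeff ν := by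
            simp only [cof, fe_def, post_apply, LinearMap.mulLeft_apply, e, mul_smul_comm,
              coeff_smul, Finsupp.smul_apply, smul_eq_mul]
          rw [h8, hh_def, fh_zero hn hU hrel hν hR hE, mul_zero]
          rfl
        rw [h7]
        exact Submodule.zero_mem _
      · exact fine9 k le_rfl ν hR h6
    · exact ZF_eq_bot_of_not_eqn k hE _ h6
  obtain ⟨c1, hc1, hc1'⟩ := exists_cobd_of_cof hfeL' h5
  rw [← LF_eq] at hc1
  norm_num at hc1
  intro hvan
  have hcZ : c1 ∈ Zc (fr (LF k n 0) (SL (ll n))) (fr (JF k n) (SL (ll n))) 8 := by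
    refine mem_Zc.2 ⟨hc1, ?_⟩
    rw [hc1']
    exact hfeJ
  obtain ⟨a, ha, b, hb, hab⟩ := mem_Bc.1 (hvan hcZ)
  obtain ⟨e', he', hbe⟩ := htr.lift hb
  have hbe' : b = post (LinearMap.mulLeft k (fL k)) e' := by
    funext T
    exact sub_eq_zero.1 (hbe T).1
  have h9 : e = cobd k _ e' := by
    funext T
    have h10 : post (LinearMap.mulLeft k (fL k)) e T =
        post (LinearMap.mulLeft k (fL k)) (cobd k _ e') T := by
      rw [← cobd_post, ← hbe', ← fe_def, ← hc1', ← hab, map_add, cobd_cobd, zero_add]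
    simp only [post_apply, LinearMap.mulLeft_apply] at h10
    exact mul_left_cancel₀ (fL_ne_zero k) h10
  obtain ⟨t0, ht0⟩ : ∃ t, (U b0 c0).coeff t ≠ 0 := by
    by_contra hcon
    push Not at hcon
    exact hne (Polynomial.ext (by simpa using hcon))
  have ht0L : t0 ≤ 3 * n - 3 := (Polynomial.le_natDegree_of_ne_zero ht0).trans (hU b0 c0)
  let μ := muf (pp n) (3 * n - 3 : ℕ) t0 b0 c0
  have hμF : FL n 2 μ = Fst := FL_eq_Fst muf_Eqn (muf_Reg hn ht0L hb0 hc0)
  have hμc : h.coeff μ = (U b0 c0).coeff t0 := by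
    rw [hh_def, hh_coeff_muf hU hb0 hc0, if_pos (by positivity)]
    simp
  have h11 : cof e μ ∈ BF k Fst 9 := by
    rw [h9, cof_cobd]
    refine ⟨_, ?_, rfl⟩
    rw [LF_eq] at he'
    have := cof_mem_CF he' μ
    rw [hμF] at this
    norm_num
    exact this
  have h12 := hε0 _ h11
  rw [hcof, map_smul, hεz, hμc, smul_eq_mul, mul_one] at h12
  exact ht0 h12

/-- nonvanishing of `H^8(L_n / f L'_n)` in one block degree -/
theorem ne_piece (k : Type*) [Field k] (n : ℕ) (hn : 3 ≤ n) :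
    ¬ Van (fr (LF k n 0) (SL ![3 * n - 1, n - 1, 2 * n - 1, -1, n - 1, 2 * n - 1, 3 * n + 2 - 2 * n ^ 2]))
      (fr (JF k n) (SL ![3 * n - 1, n - 1, 2 * n - 1, -1, n - 1, 2 * n - 1, 3 * n + 2 - 2 * n ^ 2])) 8 :=
  ne_piece' k n hn

end Pool.Agent.Helper13
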