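import Mathlib

set_option linter.unusedSectionVars false

namespace Pool.Agent.Helper17.RelDim

section partA
open Module

variable {V : Type} [NormedAddCommGroup V] [InnerProductSpace ℂ V] [FiniteDimensional ℂ V]

/-- real part of the trace of the compression of `A` to `S` -/
noncomputable def ctr (S : Submodule ℂ V) (A : V →ₗ[ℂ] V) : ℝ :=
  (LinearMap.trace ℂ V (A ∘ₗ (S.starProjection : V →ₗ[ℂ] V))).re

lemma ctr_eq_sum {ι : Type} [Fintype ι] (S : Submodule ℂ V) (A : V →ₗ[ℂ] V)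
    (b : OrthonormalBasis ι ℂ S) :
    ctr S A = ∑ i, (inner ℂ (b i : V) (A (b i))).re := by
  unfold ctr
  have h1 : A ∘ₗ (S.starProjection : V →ₗ[ℂ] V)
      = (A ∘ₗ S.subtype) ∘ₗ (S.orthogonalProjectionOnto : V →ₗ[ℂ] S) := by
    ext v; rfl
  rw [h1, LinearMap.trace_comp_comm', LinearMap.trace_eq_sum_inner _ b, Complex.re_sum]
  refine Finset.sum_congr rfl fun i _ => ?_
  congr 1
  rw [LinearMap.comp_apply, LinearMap.comp_apply]
  simp

lemma ctr_le (S : Submodule ℂ V) (A : V →ₗ[ℂ] V) (c : ℝ)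
    (h : ∀ v ∈ S, (inner ℂ v (A v)).re ≤ c * ‖v‖ ^ 2) : ctr S A ≤ c * finrank ℂ S := by
  rw [ctr_eq_sum S A (stdOrthonormalBasis ℂ S)]
  calc _ ≤ ∑ _i : Fin (finrank ℂ S), c := by
        refine Finset.sum_le_sum fun i _ => ?_
        have := h _ ((stdOrthonormalBasis ℂ S) i).2
        have hn : ‖(((stdOrthonormalBasis ℂ S) i : S) : V)‖ = 1 := by
          exact (stdOrthonormalBasis ℂ S).norm_eq_one i
        rw [hn] at this
        simpa using this
    _ = _ := by simp [mul_comm]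

lemma ctr_add_orth {S S' : Submodule ℂ V} (h : S' ≤ S) (A : V →ₗ[ℂ] V) :
    ctr S A = ctr S' A + ctr (S'ᗮ ⊓ S) A := by
  unfold ctr
  rw [← Complex.add_re, ← map_add, ← LinearMap.comp_add]
  congr 3
  ext v
  simp only [ContinuousLinearMap.coe_coe, LinearMap.add_apply]
  have h2 : (S'ᗮ ⊓ S).starProjection v = S.starProjection v - S'.starProjection v := by
    apply Submodule.eq_starProjection_of_mem_orthogonal
    · refine ⟨?_, Submodule.sub_mem _ (Submodule.starProjection_apply_mem _ _)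
        (h (Submodule.starProjection_apply_mem _ _))⟩
      have : S.starProjection v - S'.starProjection v
          = (v - S'.starProjection v) - (v - S.starProjection v) := by abel
      rw [SetLike.mem_coe, this]
      exact Submodule.sub_mem _ (Submodule.sub_starProjection_mem_orthogonal _)
        (Submodule.orthogonal_le h (Submodule.sub_starProjection_mem_orthogonal _))
    · have : v - (S.starProjection v - S'.starProjection v)
          = (v - S.starProjection v) + S'.starProjection v := by abel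
      rw [this]
      refine Submodule.add_mem _ ?_ ?_
      · exact Submodule.orthogonal_le inf_le_right
          (Submodule.sub_starProjection_mem_orthogonal _)
      · have h3 : S' ≤ (S'ᗮ ⊓ S)ᗮ :=
          (Submodule.le_orthogonal_orthogonal S').trans (Submodule.orthogonal_le inf_le_left)
        exact h3 (Submodule.starProjection_apply_mem _ _)
  rw [h2]; abel

lemma ctr_sum {ι : Type} (s : Finset ι) (S : Submodule ℂ V) (A : ι → (V →ₗ[ℂ] V)) :
    ctr S (∑ i ∈ s, A i) = ∑ i ∈ s, ctr S (A i) := by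
  unfold ctr
  have h : (∑ i ∈ s, A i) ∘ₗ (S.starProjection : V →ₗ[ℂ] V)
      = ∑ i ∈ s, (A i ∘ₗ (S.starProjection : V →ₗ[ℂ] V)) := by
    ext v; simp [LinearMap.sum_apply]
  rw [h, map_sum, Complex.re_sum]

lemma ctr_neg (S : Submodule ℂ V) (A : V →ₗ[ℂ] V) : ctr S (-A) = - ctr S A := by
  unfold ctr
  rw [LinearMap.neg_comp, map_neg, Complex.neg_re]

lemma ctr_le_of_sup {A : V →ₗ[ℂ] V} (hA : A.IsSymmetric) (𝒲 : Set (Submodule ℂ V))
    (S : Submodule ℂ V) (c : ℝ)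
    (hS : ∀ v ∈ S, (∀ W ∈ 𝒲, v ∈ Wᗮ) → v = 0) (hAS : ∀ v ∈ S, A v ∈ S)
    (hAW : ∀ W ∈ 𝒲, ∀ w ∈ W, A w ∈ W)
    (hc : ∀ W ∈ 𝒲, ∀ w ∈ W, (inner ℂ w (A w)).re ≤ c * ‖w‖ ^ 2) :
    ctr S A ≤ c * finrank ℂ S := by
  have hT := hA.restrict_invariant hAS
  set b := hT.eigenvectorBasis rfl with hb
  rw [ctr_eq_sum S A b]
  have key : ∀ i, (inner ℂ (b i : V) (A (b i))).re ≤ c := by
    intro i
    have happ : A.restrict hAS (b i) = ((hT.eigenvalues rfl i : ℝ) : ℂ) • b i :=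
      hT.apply_eigenvectorBasis rfl i
    have hbi : A (b i : V) = ((hT.eigenvalues rfl i : ℝ) : ℂ) • (b i : V) := by
      have := congrArg (Subtype.val) happ
      simpa using this
    set μ : ℝ := hT.eigenvalues rfl i with hμ
    have hnorm : ‖(b i : V)‖ = 1 := by
      exact b.norm_eq_one i
    have hval : (inner ℂ (b i : V) (A (b i))).re = μ := by
      rw [hbi, inner_smul_right, inner_self_eq_norm_sq_to_K, hnorm]
      simp
    rw [hval]
    by_contra hlt
    push Not at hlt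
    have hzero : (b i : V) = 0 := by
      apply hS _ (b i).2
      intro W hW
      -- A - μ is injective on W
      let B : W →ₗ[ℂ] W := (A.restrict (hAW W hW)) - (μ : ℂ) • LinearMap.id
      have hinj : Function.Injective B := by
        rw [← LinearMap.ker_eq_bot, LinearMap.ker_eq_bot']
        intro w hw
        have hw' : A (w : V) = (μ : ℂ) • (w : V) := by
          have := congrArg (Subtype.val) hw
          simp [B, sub_eq_zero] at this
          exact this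
        have := hc W hW w w.2
        rw [hw', inner_smul_right, inner_self_eq_norm_sq_to_K] at this
        have h4 : ((μ : ℂ) * ((‖(w : V)‖ : ℂ) ^ 2)).re = μ * ‖(w : V)‖ ^ 2 := by
          rw [← Complex.ofReal_pow, ← Complex.ofReal_mul, Complex.ofReal_re]
        have h5 : μ * ‖(w : V)‖ ^ 2 ≤ c * ‖(w : V)‖ ^ 2 := by
          rw [← h4]; exact this
        have h6 : ‖(w : V)‖ ^ 2 = 0 := by
          have h0 : 0 ≤ ‖(w : V)‖ ^ 2 := by positivity
          nlinarith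
        have h7 : (w : V) = 0 := by simpa using h6
        exact Subtype.ext h7
      have hsurj : Function.Surjective B := LinearMap.injective_iff_surjective.mp hinj
      rw [Submodule.mem_orthogonal]
      intro w hw
      obtain ⟨w', hw'⟩ := hsurj ⟨w, hw⟩
      have h8 : w = A (w' : V) - (μ : ℂ) • (w' : V) := by
        have := congrArg (Subtype.val) hw'
        simp [B] at this
        exact this.symm
      rw [h8, inner_sub_left, hA, hbi, inner_smul_left, inner_smul_right]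
      simp
    rw [hzero] at hnorm
    simp at hnorm
  calc _ ≤ ∑ _i : Fin (finrank ℂ S), c := Finset.sum_le_sum fun i _ => key i
    _ = _ := by simp [mul_comm]

lemma ctr_ge_of_sup {A : V →ₗ[ℂ] V} (hA : A.IsSymmetric) (𝒲 : Set (Submodule ℂ V))
    (S : Submodule ℂ V) (c : ℝ)
    (hS : ∀ v ∈ S, (∀ W ∈ 𝒲, v ∈ Wᗮ) → v = 0) (hAS : ∀ v ∈ S, A v ∈ S)
    (hAW : ∀ W ∈ 𝒲, ∀ w ∈ W, A w ∈ W)
    (hc : ∀ W ∈ 𝒲, ∀ w ∈ W, c * ‖w‖ ^ 2 ≤ (inner ℂ w (A w)).re) :
    c * finrank ℂ S ≤ ctr S A := by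
  have hA' : (-A).IsSymmetric := by
    intro x y
    simp only [LinearMap.neg_apply, inner_neg_left, inner_neg_right]
    rw [hA]
  have := ctr_le_of_sup hA' 𝒲 S (-c) hS (fun v hv => by
      simpa using S.neg_mem (hAS v hv)) (fun W hW w hw => by
      simpa using W.neg_mem (hAW W hW w hw)) (fun W hW w hw => by
      have := hc W hW w hw
      simp only [LinearMap.neg_apply, inner_neg_right, Complex.neg_re]
      linarith)
  rw [ctr_neg] at this
  linarith

end partA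

section partB
open Module

variable {n : ℕ} {V : Type} [NormedAddCommGroup V] [InnerProductSpace ℂ V] [FiniteDimensional ℂ V]

/-- the vectors fixed by all permutations supported in `C` -/
def fixS (ρ : Equiv.Perm (Fin n) →* (V →ₗ[ℂ] V)) (C : Finset (Fin n)) : Submodule ℂ V where
  carrier := {v | ∀ σ : Equiv.Perm (Fin n), (∀ x, x ∉ C → σ x = x) → ρ σ v = v}
  add_mem' := by intro a b ha hb σ hσ; rw [map_add, ha σ hσ, hb σ hσ]
  zero_mem' := by intro σ _; exact map_zero _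
  smul_mem' := by intro c a ha σ hσ; rw [map_smul, ha σ hσ]

section rep

variable (ρ : Equiv.Perm (Fin n) →* (V →ₗ[ℂ] V))

omit [FiniteDimensional ℂ V] in
lemma fixS_anti {C C' : Finset (Fin n)} (h : C ⊆ C') : fixS ρ C' ≤ fixS ρ C :=
  fun _ hv σ hσ => hv σ (fun x hx => hσ x (fun hxC => hx (h hxC)))

omit [FiniteDimensional ℂ V] in
lemma rho_mul (σ τ : Equiv.Perm (Fin n)) (v : V) : ρ (σ * τ) v = ρ σ (ρ τ v) := by
  rw [map_mul]; rfl

omit [FiniteDimensional ℂ V] in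
lemma fixS_conj {C C' : Finset (Fin n)} (τ : Equiv.Perm (Fin n)) (h : ∀ z ∈ C', τ⁻¹ z ∈ C)
    {v : V} (hv : v ∈ fixS ρ C) : ρ τ v ∈ fixS ρ C' := by
  intro σ hσ
  have h1 : ρ (τ⁻¹ * σ * τ) v = v := hv _ (by
    intro z hz
    have : τ z ∉ C' := fun h' => hz (by simpa using h _ h')
    simp [hσ _ this])
  calc ρ σ (ρ τ v) = ρ (τ * (τ⁻¹ * σ * τ)) v := by
        rw [← rho_mul]; congr 2; group
    _ = ρ τ v := by rw [rho_mul, h1]

/-- the span of the spaces fixed by `Sym(O \ R)`, `|R| = l` -/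
def U (O : Finset (Fin n)) (l : ℕ) : Submodule ℂ V := ⨆ R ∈ O.powersetCard l, fixS ρ (O \ R)

omit [FiniteDimensional ℂ V] in
lemma fixS_le_U {O R : Finset (Fin n)} {l : ℕ} (hR : R ⊆ O) (hc : R.card = l) :
    fixS ρ (O \ R) ≤ U ρ O l :=
  le_iSup₂_of_le R (Finset.mem_powersetCard.2 ⟨hR, hc⟩) le_rfl

omit [FiniteDimensional ℂ V] in
lemma U_le {O : Finset (Fin n)} {l : ℕ} {S : Submodule ℂ V}
    (h : ∀ R ⊆ O, R.card = l → fixS ρ (O \ R) ≤ S) : U ρ O l ≤ S :=
  iSup₂_le fun R hR => h R (Finset.mem_powersetCard.1 hR).1 (Finset.mem_powersetCard.1 hR).2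

omit [FiniteDimensional ℂ V] in
lemma U_mono {O : Finset (Fin n)} {l : ℕ} (h : l + 1 ≤ O.card) : U ρ O l ≤ U ρ O (l + 1) := by
  apply U_le
  intro R hR hc
  obtain ⟨y, hy, hyR⟩ := Finset.exists_mem_notMem_of_card_lt_card (by omega : R.card < O.card)
  refine (fixS_anti ρ ?_).trans (fixS_le_U ρ (R := insert y R) ?_ ?_)
  · exact Finset.sdiff_subset_sdiff (le_refl _) (Finset.subset_insert _ _)
  · exact Finset.insert_subset hy hR
  · rw [Finset.card_insert_of_notMem hyR, hc]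

omit [FiniteDimensional ℂ V] in
lemma U_erase_le {O : Finset (Fin n)} {l : ℕ} {x : Fin n} (hx : x ∈ O) :
    U ρ (O.erase x) l ≤ U ρ O (l + 1) := by
  apply U_le
  intro R hR hc
  have hxR : x ∉ R := fun h => by simpa using hR h
  refine (fixS_anti ρ ?_).trans (fixS_le_U ρ (R := insert x R) ?_ ?_)
  · intro z hz
    simp only [Finset.mem_sdiff, Finset.mem_insert, not_or, Finset.mem_erase] at hz ⊢
    tauto
  · exact Finset.insert_subset hx (hR.trans (Finset.erase_subset _ _))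
  · rw [Finset.card_insert_of_notMem hxR, hc]

omit [FiniteDimensional ℂ V] in
lemma U_le_erase {O : Finset (Fin n)} {l : ℕ} {x : Fin n} (h : l + 1 ≤ O.card) :
    U ρ O l ≤ U ρ (O.erase x) l := by
  apply U_le
  intro R hR hc
  by_cases hxR : x ∈ R
  · obtain ⟨y, hy, hyR⟩ := Finset.exists_mem_notMem_of_card_lt_card (by omega : R.card < O.card)
    have hyx : y ≠ x := fun h => hyR (h ▸ hxR)
    refine (fixS_anti ρ ?_).trans (fixS_le_U ρ (R := insert y (R.erase x)) ?_ ?_)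
    · intro z hz
      simp only [Finset.mem_sdiff, Finset.mem_insert, not_or, Finset.mem_erase] at hz ⊢
      tauto
    · intro z hz
      simp only [Finset.mem_insert, Finset.mem_erase] at hz ⊢
      rcases hz with rfl | ⟨h1, h2⟩
      · exact ⟨hyx, hy⟩
      · exact ⟨h1, hR h2⟩
    · rw [Finset.card_insert_of_notMem (by simp [hyR]), Finset.card_erase_of_mem hxR, hc]
      have : 0 < R.card := Finset.card_pos.2 ⟨x, hxR⟩
      omega
  · refine (fixS_anti ρ ?_).trans (fixS_le_U ρ (R := R) ?_ hc)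
    · exact Finset.sdiff_subset_sdiff (Finset.erase_subset _ _) (le_refl _)
    · exact Finset.subset_erase.2 ⟨hR, hxR⟩

omit [FiniteDimensional ℂ V] in
lemma U_map {O O' : Finset (Fin n)} {l : ℕ} {τ : Equiv.Perm (Fin n)}
    (h1 : ∀ z ∈ O', τ⁻¹ z ∈ O) (h2 : ∀ z ∈ O, τ z ∈ O') {v : V} (hv : v ∈ U ρ O l) :
    ρ τ v ∈ U ρ O' l := by
  have : U ρ O l ≤ (U ρ O' l).comap (ρ τ) := by
    apply U_le
    intro R hR hc v hv
    rw [Submodule.mem_comap]
    refine (fixS_le_U ρ (R := R.image τ) ?_ ?_) (fixS_conj ρ τ ?_ hv)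
    · intro z hz
      obtain ⟨w, hw, rfl⟩ := Finset.mem_image.1 hz
      exact h2 _ (hR hw)
    · rw [Finset.card_image_of_injective _ τ.injective, hc]
    · intro z hz
      rw [Finset.mem_sdiff] at hz ⊢
      refine ⟨h1 _ hz.1, fun h => hz.2 ?_⟩
      rw [Finset.mem_image]
      exact ⟨_, h, by simp⟩
  exact this hv

omit [FiniteDimensional ℂ V] in
lemma rho_inj (τ : Equiv.Perm (Fin n)) : Function.Injective (ρ τ) := by
  intro v w h
  have : ρ τ⁻¹ (ρ τ v) = ρ τ⁻¹ (ρ τ w) := by rw [h]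
  rw [← rho_mul, ← rho_mul] at this
  simpa using this

lemma finrank_U_le {O O' : Finset (Fin n)} {l : ℕ} {τ : Equiv.Perm (Fin n)}
    (h1 : ∀ z ∈ O', τ⁻¹ z ∈ O) (h2 : ∀ z ∈ O, τ z ∈ O') :
    finrank ℂ (U ρ O l) ≤ finrank ℂ (U ρ O' l) := by
  have h3 : (U ρ O l).map (ρ τ) ≤ U ρ O' l := by
    rintro _ ⟨v, hv, rfl⟩
    exact U_map ρ h1 h2 hv
  rw [(Submodule.equivMapOfInjective _ (rho_inj ρ τ) (U ρ O l)).finrank_eq]
  exact Submodule.finrank_mono h3

lemma finrank_U_erase_le {O : Finset (Fin n)} {l : ℕ} {x y : Fin n} (hx : x ∈ O) (hy : y ∈ O) :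
    finrank ℂ (U ρ (O.erase x) l) ≤ finrank ℂ (U ρ (O.erase y) l) := by
  apply finrank_U_le ρ (τ := Equiv.swap x y)
  · intro z hz
    rw [Equiv.swap_inv]
    rw [Finset.mem_erase] at hz ⊢
    by_cases h1 : z = x
    · subst h1; rw [Equiv.swap_apply_left]; exact ⟨hz.1.symm, hy⟩
    · rw [Equiv.swap_apply_of_ne_of_ne h1 hz.1]; exact ⟨h1, hz.2⟩
  · intro z hz
    rw [Finset.mem_erase] at hz ⊢
    by_cases h1 : z = y
    · subst h1; rw [Equiv.swap_apply_right]; exact ⟨hz.1.symm, hx⟩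
    · rw [Equiv.swap_apply_of_ne_of_ne hz.1 h1]; exact ⟨h1, hz.2⟩

omit [FiniteDimensional ℂ V] in
lemma U_swap {O : Finset (Fin n)} {l : ℕ} {x y : Fin n} (hx : x ∈ O) (hy : y ∈ O) {v : V}
    (hv : v ∈ U ρ O l) : ρ (Equiv.swap x y) v ∈ U ρ O l := by
  have key : ∀ z ∈ O, Equiv.swap x y z ∈ O := by
    intro z hz
    by_cases h1 : z = x
    · subst h1; rw [Equiv.swap_apply_left]; exact hy
    · by_cases h2 : z = y
      · subst h2; rw [Equiv.swap_apply_right]; exact hx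
      · rw [Equiv.swap_apply_of_ne_of_ne h1 h2]; exact hz
  exact U_map ρ (fun z hz => by rw [Equiv.swap_inv]; exact key z hz) key hv

section unitary

variable (hu : ∀ σ v w, inner ℂ (ρ σ v) (ρ σ w) = inner ℂ v w)

include hu

omit [FiniteDimensional ℂ V] in
lemma norm_rho (σ : Equiv.Perm (Fin n)) (v : V) : ‖ρ σ v‖ = ‖v‖ := by
  have h := hu σ v v
  rw [inner_self_eq_norm_sq_to_K, inner_self_eq_norm_sq_to_K] at h
  have h2 : ‖ρ σ v‖ ^ 2 = ‖v‖ ^ 2 := by exact_mod_cast h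
  exact (pow_left_inj₀ (norm_nonneg _) (norm_nonneg _) two_ne_zero).1 h2

omit [FiniteDimensional ℂ V] in
lemma swap_symm (x y : Fin n) : (ρ (Equiv.swap x y)).IsSymmetric := by
  intro v w
  rw [← hu (Equiv.swap x y) v, ← rho_mul, Equiv.swap_mul_self, map_one]
  rfl

lemma proj_comm (K : Submodule ℂ V) (σ : Equiv.Perm (Fin n)) (h1 : ∀ v ∈ K, ρ σ v ∈ K)
    (h2 : ∀ v ∈ K, ρ σ⁻¹ v ∈ K) (v : V) :
    Kᗮ.starProjection (ρ σ v) = ρ σ (Kᗮ.starProjection v) := by
  apply Submodule.eq_starProjection_of_mem_orthogonal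
  · rw [Submodule.mem_orthogonal]
    intro w hw
    have h3 : w = ρ σ (ρ σ⁻¹ w) := by rw [← rho_mul, mul_inv_cancel, map_one]; rfl
    rw [h3, hu]
    exact (Submodule.starProjection_apply_mem Kᗮ v) _ (h2 w hw)
  · rw [← map_sub]
    have h4 : v - Kᗮ.starProjection v = K.starProjection v := by
      rw [Submodule.starProjection_orthogonal_val]; abel
    rw [h4]
    exact K.le_orthogonal_orthogonal (h1 _ (Submodule.starProjection_apply_mem _ _))

end unitary

end rep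

lemma map_proj_eq {K M : Submodule ℂ V} (h : K ≤ M) :
    M.map (Kᗮ.starProjection : V →ₗ[ℂ] V) = Kᗮ ⊓ M := by
  ext v
  constructor
  · rintro ⟨w, hw, rfl⟩
    refine ⟨Submodule.starProjection_apply_mem _ _, ?_⟩
    rw [ContinuousLinearMap.coe_coe, Submodule.starProjection_orthogonal_val]
    exact M.sub_mem hw (h (Submodule.starProjection_apply_mem _ _))
  · rintro ⟨h1, h2⟩
    exact ⟨v, h2, Submodule.starProjection_eq_self_iff.2 h1⟩

lemma finrank_map_proj {K M : Submodule ℂ V} (h : K ≤ M) :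
    finrank ℂ K + finrank ℂ (M.map (Kᗮ.starProjection : V →ₗ[ℂ] V)) = finrank ℂ M := by
  rw [map_proj_eq h]
  exact Submodule.finrank_add_inf_finrank_orthogonal h

end partB

section partC
open Module

variable {n : ℕ} {V : Type} [NormedAddCommGroup V] [InnerProductSpace ℂ V] [FiniteDimensional ℂ V]

section rep

variable (ρ : Equiv.Perm (Fin n) →* (V →ₗ[ℂ] V))

/-- projection away from `U O k` -/
noncomputable def Q (O : Finset (Fin n)) (k : ℕ) : V →ₗ[ℂ] V :=
  ((U ρ O k)ᗮ.starProjection : V →ₗ[ℂ] V)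

/-- image of `fixS (O \ R)` -/
noncomputable def W (O : Finset (Fin n)) (k : ℕ) (R : Finset (Fin n)) : Submodule ℂ V :=
  (fixS ρ (O \ R)).map (Q ρ O k)

/-- the Jucys-Murphy type element -/
noncomputable def J (O : Finset (Fin n)) (x : Fin n) : V →ₗ[ℂ] V :=
  ∑ y ∈ O.erase x, ρ (Equiv.swap x y)

lemma Q_mem (O : Finset (Fin n)) (k : ℕ) (v : V) : Q ρ O k v ∈ (U ρ O k)ᗮ :=
  Submodule.starProjection_apply_mem _ _

variable {ρ}
variable (hu : ∀ σ v w, inner ℂ (ρ σ v) (ρ σ w) = inner ℂ v w)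

include hu

lemma Q_perm (O : Finset (Fin n)) (k : ℕ) {σ : Equiv.Perm (Fin n)} (h1 : ∀ z ∈ O, σ⁻¹ z ∈ O)
    (h2 : ∀ z ∈ O, σ z ∈ O) (v : V) : Q ρ O k (ρ σ v) = ρ σ (Q ρ O k v) := by
  unfold Q
  rw [ContinuousLinearMap.coe_coe]
  apply proj_comm ρ hu
  · intro v hv; exact U_map ρ h1 h2 hv
  · intro v hv; exact U_map ρ (by simpa using h2) h1 hv

omit hu [FiniteDimensional ℂ V] in
lemma swap_maps {O : Finset (Fin n)} {x y : Fin n} (hx : x ∈ O) (hy : y ∈ O) :
    ∀ z ∈ O, Equiv.swap x y z ∈ O := by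
  intro z hz
  by_cases h1 : z = x
  · subst h1; rw [Equiv.swap_apply_left]; exact hy
  · by_cases h2 : z = y
    · subst h2; rw [Equiv.swap_apply_right]; exact hx
    · rw [Equiv.swap_apply_of_ne_of_ne h1 h2]; exact hz

lemma Q_swap {O : Finset (Fin n)} {k : ℕ} {x y : Fin n} (hx : x ∈ O) (hy : y ∈ O) (v : V) :
    Q ρ O k (ρ (Equiv.swap x y) v) = ρ (Equiv.swap x y) (Q ρ O k v) :=
  Q_perm hu O k (by rw [Equiv.swap_inv]; exact swap_maps hx hy) (swap_maps hx hy) v

lemma W_mem_fixS {O R : Finset (Fin n)} {k : ℕ} {u : V} (h : u ∈ W ρ O k R) :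
    u ∈ fixS ρ (O \ R) := by
  obtain ⟨f, hf, rfl⟩ := h
  intro σ hσ
  have hσ2 : ∀ z ∈ O, σ z ∈ O := by
    intro z hz
    by_contra hc
    have h1 : σ (σ z) = σ z := hσ _ (fun h => hc (Finset.mem_sdiff.1 h).1)
    have h2 : σ z = z := σ.injective h1
    rw [h2] at hc
    exact hc hz
  have hσ1 : ∀ z ∈ O, σ⁻¹ z ∈ O := by
    intro z hz
    by_contra hc
    have h1 : σ (σ⁻¹ z) = σ⁻¹ z := hσ _ (fun h => hc (Finset.mem_sdiff.1 h).1)
    have h2 : z = σ⁻¹ z := by simpa using h1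
    rw [← h2] at hc
    exact hc hz
  rw [← Q_perm hu O k hσ1 hσ2, hf σ hσ]

lemma W_swap {O R : Finset (Fin n)} {k : ℕ} (hR : R ⊆ O) {x y : Fin n} (hx : x ∈ R) (hy : y ∈ R)
    {u : V} (h : u ∈ W ρ O k R) : ρ (Equiv.swap x y) u ∈ W ρ O k R := by
  obtain ⟨f, hf, rfl⟩ := h
  rw [← Q_swap hu (hR hx) (hR hy)]
  refine ⟨_, fixS_conj ρ _ ?_ hf, rfl⟩
  intro z hz
  rw [Finset.mem_sdiff] at hz
  have hzx : z ≠ x := fun h => hz.2 (h ▸ hx)
  have hzy : z ≠ y := fun h => hz.2 (h ▸ hy)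
  rw [Equiv.swap_inv, Equiv.swap_apply_of_ne_of_ne hzx hzy]
  exact Finset.mem_sdiff.2 hz

lemma key_zero {O R : Finset (Fin n)} {k : ℕ} (hR : R ⊆ O) (hc : R.card = k + 1) {x : Fin n}
    (hx : x ∈ R) {u : V} (h : u ∈ W ρ O k R) :
    u + ∑ y ∈ O \ R, ρ (Equiv.swap x y) u = 0 := by
  have hxO : x ∈ O := hR hx
  have hxD : x ∉ O \ R := fun h => (Finset.mem_sdiff.1 h).2 hx
  have hfix := W_mem_fixS hu h
  set s := u + ∑ y ∈ O \ R, ρ (Equiv.swap x y) u with hs
  have hs' : s = ∑ y ∈ insert x (O \ R), ρ (Equiv.swap x y) u := by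
    rw [Finset.sum_insert hxD, Equiv.swap_self]
    change _ = ρ 1 u + _
    rw [map_one]; rfl
  have hDO : ∀ y ∈ insert x (O \ R), y ∈ O := by
    intro y hy
    rcases Finset.mem_insert.1 hy with rfl | hy
    · exact hxO
    · exact (Finset.mem_sdiff.1 hy).1
  -- s ∈ Kᗮ
  have h1 : s ∈ (U ρ O k)ᗮ := by
    rw [hs']
    apply Submodule.sum_mem
    intro y hy
    obtain ⟨f, hf, rfl⟩ := h
    rw [← Q_swap hu hxO (hDO y hy)]
    exact Q_mem ρ _ _ _
  -- s ∈ K
  have h2 : s ∈ U ρ O k := by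
    have h3 : s ∈ fixS ρ (O \ R.erase x) := by
      intro σ hσ
      have hσD : ∀ z, z ∉ insert x (O \ R) → σ z = z := by
        intro z hz
        apply hσ
        intro hz'
        apply hz
        rw [Finset.mem_sdiff, Finset.mem_erase] at hz'
        rw [Finset.mem_insert, Finset.mem_sdiff]
        tauto
      have hσmap : ∀ z, z ∈ insert x (O \ R) ↔ σ z ∈ insert x (O \ R) := by
        intro z
        constructor
        · intro hz
          by_contra hc
          have h4 : σ z = z := σ.injective (hσD _ hc)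
          rw [h4] at hc
          exact hc hz
        · intro hz
          by_contra hc
          rw [hσD _ hc] at hz
          exact hc hz
      rw [hs', map_sum]
      have hterm : ∀ y ∈ insert x (O \ R),
          ρ σ (ρ (Equiv.swap x y) u) = ρ (Equiv.swap x (σ y)) u := by
        intro y hy
        have hfixed : ρ (Equiv.swap x (σ y) * σ * Equiv.swap x y) u = u := by
          apply hfix
          intro z hz
          by_cases hzx : z = x
          · subst hzx
            simp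
          · have hzD : z ∉ insert x (O \ R) := by
              rw [Finset.mem_insert, not_or]; exact ⟨hzx, hz⟩
            have hzy : z ≠ y := fun h => hzD (h ▸ hy)
            have hzσ : z ≠ σ y := fun h => hzD (h ▸ (hσmap y).1 hy)
            rw [Equiv.Perm.mul_apply, Equiv.Perm.mul_apply,
              Equiv.swap_apply_of_ne_of_ne hzx hzy, hσD z hzD,
              Equiv.swap_apply_of_ne_of_ne hzx hzσ]
        calc ρ σ (ρ (Equiv.swap x y) u)
            = ρ (Equiv.swap x (σ y) * (Equiv.swap x (σ y) * σ * Equiv.swap x y)) u := by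
              rw [← rho_mul]; congr 2
              rw [← mul_assoc, ← mul_assoc, Equiv.swap_mul_self, one_mul]
          _ = _ := by rw [rho_mul, hfixed]
      rw [Finset.sum_congr rfl hterm]
      exact Finset.sum_equiv σ hσmap (fun _ _ => rfl)
    refine (fixS_le_U ρ (R := R.erase x) ((Finset.erase_subset _ _).trans hR) ?_) h3
    rw [Finset.card_erase_of_mem hx, hc]; rfl
  exact inner_self_eq_zero.1 (h1 s h2)

/-- `J x u` for `x ∈ R` -/
lemma J_of_mem {O R : Finset (Fin n)} {k : ℕ} (hR : R ⊆ O) (hc : R.card = k + 1) {x : Fin n}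
    (hx : x ∈ R) {u : V} (h : u ∈ W ρ O k R) :
    J ρ O x u = -u + ∑ y ∈ R.erase x, ρ (Equiv.swap x y) u := by
  have h0 := key_zero hu hR hc hx h
  have hsplit : O.erase x = (O \ R) ∪ R.erase x := by
    ext z
    simp only [Finset.mem_erase, Finset.mem_union, Finset.mem_sdiff]
    constructor
    · rintro ⟨h1, h2⟩
      by_cases hzR : z ∈ R
      · exact Or.inr ⟨h1, hzR⟩
      · exact Or.inl ⟨h2, hzR⟩
    · rintro (⟨h1, h2⟩ | ⟨h1, h2⟩)
      · exact ⟨fun h => h2 (h ▸ hx), h1⟩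
      · exact ⟨h1, hR h2⟩
  have hdisj : Disjoint (O \ R) (R.erase x) := by
    rw [Finset.disjoint_left]
    intro z hz hz'
    exact (Finset.mem_sdiff.1 hz).2 (Finset.mem_of_mem_erase hz')
  unfold J
  rw [LinearMap.sum_apply, hsplit, Finset.sum_union hdisj]
  have h1 : ∑ y ∈ O \ R, ρ (Equiv.swap x y) u = -u := by
    rw [add_comm] at h0
    exact eq_neg_of_add_eq_zero_left h0
  rw [h1]

/-- `J x u` for `x ∉ R` -/
lemma J_of_notMem {O R : Finset (Fin n)} {k : ℕ} (hR : R ⊆ O) {x : Fin n} (hxO : x ∈ O)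
    (hx : x ∉ R) {u : V} (h : u ∈ W ρ O k R) :
    J ρ O x u = ((O.card : ℂ) - R.card - 1) • u + ∑ y ∈ R, ρ (Equiv.swap x y) u := by
  have hfix := W_mem_fixS hu h
  have hsplit : O.erase x = ((O \ R).erase x) ∪ R := by
    ext z
    simp only [Finset.mem_erase, Finset.mem_union, Finset.mem_sdiff]
    constructor
    · rintro ⟨h1, h2⟩
      by_cases hzR : z ∈ R
      · exact Or.inr hzR
      · exact Or.inl ⟨h1, h2, hzR⟩
    · rintro (⟨h1, h2, _⟩ | h1)
      · exact ⟨h1, h2⟩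
      · exact ⟨fun h => hx (h ▸ h1), hR h1⟩
  have hdisj : Disjoint ((O \ R).erase x) R := by
    rw [Finset.disjoint_left]
    intro z hz hz'
    exact (Finset.mem_sdiff.1 (Finset.mem_of_mem_erase hz)).2 hz'
  unfold J
  rw [LinearMap.sum_apply, hsplit, Finset.sum_union hdisj]
  congr 1
  have hxD : x ∈ O \ R := Finset.mem_sdiff.2 ⟨hxO, hx⟩
  have hterm : ∀ y ∈ (O \ R).erase x, ρ (Equiv.swap x y) u = u := by
    intro y hy
    apply hfix
    intro z hz
    exact Equiv.swap_apply_of_ne_of_ne (fun h => hz (h ▸ hxD))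
      (fun h => hz (h ▸ Finset.mem_of_mem_erase hy))
  rw [Finset.sum_congr rfl hterm, Finset.sum_const, Finset.card_erase_of_mem hxD,
    Finset.card_sdiff_of_subset hR, ← Nat.cast_smul_eq_nsmul ℂ]
  congr 1
  have h1 : R.card < O.card := by
    apply Finset.card_lt_card
    rw [Finset.ssubset_iff_of_subset hR]
    exact ⟨x, hxO, hx⟩
  rw [Nat.cast_sub (by omega), Nat.cast_sub h1.le]
  simp

end rep

end partC

section partD
open Module

variable {n : ℕ} {V : Type} [NormedAddCommGroup V] [InnerProductSpace ℂ V] [FiniteDimensional ℂ V]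

section rep

variable {ρ : Equiv.Perm (Fin n) →* (V →ₗ[ℂ] V)}

lemma Ux_le {O : Finset (Fin n)} {k : ℕ} {x : Fin n} (hx : x ∈ O) {S : Submodule ℂ V}
    (h : ∀ R ⊆ O, R.card = k + 1 → x ∈ R → W ρ O k R ≤ S) :
    (U ρ (O.erase x) k).map (Q ρ O k) ≤ S := by
  rw [Submodule.map_le_iff_le_comap]
  apply U_le
  intro R hR hc f hf
  have hxR : x ∉ R := fun h => by simpa using hR h
  apply h (insert x R) (Finset.insert_subset hx (hR.trans (Finset.erase_subset _ _)))
    (by rw [Finset.card_insert_of_notMem hxR, hc]) (Finset.mem_insert_self _ _)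
  refine ⟨f, ?_, rfl⟩
  have : O \ insert x R = O.erase x \ R := by
    ext z
    simp only [Finset.mem_sdiff, Finset.mem_insert, not_or, Finset.mem_erase]
    tauto
  rw [this]; exact hf

lemma V_le {O : Finset (Fin n)} {k : ℕ} {S : Submodule ℂ V}
    (h : ∀ R ⊆ O, R.card = k + 1 → W ρ O k R ≤ S) :
    (U ρ O (k + 1)).map (Q ρ O k) ≤ S := by
  rw [Submodule.map_le_iff_le_comap]
  apply U_le
  intro R hR hc f hf
  exact h R hR hc ⟨f, hf, rfl⟩

lemma W_le_Ux {O R : Finset (Fin n)} {k : ℕ} (hR : R ⊆ O) (hc : R.card = k + 1) {x : Fin n}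
    (hx : x ∈ R) : W ρ O k R ≤ (U ρ (O.erase x) k).map (Q ρ O k) := by
  apply Submodule.map_mono
  have : O \ R = O.erase x \ R.erase x := by
    ext z
    simp only [Finset.mem_sdiff, Finset.mem_erase]
    constructor
    · rintro ⟨h1, h2⟩
      exact ⟨⟨fun h => h2 (h ▸ hx), h1⟩, fun h => h2 h.2⟩
    · rintro ⟨⟨h1, h2⟩, h3⟩
      exact ⟨h2, fun h => h3 ⟨h1, h⟩⟩
  rw [this]
  apply fixS_le_U ρ (Finset.erase_subset_erase _ hR)
  rw [Finset.card_erase_of_mem hx, hc]; rfl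

variable (hu : ∀ σ v w, inner ℂ (ρ σ v) (ρ σ w) = inner ℂ v w)

include hu

lemma swap_mem_Ux {O R : Finset (Fin n)} {k : ℕ} (hR : R ⊆ O) (hc : R.card = k + 1) {x y : Fin n}
    (hxO : x ∈ O) (hx : x ∉ R) (hy : y ∈ R) {u : V} (h : u ∈ W ρ O k R) :
    ρ (Equiv.swap x y) u ∈ (U ρ (O.erase x) k).map (Q ρ O k) := by
  obtain ⟨f, hf, rfl⟩ := h
  rw [← Q_swap hu hxO (hR hy)]
  refine ⟨_, ?_, rfl⟩
  have h1 : ρ (Equiv.swap x y) f ∈ fixS ρ (O.erase x \ R.erase y) := by
    apply fixS_conj ρ _ _ hf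
    intro z hz
    rw [Equiv.swap_inv]
    rw [Finset.mem_sdiff, Finset.mem_erase, Finset.mem_erase] at hz
    obtain ⟨⟨h1, h2⟩, h3⟩ := hz
    by_cases hzy : z = y
    · subst hzy
      rw [Equiv.swap_apply_right]
      exact Finset.mem_sdiff.2 ⟨hxO, hx⟩
    · rw [Equiv.swap_apply_of_ne_of_ne h1 hzy]
      exact Finset.mem_sdiff.2 ⟨h2, fun h => h3 ⟨hzy, h⟩⟩
  refine fixS_le_U ρ (R := R.erase y) ?_ ?_ h1
  · intro z hz
    rw [Finset.mem_erase] at hz ⊢
    exact ⟨fun h => hx (h ▸ hz.2), hR hz.2⟩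
  · rw [Finset.card_erase_of_mem hy, hc]; rfl

lemma J_symm (O : Finset (Fin n)) (x : Fin n) : (J ρ O x).IsSymmetric := by
  intro v w
  unfold J
  rw [LinearMap.sum_apply, LinearMap.sum_apply, sum_inner, inner_sum]
  exact Finset.sum_congr rfl fun y _ => swap_symm ρ hu x y v w

lemma re_inner_le (σ : Equiv.Perm (Fin n)) (u : V) :
    (inner ℂ u (ρ σ u)).re ≤ ‖u‖ ^ 2 := by
  have h := re_inner_le_norm (𝕜 := ℂ) u (ρ σ u)
  rw [norm_rho ρ hu] at h
  calc _ ≤ ‖u‖ * ‖u‖ := h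
    _ = _ := by ring

lemma re_inner_ge (σ : Equiv.Perm (Fin n)) (u : V) :
    -‖u‖ ^ 2 ≤ (inner ℂ u (ρ σ u)).re := by
  have h := re_inner_le_norm (𝕜 := ℂ) u (-(ρ σ u))
  rw [norm_neg, norm_rho ρ hu, inner_neg_right] at h
  have h2 : -(inner ℂ u (ρ σ u)).re ≤ ‖u‖ * ‖u‖ := by
    have : RCLike.re (-(inner ℂ u (ρ σ u))) = -(inner ℂ u (ρ σ u)).re := by simp
    rw [← this]; exact h
  nlinarith

lemma re_inner_self (u : V) : (inner ℂ u u).re = ‖u‖ ^ 2 := by
  rw [inner_self_eq_norm_sq_to_K]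
  norm_cast

lemma J_W_mem {O R : Finset (Fin n)} {k : ℕ} (hR : R ⊆ O) (hc : R.card = k + 1) {x : Fin n}
    (hx : x ∈ R) {u : V} (h : u ∈ W ρ O k R) : J ρ O x u ∈ W ρ O k R := by
  rw [J_of_mem hu hR hc hx h]
  refine Submodule.add_mem _ (Submodule.neg_mem _ h) (Submodule.sum_mem _ ?_)
  intro y hy
  exact W_swap hu hR hx (Finset.mem_of_mem_erase hy) h

lemma J_W_bound {O R : Finset (Fin n)} {k : ℕ} (hR : R ⊆ O) (hc : R.card = k + 1) {x : Fin n}
    (hx : x ∈ R) {u : V} (h : u ∈ W ρ O k R) :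
    (inner ℂ u (J ρ O x u)).re ≤ ((k : ℝ) + 1) * ‖u‖ ^ 2 := by
  rw [J_of_mem hu hR hc hx h, inner_add_right, inner_neg_right, inner_sum, Complex.add_re,
    Complex.neg_re, Complex.re_sum, re_inner_self hu]
  have h1 : ∑ y ∈ R.erase x, (inner ℂ u (ρ (Equiv.swap x y) u)).re
      ≤ ∑ _y ∈ R.erase x, ‖u‖ ^ 2 :=
    Finset.sum_le_sum fun y _ => re_inner_le hu _ u
  rw [Finset.sum_const, Finset.card_erase_of_mem hx, hc, Nat.add_sub_cancel, nsmul_eq_mul] at h1
  nlinarith [sq_nonneg ‖u‖]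

/-- the sum of the `J x` -/
noncomputable def JJ (ρ : Equiv.Perm (Fin n) →* (V →ₗ[ℂ] V)) (O : Finset (Fin n)) : V →ₗ[ℂ] V :=
  ∑ x ∈ O, J ρ O x

lemma JJ_symm (O : Finset (Fin n)) : (JJ ρ O).IsSymmetric := by
  intro v w
  unfold JJ
  rw [LinearMap.sum_apply, LinearMap.sum_apply, sum_inner, inner_sum]
  exact Finset.sum_congr rfl fun y _ => J_symm hu O y v w

lemma JJ_of_mem {O R : Finset (Fin n)} {k : ℕ} (hR : R ⊆ O) (hc : R.card = k + 1)
    {u : V} (h : u ∈ W ρ O k R) :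
    JJ ρ O u = (((O.card : ℂ) - R.card) * ((O.card : ℂ) - R.card - 1) - 2 * R.card) • u
      + ∑ x ∈ R, ∑ y ∈ R.erase x, ρ (Equiv.swap x y) u := by
  unfold JJ
  rw [LinearMap.sum_apply, ← Finset.sum_sdiff hR]
  have h1 : ∑ x ∈ R, J ρ O x u
      = ∑ x ∈ R, (-u + ∑ y ∈ R.erase x, ρ (Equiv.swap x y) u) :=
    Finset.sum_congr rfl fun x hx => J_of_mem hu hR hc hx h
  have h2 : ∑ x ∈ O \ R, J ρ O x u
      = ∑ x ∈ O \ R, (((O.card : ℂ) - R.card - 1) • u + ∑ y ∈ R, ρ (Equiv.swap x y) u) :=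
    Finset.sum_congr rfl fun x hx =>
      J_of_notMem hu hR (Finset.mem_sdiff.1 hx).1 (Finset.mem_sdiff.1 hx).2 h
  have h3 : ∑ x ∈ O \ R, ∑ y ∈ R, ρ (Equiv.swap x y) u = ∑ y ∈ R, -u := by
    rw [Finset.sum_comm]
    refine Finset.sum_congr rfl fun y hy => ?_
    have h0 := key_zero hu hR hc hy h
    rw [add_comm] at h0
    rw [← eq_neg_of_add_eq_zero_left h0]
    refine Finset.sum_congr rfl fun z _ => ?_
    rw [Equiv.swap_comm]
  rw [h1, h2, Finset.sum_add_distrib, Finset.sum_add_distrib, h3, Finset.sum_const,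
    Finset.sum_const, Finset.card_sdiff_of_subset hR, ← Nat.cast_smul_eq_nsmul ℂ,
    ← Nat.cast_smul_eq_nsmul ℂ, Nat.cast_sub (Finset.card_le_card hR), smul_smul]
  module

lemma JJ_W_mem {O R : Finset (Fin n)} {k : ℕ} (hR : R ⊆ O) (hc : R.card = k + 1)
    {u : V} (h : u ∈ W ρ O k R) : JJ ρ O u ∈ W ρ O k R := by
  rw [JJ_of_mem hu hR hc h]
  refine Submodule.add_mem _ (Submodule.smul_mem _ _ h) (Submodule.sum_mem _ ?_)
  intro x hx
  refine Submodule.sum_mem _ ?_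
  intro y hy
  exact W_swap hu hR hx (Finset.mem_of_mem_erase hy) h

lemma JJ_W_bound {O R : Finset (Fin n)} {k : ℕ} (hR : R ⊆ O) (hc : R.card = k + 1)
    {u : V} (h : u ∈ W ρ O k R) :
    (((O.card : ℝ) - (k + 1)) * ((O.card : ℝ) - (k + 1) - 1) - 2 * (k + 1) - (k + 1) * k)
      * ‖u‖ ^ 2 ≤ (inner ℂ u (JJ ρ O u)).re := by
  have hre : ((((O.card : ℂ) - R.card) * ((O.card : ℂ) - R.card - 1) - 2 * R.card)
      * (inner ℂ u u)).re
      = (((O.card : ℝ) - (k + 1)) * ((O.card : ℝ) - (k + 1) - 1) - 2 * (k + 1)) * ‖u‖ ^ 2 := by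
    rw [hc, inner_self_eq_norm_sq_to_K]
    have : (((O.card : ℂ) - ((k + 1 : ℕ) : ℂ)) * ((O.card : ℂ) - ((k + 1 : ℕ) : ℂ) - 1)
        - 2 * ((k + 1 : ℕ) : ℂ)) * ((‖u‖ : ℝ) : ℂ) ^ 2
        = (((((O.card : ℝ) - (k + 1)) * ((O.card : ℝ) - (k + 1) - 1) - 2 * (k + 1))
          * ‖u‖ ^ 2 : ℝ) : ℂ) := by
      push_cast; ring
    exact (congrArg Complex.re this).trans (Complex.ofReal_re _)
  rw [JJ_of_mem hu hR hc h, inner_add_right, inner_smul_right, inner_sum, Complex.add_re, hre,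
    Complex.re_sum]
  have h1 : ∑ x ∈ R, -((k : ℝ) * ‖u‖ ^ 2)
      ≤ ∑ x ∈ R, (inner ℂ u (∑ y ∈ R.erase x, ρ (Equiv.swap x y) u)).re := by
    refine Finset.sum_le_sum fun x hx => ?_
    rw [inner_sum, Complex.re_sum]
    have h2 : ∑ _y ∈ R.erase x, -‖u‖ ^ 2
        ≤ ∑ y ∈ R.erase x, (inner ℂ u (ρ (Equiv.swap x y) u)).re :=
      Finset.sum_le_sum fun y _ => re_inner_ge hu _ u
    rw [Finset.sum_const, Finset.card_erase_of_mem hx, hc, Nat.add_sub_cancel,
      nsmul_eq_mul] at h2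
    linarith
  rw [Finset.sum_const, hc, nsmul_eq_mul] at h1
  push_cast at h1
  linarith

lemma J_V_sub {O : Finset (Fin n)} {k : ℕ} {x : Fin n} (hxO : x ∈ O) {v : V}
    (hv : v ∈ (U ρ O (k + 1)).map (Q ρ O k)) :
    J ρ O x v - ((O.card : ℂ) - (k + 1) - 1) • v ∈ (U ρ (O.erase x) k).map (Q ρ O k) := by
  have : (U ρ O (k + 1)).map (Q ρ O k) ≤ ((U ρ (O.erase x) k).map (Q ρ O k)).comap
      (J ρ O x - ((O.card : ℂ) - (k + 1) - 1) • LinearMap.id) := by
    apply V_le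
    intro R hR hc u h
    rw [Submodule.mem_comap, LinearMap.sub_apply, LinearMap.smul_apply, LinearMap.id_apply]
    by_cases hx : x ∈ R
    · have hW := W_le_Ux (ρ := ρ) hR hc hx
      exact Submodule.sub_mem _ (hW (J_W_mem hu hR hc hx h)) (Submodule.smul_mem _ _ (hW h))
    · rw [J_of_notMem hu hR hxO hx h, hc]
      push_cast
      rw [add_sub_cancel_left]
      exact Submodule.sum_mem _ fun y hy => swap_mem_Ux hu hR hc hxO hx hy h
  exact this hv

lemma J_V_mem {O : Finset (Fin n)} {k : ℕ} {x : Fin n} (hxO : x ∈ O) {v : V}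
    (hv : v ∈ (U ρ O (k + 1)).map (Q ρ O k)) :
    J ρ O x v ∈ (U ρ O (k + 1)).map (Q ρ O k) := by
  obtain ⟨f, hf, rfl⟩ := hv
  unfold J
  rw [LinearMap.sum_apply]
  refine Submodule.sum_mem _ fun y hy => ?_
  rw [← Q_swap hu hxO (Finset.mem_of_mem_erase hy)]
  exact ⟨_, U_swap ρ hxO (Finset.mem_of_mem_erase hy) hf, rfl⟩

lemma J_Ux_mem {O : Finset (Fin n)} {k : ℕ} {x : Fin n} (hxO : x ∈ O) {v : V}
    (hv : v ∈ (U ρ (O.erase x) k).map (Q ρ O k)) :
    J ρ O x v ∈ (U ρ (O.erase x) k).map (Q ρ O k) := by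
  have : (U ρ (O.erase x) k).map (Q ρ O k) ≤ ((U ρ (O.erase x) k).map (Q ρ O k)).comap
      (J ρ O x) := by
    apply Ux_le hxO
    intro R hR hc hx u h
    exact W_le_Ux hR hc hx (J_W_mem hu hR hc hx h)
  exact this hv

/-- inequality (D) -/
theorem D_ineq (O : Finset (Fin n)) (k : ℕ) (h : k + 1 ≤ O.card) :
    ((O.card : ℝ) - 2 * (k + 1) - 1) *
      ∑ x ∈ O, ((finrank ℂ (U ρ (O.erase x) k) : ℝ) - finrank ℂ (U ρ O k))
      ≤ ((k : ℝ) + 1) * O.card * ((finrank ℂ (U ρ O (k + 1)) : ℝ) - finrank ℂ (U ρ O k)) := by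
  set V' := (U ρ O (k + 1)).map (Q ρ O k) with hV'
  have hd : (finrank ℂ V' : ℝ) = (finrank ℂ (U ρ O (k + 1)) : ℝ) - finrank ℂ (U ρ O k) := by
    have := finrank_map_proj (U_mono ρ h)
    rw [hV']; unfold Q
    rw [← this]; push_cast; ring
  have hdx : ∀ x ∈ O, ((finrank ℂ ((U ρ (O.erase x) k).map (Q ρ O k)) : ℕ) : ℝ)
      = (finrank ℂ (U ρ (O.erase x) k) : ℝ) - finrank ℂ (U ρ O k) := by
    intro x hx
    have := finrank_map_proj (U_le_erase ρ (x := x) h)
    unfold Q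
    rw [← this]; push_cast; ring
  rw [← hd, Finset.sum_congr rfl fun x hx => (hdx x hx).symm]
  -- lower bound
  have hlow := ctr_ge_of_sup (JJ_symm hu O) {W' | ∃ R ⊆ O, R.card = k + 1 ∧ W' = W ρ O k R}
    V' (((O.card : ℝ) - (k + 1)) * ((O.card : ℝ) - (k + 1) - 1) - 2 * (k + 1) - (k + 1) * k)
    (by
      intro v hv hW
      have h1 : V' ≤ (Submodule.span ℂ {v})ᗮ := by
        apply V_le
        intro R hR hc u hu'
        rw [Submodule.mem_orthogonal_singleton_iff_inner_left]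
        exact hW _ ⟨R, hR, hc, rfl⟩ u hu'
      have h2 := h1 hv
      rw [Submodule.mem_orthogonal_singleton_iff_inner_left] at h2
      exact inner_self_eq_zero.1 h2)
    (by
      intro v hv
      unfold JJ
      rw [LinearMap.sum_apply]
      exact Submodule.sum_mem _ fun x hx => J_V_mem hu hx hv)
    (by
      rintro _ ⟨R, hR, hc, rfl⟩ w hw
      exact JJ_W_mem hu hR hc hw)
    (by
      rintro _ ⟨R, hR, hc, rfl⟩ w hw
      exact JJ_W_bound hu hR hc hw)
  -- upper bound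
  have hup : ∀ x ∈ O, ctr V' (J ρ O x) ≤ ((k : ℝ) + 1)
        * finrank ℂ ((U ρ (O.erase x) k).map (Q ρ O k))
      + ((O.card : ℝ) - (k + 1) - 1) * ((finrank ℂ V' : ℝ)
        - finrank ℂ ((U ρ (O.erase x) k).map (Q ρ O k))) := by
    intro x hx
    have hle : (U ρ (O.erase x) k).map (Q ρ O k) ≤ V' := Submodule.map_mono (U_erase_le ρ hx)
    rw [ctr_add_orth hle]
    refine add_le_add ?_ ?_
    · refine ctr_le_of_sup (J_symm hu O x)
        {W' | ∃ R ⊆ O, R.card = k + 1 ∧ x ∈ R ∧ W' = W ρ O k R} _ _ ?_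
        (fun v hv => J_Ux_mem hu hx hv) ?_ ?_
      · intro v hv hW
        have h1 : (U ρ (O.erase x) k).map (Q ρ O k) ≤ (Submodule.span ℂ {v})ᗮ := by
          apply Ux_le hx
          intro R hR hc hxR u hu'
          rw [Submodule.mem_orthogonal_singleton_iff_inner_left]
          exact hW _ ⟨R, hR, hc, hxR, rfl⟩ u hu'
        have h2 := h1 hv
        rw [Submodule.mem_orthogonal_singleton_iff_inner_left] at h2
        exact inner_self_eq_zero.1 h2
      · rintro _ ⟨R, hR, hc, hxR, rfl⟩ w hw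
        exact J_W_mem hu hR hc hxR hw
      · rintro _ ⟨R, hR, hc, hxR, rfl⟩ w hw
        exact J_W_bound hu hR hc hxR hw
    · have hfr := Submodule.finrank_add_inf_finrank_orthogonal hle
      have hfr' : (finrank ℂ V' : ℝ) - finrank ℂ ((U ρ (O.erase x) k).map (Q ρ O k))
          = (finrank ℂ ((((U ρ (O.erase x) k).map (Q ρ O k))ᗮ ⊓ V' : Submodule ℂ V)) : ℝ) := by
        rw [← hfr]; push_cast; ring
      rw [hfr']
      apply ctr_le
      rintro v ⟨hv1, hv2⟩
      have h1 := J_V_sub hu hx hv2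
      have h2 := hv1 _ h1
      have h3 : inner ℂ v (J ρ O x v - ((O.card : ℂ) - (k + 1) - 1) • v) = 0 :=
        inner_eq_zero_symm.1 h2
      rw [inner_sub_right, inner_smul_right, sub_eq_zero] at h3
      rw [h3, inner_self_eq_norm_sq_to_K]
      have h4 : ((O.card : ℂ) - (k + 1) - 1) * ((‖v‖ : ℝ) : ℂ) ^ 2
          = ((((O.card : ℝ) - (k + 1) - 1) * ‖v‖ ^ 2 : ℝ) : ℂ) := by push_cast; ring
      exact ((congrArg Complex.re h4).trans (Complex.ofReal_re _)).le
  have htot : ctr V' (JJ ρ O) = ∑ x ∈ O, ctr V' (J ρ O x) := by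
    unfold JJ; exact ctr_sum O V' _
  have hsum := Finset.sum_le_sum hup
  rw [← htot, Finset.sum_add_distrib, ← Finset.mul_sum, ← Finset.mul_sum,
    Finset.sum_sub_distrib, Finset.sum_const, nsmul_eq_mul] at hsum
  set D := (finrank ℂ V' : ℝ)
  set Sx := ∑ x ∈ O, (finrank ℂ ((U ρ (O.erase x) k).map (Q ρ O k)) : ℝ)
  nlinarith [hlow, hsum]

end rep

end partD

section partE
open Module

variable {n : ℕ} {V : Type} [NormedAddCommGroup V] [InnerProductSpace ℂ V] [FiniteDimensional ℂ V]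

lemma pow_aux (a y : ℝ) (ha : 0 ≤ a) (hy : 0 ≤ y) (m : ℕ) :
    a ^ (m + 1) + (m + 1) * a ^ m * y ≤ (a + y) ^ (m + 1) := by
  induction m with
  | zero => simp
  | succ m ih =>
    have h1 : (a ^ (m + 1) + (m + 1) * a ^ m * y) * (a + y) ≤ (a + y) ^ (m + 1) * (a + y) :=
      mul_le_mul_of_nonneg_right ih (by positivity)
    have h2 : (a ^ (m + 1) + (m + 1) * a ^ m * y) * (a + y)
        = a ^ (m + 1 + 1) + ((m : ℝ) + 1 + 1) * a ^ (m + 1) * y + (m + 1) * a ^ m * y ^ 2 := by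
      ring
    have h3 : 0 ≤ ((m : ℝ) + 1) * a ^ m * y ^ 2 := by positivity
    rw [pow_succ (a + y) (m + 1)]
    push_cast
    linarith

lemma pot_step (lam : ℕ) (u u' : ℕ → ℝ) (b x' : ℝ) (hx' : 0 ≤ x') (hx1 : x' ≤ 1) (hb : 0 ≤ b)
    (hmono : ∀ k < lam, u k ≤ u (k + 1))
    (hstep : ∀ k < lam, u' k ≤ u k + (k + 1) * b * (u (k + 1) - u k)) (m : ℕ) (hm : m ≤ lam) :
    ∑ l ∈ Finset.range m, (x' ^ l - x' ^ (l + 1)) * u' l + x' ^ m * u m
      ≤ ∑ l ∈ Finset.range m,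
          ((x' + b * (1 - x')) ^ l - (x' + b * (1 - x')) ^ (l + 1)) * u l
        + (x' + b * (1 - x')) ^ m * u m := by
  induction m with
  | zero => simp
  | succ m ih =>
    have ih' := ih (by omega)
    rw [Finset.sum_range_succ, Finset.sum_range_succ]
    set x := x' + b * (1 - x') with hx
    have h1 := hstep m (by omega)
    have h2 := hmono m (by omega)
    have h3 := pow_aux x' (b * (1 - x')) hx' (mul_nonneg hb (by linarith)) m
    rw [← hx] at h3
    have h4 : 0 ≤ x' ^ m - x' ^ (m + 1) := by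
      rw [pow_succ]; nlinarith [pow_nonneg hx' m]
    have h5 : (x' ^ m - x' ^ (m + 1)) * u' m
        ≤ (x' ^ m - x' ^ (m + 1)) * (u m + (m + 1) * b * (u (m + 1) - u m)) :=
      mul_le_mul_of_nonneg_left h1 h4
    have h6 : (x' ^ (m + 1) + (m + 1) * x' ^ m * (b * (1 - x'))) * (u (m + 1) - u m)
        ≤ x ^ (m + 1) * (u (m + 1) - u m) :=
      mul_le_mul_of_nonneg_right h3 (by linarith)
    have h7 : x' ^ (m + 1) = x' ^ m * x' := pow_succ _ _
    have h8 : (x' ^ m - x' ^ (m + 1)) * (u m + (m + 1) * b * (u (m + 1) - u m))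
        = (x' ^ m - x' ^ (m + 1)) * u m
          + ((m : ℝ) + 1) * x' ^ m * (b * (1 - x')) * (u (m + 1) - u m) := by
      rw [h7]; ring
    linarith

lemma final_sum (x D : ℝ) (hx : 0 ≤ x) (hx1 : x ≤ 1) (u : ℕ → ℝ) (r : ℕ)
    (h0 : ∀ l ≤ r, u l = 0) (hD : ∀ l, u l ≤ D) (lam : ℕ) (h : r + 1 ≤ lam) :
    ∑ l ∈ Finset.range lam, (x ^ l - x ^ (l + 1)) * u l + x ^ lam * D ≤ x ^ (r + 1) * D := by
  induction lam, h using Nat.le_induction with
  | base =>
    have : ∑ l ∈ Finset.range (r + 1), (x ^ l - x ^ (l + 1)) * u l = 0 := by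
      apply Finset.sum_eq_zero
      intro l hl
      rw [h0 l (by simpa [Nat.lt_succ_iff] using hl), mul_zero]
    rw [this, zero_add]
  | succ m hm ih =>
    rw [Finset.sum_range_succ]
    have h4 : 0 ≤ x ^ m - x ^ (m + 1) := by
      rw [pow_succ]; nlinarith [pow_nonneg hx m]
    have := mul_le_mul_of_nonneg_left (hD m) h4
    linarith

section rep

variable {ρ : Equiv.Perm (Fin n) →* (V →ₗ[ℂ] V)}
variable (hu : ∀ σ v w, inner ℂ (ρ σ v) (ρ σ w) = inner ℂ v w)

include hu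

lemma step_ineq {O : Finset (Fin n)} {x : Fin n} (hx : x ∈ O) {lam k : ℕ} (hk : k < lam)
    (h : 2 * lam + 1 < O.card) :
    (finrank ℂ (U ρ (O.erase x) k) : ℝ) ≤ finrank ℂ (U ρ O k)
      + (k + 1) * (1 / ((O.card : ℝ) - 2 * lam - 1))
        * ((finrank ℂ (U ρ O (k + 1)) : ℝ) - finrank ℂ (U ρ O k)) := by
  have hD := D_ineq hu O k (by omega)
  have hmono : (finrank ℂ (U ρ O k) : ℝ) ≤ finrank ℂ (U ρ O (k + 1)) := by
    exact_mod_cast Submodule.finrank_mono (U_mono ρ (by omega))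
  have hmono2 : (finrank ℂ (U ρ O k) : ℝ) ≤ finrank ℂ (U ρ (O.erase x) k) := by
    exact_mod_cast Submodule.finrank_mono (U_le_erase ρ (x := x) (by omega))
  have hsum : (O.card : ℝ) * ((finrank ℂ (U ρ (O.erase x) k) : ℝ) - finrank ℂ (U ρ O k))
      ≤ ∑ y ∈ O, ((finrank ℂ (U ρ (O.erase y) k) : ℝ) - finrank ℂ (U ρ O k)) := by
    rw [← nsmul_eq_mul, ← Finset.sum_const]
    refine Finset.sum_le_sum fun y hy => ?_
    have : (finrank ℂ (U ρ (O.erase x) k) : ℝ) ≤ finrank ℂ (U ρ (O.erase y) k) := by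
      exact_mod_cast finrank_U_erase_le ρ hx hy
    linarith
  set e := (finrank ℂ (U ρ (O.erase x) k) : ℝ) - finrank ℂ (U ρ O k) with he
  set a := (finrank ℂ (U ρ O (k + 1)) : ℝ) - finrank ℂ (U ρ O k) with ha
  have hcard : (2 * lam + 1 : ℝ) < O.card := by exact_mod_cast h
  have hkl : (k : ℝ) + 1 ≤ lam := by exact_mod_cast hk
  have hpos : 0 < (O.card : ℝ) - 2 * lam - 1 := by linarith
  have hpos2 : 0 < (O.card : ℝ) - 2 * (k + 1) - 1 := by linarith
  have hO : 0 < (O.card : ℝ) := by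
    have : (0 : ℝ) ≤ 2 * lam + 1 := by positivity
    linarith
  have h1 : ((O.card : ℝ) - 2 * (k + 1) - 1) * ((O.card : ℝ) * e) ≤ (k + 1) * O.card * a :=
    (mul_le_mul_of_nonneg_left hsum hpos2.le).trans hD
  have h2 : ((O.card : ℝ) - 2 * (k + 1) - 1) * e ≤ (k + 1) * a := by
    have h3 : (O.card : ℝ) * (((O.card : ℝ) - 2 * (k + 1) - 1) * e)
        ≤ (O.card : ℝ) * ((k + 1) * a) := by linarith
    exact le_of_mul_le_mul_left h3 hO
  have he0 : 0 ≤ e := by linarith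
  have h4 : ((O.card : ℝ) - 2 * lam - 1) * e ≤ (k + 1) * a :=
    (mul_le_mul_of_nonneg_right (by linarith) he0).trans h2
  have h5 : e ≤ (k + 1) * (1 / ((O.card : ℝ) - 2 * lam - 1)) * a := by
    have : (k + 1) * (1 / ((O.card : ℝ) - 2 * lam - 1)) * a
        = ((k + 1) * a) / ((O.card : ℝ) - 2 * lam - 1) := by ring
    rw [this, le_div_iff₀ hpos]
    linarith
  linarith

/-- the potential -/
noncomputable def Phi (ρ : Equiv.Perm (Fin n) →* (V →ₗ[ℂ] V)) (lam t : ℕ)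
    (O : Finset (Fin n)) : ℝ :=
  ∑ l ∈ Finset.range lam,
    ((1 - ((t : ℝ) - 2 * lam - 1) / ((O.card : ℝ) - 2 * lam - 1)) ^ l
      - (1 - ((t : ℝ) - 2 * lam - 1) / ((O.card : ℝ) - 2 * lam - 1)) ^ (l + 1))
      * finrank ℂ (U ρ O l)
    + (1 - ((t : ℝ) - 2 * lam - 1) / ((O.card : ℝ) - 2 * lam - 1)) ^ lam * finrank ℂ V

lemma Phi_step {O : Finset (Fin n)} {x : Fin n} (hx : x ∈ O) {lam t : ℕ}
    (ht : 2 * lam + 1 < t) (h : t < O.card) : Phi ρ lam t (O.erase x) ≤ Phi ρ lam t O := by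
  have hcard' : (O.erase x).card = O.card - 1 := Finset.card_erase_of_mem hx
  have hcast : ((O.erase x).card : ℝ) = (O.card : ℝ) - 1 := by
    rw [hcard', Nat.cast_sub (by omega)]; simp
  have ht' : (2 * lam + 1 : ℝ) < t := by exact_mod_cast ht
  have h' : (t : ℝ) + 1 ≤ O.card := by exact_mod_cast h
  set x' : ℝ := 1 - ((t : ℝ) - 2 * lam - 1) / (((O.erase x).card : ℝ) - 2 * lam - 1) with hx'
  set b : ℝ := 1 / ((O.card : ℝ) - 2 * lam - 1) with hb
  have hpos : 0 < (O.card : ℝ) - 2 * lam - 1 := by linarith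
  have hpos' : 0 < ((O.erase x).card : ℝ) - 2 * lam - 1 := by rw [hcast]; linarith
  have hrec : 1 - ((t : ℝ) - 2 * lam - 1) / ((O.card : ℝ) - 2 * lam - 1)
      = x' + b * (1 - x') := by
    rw [hx', hb, hcast]
    rw [hcast] at hpos'
    field_simp
    ring
  have hx0 : 0 ≤ x' := by
    rw [hx', sub_nonneg, div_le_one hpos', hcast]; linarith
  have hx1 : x' ≤ 1 := by
    rw [hx']
    have : 0 ≤ ((t : ℝ) - 2 * lam - 1) / (((O.erase x).card : ℝ) - 2 * lam - 1) :=
      div_nonneg (by linarith) hpos'.le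
    linarith
  have hb0 : 0 ≤ b := by rw [hb]; positivity
  have key := pot_step lam (fun l => (finrank ℂ (U ρ O l) : ℝ))
    (fun l => (finrank ℂ (U ρ (O.erase x) l) : ℝ)) b x' hx0 hx1 hb0
    (fun k hk => by
      have h3 := Submodule.finrank_mono (U_mono ρ (O := O) (l := k) (by omega))
      show (finrank ℂ (U ρ O k) : ℝ) ≤ finrank ℂ (U ρ O (k + 1))
      exact_mod_cast h3)
    (fun k hk => step_ineq hu hx hk (by omega)) lam (le_refl _)
  unfold Phi
  rw [← hx', hrec]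
  have hle : x' ≤ x' + b * (1 - x') := by nlinarith
  have hpw : x' ^ lam ≤ (x' + b * (1 - x')) ^ lam := pow_le_pow_left₀ hx0 hle lam
  have hfin : (finrank ℂ (U ρ O lam) : ℝ) ≤ finrank ℂ V := by
    exact_mod_cast Submodule.finrank_le _
  have := mul_le_mul_of_nonneg_right hpw (sub_nonneg.2 hfin)
  linarith

lemma Phi_le {T O : Finset (Fin n)} (hTO : T ⊆ O) {lam : ℕ} (hT : 2 * lam + 1 < T.card) :
    Phi ρ lam T.card T ≤ Phi ρ lam T.card O := by
  obtain ⟨d, hd⟩ : ∃ d, O.card = T.card + d :=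
    ⟨O.card - T.card, by have := Finset.card_le_card hTO; omega⟩
  induction d generalizing O with
  | zero =>
    have : T = O := Finset.eq_of_subset_of_card_le hTO (by omega)
    rw [this]
  | succ d ih =>
    obtain ⟨x, hx, hxT⟩ := Finset.exists_mem_notMem_of_card_lt_card (by omega : T.card < O.card)
    have hsub : T ⊆ O.erase x := Finset.subset_erase.2 ⟨hTO, hxT⟩
    have hc : (O.erase x).card = T.card + d := by
      rw [Finset.card_erase_of_mem hx]; omega
    exact (ih hsub hc).trans (Phi_step hu hx hT (by omega))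

end rep

theorem finrank_fixS_le (ρ : Equiv.Perm (Fin n) →* (V →ₗ[ℂ] V))
    (hu : ∀ σ v w, inner ℂ (ρ σ v) (ρ σ w) = inner ℂ v w)
    (r lam : ℕ)
    (hr : ∀ C : Finset (Fin n), C.card + r = n → fixS ρ C = ⊥) (hrl : r + 1 ≤ lam)
    (T : Finset (Fin n)) (hT : 2 * lam + 1 < T.card) :
    (finrank ℂ (fixS ρ T) : ℝ) ≤
      (1 - ((T.card : ℝ) - 2 * lam - 1) / ((n : ℝ) - 2 * lam - 1)) ^ (r + 1) * finrank ℂ V := by
  have hTn : T.card ≤ n := by simpa using Finset.card_le_univ T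
  have hT' : (2 * lam + 1 : ℝ) < T.card := by exact_mod_cast hT
  have hTn' : (T.card : ℝ) ≤ n := by exact_mod_cast hTn
  have h1 := Phi_le hu (Finset.subset_univ T) hT
  -- left
  have h2 : (finrank ℂ (fixS ρ T) : ℝ) ≤ Phi ρ lam T.card T := by
    have h3 : Phi ρ lam T.card T = finrank ℂ (U ρ T 0) := by
      unfold Phi
      rw [div_self (by linarith), sub_self]
      obtain ⟨m, rfl⟩ : ∃ m, lam = m + 1 := ⟨lam - 1, by omega⟩
      rw [Finset.sum_range_succ']
      simp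
    rw [h3]
    have h4 := Submodule.finrank_mono
      (fixS_le_U ρ (O := T) (R := ∅) (l := 0) (Finset.empty_subset _) rfl)
    rw [Finset.sdiff_empty] at h4
    exact_mod_cast h4
  -- right
  have h5 : Phi ρ lam T.card Finset.univ ≤
      (1 - ((T.card : ℝ) - 2 * lam - 1) / ((n : ℝ) - 2 * lam - 1)) ^ (r + 1) * finrank ℂ V := by
    unfold Phi
    have hcu : ((Finset.univ : Finset (Fin n)).card : ℝ) = n := by simp
    rw [hcu]
    have hpos : 0 < (n : ℝ) - 2 * lam - 1 := by linarith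
    apply final_sum _ _ _ _ (fun l => (finrank ℂ (U ρ Finset.univ l) : ℝ)) r _ _ lam hrl
    · rw [sub_nonneg, div_le_one hpos]; linarith
    · have : 0 ≤ ((T.card : ℝ) - 2 * lam - 1) / ((n : ℝ) - 2 * lam - 1) :=
        div_nonneg (by linarith) hpos.le
      linarith
    · intro l hl
      have h6 : U ρ (Finset.univ : Finset (Fin n)) l = ⊥ := by
        rw [eq_bot_iff]
        apply U_le
        intro R _ hc
        have hcard : (Finset.univ \ R).card = n - l := by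
          rw [Finset.card_sdiff_of_subset (Finset.subset_univ _), hc]; simp
        obtain ⟨C, hC, hCc⟩ := Finset.exists_subset_card_eq
          (show n - r ≤ (Finset.univ \ R).card by omega)
        exact (fixS_anti ρ hC).trans (hr C (by omega)).le
      simp [h6]
    · intro l
      have h7 := Submodule.finrank_le (U ρ (Finset.univ : Finset (Fin n)) l)
      show (finrank ℂ (U ρ Finset.univ l) : ℝ) ≤ finrank ℂ V
      exact_mod_cast h7
  linarith

end partE

end Pool.Agent.Helper17.RelDim
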