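import Mathlib
import Pool.Agent.Helper62.AC.Defs

open Set Topology Filter TopologicalSpace

noncomputable section
namespace Pool.Agent.Helper17.ACW
open Pool.Agent.Helper62.AC

/-- offset of block `i` -/
def a (i : ℕ) : ℝ := 1 - (1/2)^i
/-- scale of block `i` -/
def s (i : ℕ) : ℝ := (1/2)^(i+1)
/-- half-width of tent `n` -/
def h (n : ℕ) : ℝ := (1/2)^(n+3)
/-- centre of tent `n` -/
def c (n : ℕ) : ℝ := 1/2 - 3 * h n

theorem s_pos (i : ℕ) : 0 < s i := by unfold s; positivity
theorem h_pos (i : ℕ) : 0 < h i := by unfold h; positivity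
theorem a_zero : a 0 = 0 := by simp [a]
theorem a_succ (i : ℕ) : a (i+1) = a i + s i := by
  unfold a s; ring
theorem a_add (i : ℕ) : a i + 2 * s i = 1 := by
  unfold a s; ring
theorem a_mono {i j : ℕ} (hij : i ≤ j) : a i ≤ a j := by
  unfold a
  have : (1/2 : ℝ)^j ≤ (1/2)^i := pow_le_pow_of_le_one (by norm_num) (by norm_num) hij
  linarith
theorem a_nonneg (i : ℕ) : 0 ≤ a i := by
  have := a_mono (Nat.zero_le i); rwa [a_zero] at this
theorem a_lt_one (i : ℕ) : a i < 1 := by
  have := a_add i; have := s_pos i; linarith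
theorem a_eq_zero {i : ℕ} (hi : a i = 0) : i = 0 := by
  by_contra h0
  have h1 : 1 ≤ i := by omega
  have h2 := a_mono h1
  rw [hi] at h2
  have : a 1 = 1/2 := by norm_num [a]
  linarith
theorem tendsto_a : Tendsto a atTop (𝓝 1) := by
  have : Tendsto (fun i : ℕ => (1 : ℝ) - (1/2)^i) atTop (𝓝 (1 - 0)) :=
    tendsto_const_nhds.sub (tendsto_pow_atTop_nhds_zero_of_lt_one (by norm_num) (by norm_num))
  rw [sub_zero] at this
  exact this
theorem s_le (i : ℕ) : s i ≤ 1/2 := by
  have := a_add i; have := a_nonneg i; linarith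
theorem h_succ (n : ℕ) : h (n+1) = h n / 2 := by unfold h; ring
theorem h_anti {m n : ℕ} (hmn : m ≤ n) : h n ≤ h m := by
  unfold h
  exact pow_le_pow_of_le_one (by norm_num) (by norm_num) (by omega)
theorem h_lt {m n : ℕ} (hmn : m < n) : 2 * h n ≤ h m := by
  have := h_anti (Nat.succ_le_of_lt hmn)
  rw [Nat.succ_eq_add_one, h_succ] at this
  linarith
theorem h_le (n : ℕ) : h n ≤ 1/8 := by
  have := h_anti (Nat.zero_le n)
  have h0 : h 0 = 1/8 := by norm_num [h]
  linarith
theorem h_eq {n : ℕ} (hn : h n = 1/8) : n = 0 := by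
  by_contra h0
  have h1 : 0 < n := by omega
  have h2 := h_lt h1
  have h0 : h 0 = 1/8 := by norm_num [h]
  have := h_le n
  linarith
theorem tendsto_h : Tendsto h atTop (𝓝 0) := by
  have : Tendsto (fun i : ℕ => (1/2 : ℝ)^i) atTop (𝓝 0) :=
    tendsto_pow_atTop_nhds_zero_of_lt_one (by norm_num) (by norm_num)
  exact this.comp (tendsto_add_atTop_nat 3)

/-- pieces independent of the parameter -/
def Cp (i : ℕ) (t : ℝ) : ℝ × ℝ :=
  (a i + s i * (1/2 + max (2*t-1) 0 / 2), s i * (min (2*t) 1 - max (2*t-1) 0))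

/-- tents -/
def Dp (i n : ℕ) (β t : ℝ) : ℝ × ℝ :=
  (a i + s i * (c n + (2*t-1) * h n), s i * (β * (1 - |2*t-1|)))

def bv (b : Bool) : ℝ := if b then 1 else 0

/-- the fixed compact set -/
def C : Set (ℝ × ℝ) := {(1, 0)} ∪ ⋃ i, range fun t : unitInterval => Cp i t

theorem Cp_bounds (i : ℕ) {t : ℝ} (h0 : 0 ≤ t) (h1 : t ≤ 1) :
    a i + s i / 2 ≤ (Cp i t).1 ∧ (Cp i t).1 ≤ a i + s i ∧ 0 ≤ (Cp i t).2 ∧ (Cp i t).2 ≤ s i := by
  have hs := s_pos i
  have h2 : 0 ≤ max (2*t-1) 0 := le_max_right _ _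
  have h3 : max (2*t-1) 0 ≤ 1 := max_le (by linarith) (by norm_num)
  have h4 : min (2*t) 1 ≤ 1 := min_le_right _ _
  have h5 : max (2*t-1) 0 ≤ min (2*t) 1 := by
    apply max_le <;> apply le_min <;> linarith
  refine ⟨?_, ?_, ?_, ?_⟩ <;> simp only [Cp] <;> nlinarith

theorem Dp_bounds (i n : ℕ) {t : ℝ} (h0 : 0 ≤ t) (h1 : t ≤ 1) {β : ℝ} (hβ0 : 0 ≤ β) (hβ1 : β ≤ 1) :
    a i + s i * (1/2 - 4 * h n) ≤ (Dp i n β t).1 ∧ (Dp i n β t).1 ≤ a i + s i * (1/2 - 2 * h n) ∧
      0 ≤ (Dp i n β t).2 ∧ (Dp i n β t).2 ≤ s i := by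
  have hs := s_pos i
  have hh := h_pos n
  have h2 : |2*t-1| ≤ 1 := abs_le.2 ⟨by linarith, by linarith⟩
  have h2' : 0 ≤ |2*t-1| := abs_nonneg _
  have h3 : β * (1 - |2*t-1|) ≤ 1 := by nlinarith
  have h4 : 0 ≤ β * (1 - |2*t-1|) := mul_nonneg hβ0 (by linarith)
  refine ⟨?_, ?_, ?_, ?_⟩ <;> simp only [Dp, c]
  · have : -h n ≤ (2*t-1) * h n := by nlinarith
    nlinarith
  · have : (2*t-1) * h n ≤ h n := by nlinarith
    nlinarith
  · positivity
  · nlinarith

theorem bv_nonneg (b : Bool) : 0 ≤ bv b := by cases b <;> simp [bv]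
theorem bv_le (b : Bool) : bv b ≤ 1 := by cases b <;> simp [bv]

theorem isCompact_C (hG1 : StmtG1) : IsCompact C := by
  obtain ⟨K, -, hK⟩ := hG1 Unit ℕ (ℝ × ℝ) {(1, 0)} isCompact_singleton (singleton_nonempty _)
    (fun i _ t => Cp i t) (fun i => by unfold Cp; fun_prop) (fun i => (1/2)^i)
    (by rw [Nat.cofinite_eq_atTop]
        exact tendsto_pow_atTop_nhds_zero_of_lt_one (by norm_num) (by norm_num))
    (fun i _ t => ⟨(1, 0), rfl, by
      have hb := Cp_bounds i t.2.1 t.2.2
      have ha := a_add i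
      have hs := s_pos i
      have h1 : (1/2 : ℝ)^i = 2 * s i := by unfold s; ring
      rw [Prod.dist_eq, Real.dist_eq, Real.dist_eq, h1]
      apply max_le
      · rw [abs_le]; constructor <;> linarith
      · rw [abs_le]; constructor <;> linarith⟩)
  have h1 := (K ()).isCompact
  rw [hK] at h1
  exact h1

theorem exists_K (hG1 : StmtG1) : ∃ W : (ℕ → ℕ → Bool) → NonemptyCompacts (ℝ × ℝ), Continuous W ∧
    ∀ b, (W b : Set (ℝ × ℝ)) = C ∪ ⋃ k : ℕ × ℕ, range fun t : unitInterval => Dp k.1 k.2 (bv (b k.1 k.2)) t := by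
  apply hG1 (ℕ → ℕ → Bool) (ℕ × ℕ) (ℝ × ℝ) C (isCompact_C hG1) ⟨(1, 0), Or.inl rfl⟩
    (fun k b t => Dp k.1 k.2 (bv (b k.1 k.2)) t)
  · rintro ⟨i, n⟩
    have h1 : Continuous fun q : (ℕ → ℕ → Bool) × unitInterval => bv (q.1 i n) := by
      have : Continuous bv := continuous_of_discreteTopology
      exact this.comp ((continuous_apply n).comp ((continuous_apply i).comp continuous_fst))
    unfold Dp
    fun_prop
  · have h1 : Summable fun k : ℕ × ℕ => ((1/2 : ℝ)^k.1) * ((1/2)^k.2) :=
      Summable.mul_of_nonneg summable_geometric_two summable_geometric_two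
        (fun _ => by positivity) (fun _ => by positivity)
    exact h1.tendsto_cofinite_zero
  · rintro ⟨i, n⟩ b t
    simp only
    set β := bv (b i n)
    have hβ0 : 0 ≤ β := bv_nonneg _
    have hβ1 : β ≤ 1 := bv_le _
    have hb := Dp_bounds i n t.2.1 t.2.2 hβ0 hβ1
    have hs := s_pos i
    set y := β * (1 - |2*(t : ℝ)-1|) with hy
    have hy1 : y ≤ 1 := by
      have := hb.2.2.2
      simp only [Dp] at this
      nlinarith
    have hy0 : 0 ≤ y := by
      have := hb.2.2.1
      simp only [Dp] at this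
      exact nonneg_of_mul_nonneg_right this hs
    refine ⟨Cp i (y/2), Or.inr (mem_iUnion.2 ⟨i, ⟨⟨y/2, by constructor <;> linarith⟩, rfl⟩⟩), ?_⟩
    have e1 : Cp i (y/2) = (a i + s i * (1/2), s i * y) := by
      simp only [Cp]
      rw [max_eq_right (by linarith), min_eq_left (by linarith)]
      exact Prod.ext (by ring) (by ring)
    have e2 : (Dp i n β t).2 = s i * y := rfl
    rw [Prod.dist_eq, e1, e2, dist_self, Real.dist_eq]
    apply max_le _ (by positivity)
    have h5 : (1/2 : ℝ)^i * (1/2)^n = 16 * (s i * h n) := by unfold s h; ring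
    have h6 := hb.1
    have h7 := hb.2.1
    have hh := h_pos n
    have h8 : 0 < s i * h n := by positivity
    simp only [h5]
    rw [abs_le]
    constructor <;> nlinarith


/-! ### good parameters -/

def tent (n : ℕ) (x : ℝ) : ℝ := max 0 (1 - |x - c n| / h n)

theorem continuous_tent (n : ℕ) : Continuous (tent n) := by
  unfold tent; fun_prop

theorem tent_le (n : ℕ) (x : ℝ) : tent n x ≤ 1 := by
  have := h_pos n
  exact max_le (by norm_num) (by have : 0 ≤ |x - c n| / h n := by positivity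
                                 linarith)

theorem tent_nonneg (n : ℕ) (x : ℝ) : 0 ≤ tent n x := le_max_left _ _

theorem tent_eq_zero {n : ℕ} {x : ℝ} (hx : x ≤ 1/2 - 4 * h n ∨ 1/2 - 2 * h n ≤ x) : tent n x = 0 := by
  have hh := h_pos n
  unfold tent
  apply max_eq_left
  rw [sub_nonpos, le_div_iff₀ hh, one_mul]
  unfold c
  rcases hx with hx | hx
  · rw [abs_of_nonpos (by linarith)]; linarith
  · rw [abs_of_nonneg (by linarith)]; linarith

/-- graph over `[0,1/2]` -/
def g (F : Finset ℕ) (x : ℝ) : ℝ := ∑ n ∈ F, tent n x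

theorem continuous_g (F : Finset ℕ) : Continuous (g F) :=
  continuous_finsetSum _ fun n _ => continuous_tent n

theorem g_half (F : Finset ℕ) {x : ℝ} (hx : 1/2 ≤ x) : g F x = 0 := by
  apply Finset.sum_eq_zero
  intro n _
  have := h_pos n
  exact tent_eq_zero (Or.inr (by linarith))

theorem g_eq (F : Finset ℕ) {n : ℕ} {x : ℝ} (h1 : 1/2 - 4 * h n ≤ x) (h2 : x ≤ 1/2 - 2 * h n) :
    g F x = if n ∈ F then tent n x else 0 := by
  have key : ∀ m ∈ F, m ≠ n → tent m x = 0 := by
    intro m _ hmn
    rcases lt_or_gt_of_ne hmn with hlt | hgt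
    · exact tent_eq_zero (Or.inr (by have := h_lt hlt; linarith))
    · exact tent_eq_zero (Or.inl (by have := h_lt hgt; linarith))
  unfold g
  split_ifs with hn
  · exact Finset.sum_eq_single_of_mem n hn key
  · exact Finset.sum_eq_zero fun m hm => key m hm (by rintro rfl; exact hn hm)

theorem exists_I {x : ℝ} (h0 : 0 ≤ x) (h1 : x < 1/2) : ∃ n, 1/2 - 4 * h n ≤ x ∧ x ≤ 1/2 - 2 * h n := by
  have hex : ∃ n, x < 1/2 - 2 * h n := by
    have ht : Tendsto (fun n => 1/2 - 2 * h n) atTop (𝓝 (1/2 - 2 * 0)) :=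
      tendsto_const_nhds.sub (tendsto_h.const_mul 2)
    rw [mul_zero, sub_zero] at ht
    exact (ht.eventually (lt_mem_nhds h1)).exists
  classical
  refine ⟨Nat.find hex, ?_, (Nat.find_spec hex).le⟩
  rcases Nat.eq_zero_or_pos (Nat.find hex) with h2 | h2
  · rw [h2]
    have : h 0 = 1/8 := by norm_num [h]
    rw [this]; linarith
  · obtain ⟨m, hm⟩ := Nat.exists_eq_add_of_lt h2
    have h3 : ¬ x < 1/2 - 2 * h m := Nat.find_min hex (by omega)
    rw [zero_add] at hm
    rw [hm, h_succ]
    linarith [not_lt.1 h3]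

theorem g_bounds (F : Finset ℕ) {x : ℝ} (h0 : 0 ≤ x) : 0 ≤ g F x ∧ g F x ≤ 1 := by
  rcases lt_or_ge x (1/2) with h1 | h1
  · obtain ⟨n, hn1, hn2⟩ := exists_I h0 h1
    rw [g_eq F hn1 hn2]
    split_ifs
    · exact ⟨tent_nonneg _ _, tent_le _ _⟩
    · norm_num
  · rw [g_half F h1]; norm_num

/-- block path -/
def X (u : ℝ) : ℝ := min u 1 / 2 + max (u - 2) 0 / 2
def Y (F : Finset ℕ) (u : ℝ) : ℝ := g F (min u 1 / 2) + min (max (u - 1) 0) 1 - max (u - 2) 0

theorem continuous_X : Continuous X := by unfold X; fun_prop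
theorem continuous_Y (F : Finset ℕ) : Continuous (Y F) := by
  unfold Y
  have := continuous_g F
  fun_prop

theorem XY_low (F : Finset ℕ) {u : ℝ} (h1 : u ≤ 1) : X u = u/2 ∧ Y F u = g F (u/2) := by
  unfold X Y
  rw [min_eq_left h1, max_eq_right (by linarith), max_eq_right (by linarith)]
  simp

theorem XY_high (F : Finset ℕ) {u : ℝ} (h1 : 1 ≤ u) :
    X u = 1/2 + max (u-2) 0 / 2 ∧ Y F u = min (u-1) 1 - max (u-2) 0 := by
  unfold X Y
  rw [min_eq_right h1, max_eq_left (by linarith : (0:ℝ) ≤ u - 1), g_half F (by norm_num)]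
  simp

theorem XY_zero (F : Finset ℕ) : X 0 = 0 ∧ Y F 0 = 0 := by
  have h1 := XY_low F (u := 0) (by norm_num)
  have h2 : g F 0 = 0 := by
    have h0 : h 0 = 1/8 := by norm_num [h]
    rw [g_eq F (n := 0) (by rw [h0]; norm_num) (by rw [h0]; norm_num)]
    split_ifs
    · exact tent_eq_zero (Or.inl (by rw [h0]; norm_num))
    · rfl
  rw [h1.1, h1.2, zero_div, h2]
  exact ⟨rfl, rfl⟩

theorem XY_three (F : Finset ℕ) : X 3 = 1 ∧ Y F 3 = 0 := by
  have h1 := XY_high F (u := 3) (by norm_num)
  rw [h1.1, h1.2, max_eq_left (by norm_num), min_eq_right (by norm_num)]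
  norm_num

theorem XY_bounds (F : Finset ℕ) {u : ℝ} (h0 : 0 ≤ u) (h3 : u ≤ 3) :
    0 ≤ X u ∧ X u ≤ 1 ∧ 0 ≤ Y F u ∧ Y F u ≤ 1 := by
  rcases le_total u 1 with h1 | h1
  · obtain ⟨e1, e2⟩ := XY_low F h1
    have := g_bounds F (x := u/2) (by linarith)
    rw [e1, e2]
    exact ⟨by linarith, by linarith, this.1, this.2⟩
  · obtain ⟨e1, e2⟩ := XY_high F h1
    rw [e1, e2]
    have h2 : 0 ≤ max (u-2) 0 := le_max_right _ _
    have h3 : max (u-2) 0 ≤ 1 := max_le (by linarith) (by norm_num)
    have h4 : min (u-1) 1 ≤ 1 := min_le_right _ _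
    have h5 : max (u-2) 0 ≤ min (u-1) 1 := by
      apply max_le <;> apply le_min <;> linarith
    exact ⟨by linarith, by linarith, by linarith, by linarith⟩

theorem XY_inj (F : Finset ℕ) {u v : ℝ} (huv : u < v) : ¬ (X u = X v ∧ Y F u = Y F v) := by
  rintro ⟨h1, h2⟩
  have hX : ∀ {u v : ℝ}, u ≤ v → min u 1 ≤ min v 1 ∧ max (u-2) 0 ≤ max (v-2) 0 := fun huv =>
    ⟨min_le_min_right _ huv, max_le_max_right _ (by linarith)⟩
  have h3 := hX huv.le
  unfold X at h1
  have h4 : min u 1 = min v 1 := by linarith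
  have h5 : max (u-2) 0 = max (v-2) 0 := by linarith
  have hu : 1 ≤ u := by
    by_contra hlt
    push Not at hlt
    rw [min_eq_left hlt.le] at h4
    have : u < min v 1 := lt_min huv hlt
    linarith
  have hv : v ≤ 2 := by
    by_contra hlt
    push Not at hlt
    rw [max_eq_left (by linarith : (0:ℝ) ≤ v - 2)] at h5
    have : max (u-2) 0 < v - 2 := max_lt (by linarith) (by linarith)
    linarith
  rw [(XY_high F hu).2, (XY_high F (hu.trans huv.le)).2, h5, min_eq_left (by linarith),
    min_eq_left (by linarith)] at h2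
  linarith

/-- local parameter of block `i` -/
def U (i : ℕ) (v : ℝ) : ℝ := max 0 (min 3 (3 * (v - a i) / s i))

theorem continuous_U (i : ℕ) : Continuous (U i) := by unfold U; fun_prop

theorem U_bounds (i : ℕ) (v : ℝ) : 0 ≤ U i v ∧ U i v ≤ 3 :=
  ⟨le_max_left _ _, max_le (by norm_num) (min_le_left _ _)⟩

theorem U_of_le {i : ℕ} {v : ℝ} (hv : v ≤ a i) : U i v = 0 := by
  have := s_pos i
  apply max_eq_left
  apply (min_le_right _ _).trans
  exact div_nonpos_of_nonpos_of_nonneg (by linarith) this.le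

theorem U_of_ge {i : ℕ} {v : ℝ} (hv : a (i+1) ≤ v) : U i v = 3 := by
  have hs := s_pos i
  rw [a_succ] at hv
  have : 3 ≤ 3 * (v - a i) / s i := by rw [le_div_iff₀ hs]; nlinarith
  unfold U
  rw [min_eq_left this, max_eq_right (by norm_num)]

theorem U_of_mem {i : ℕ} {v : ℝ} (h1 : a i ≤ v) (h2 : v ≤ a (i+1)) : U i v = 3 * (v - a i) / s i := by
  have hs := s_pos i
  rw [a_succ] at h2
  unfold U
  rw [min_eq_right, max_eq_right]
  · exact div_nonneg (by linarith) hs.le
  · rw [div_le_iff₀ hs]; nlinarith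

/-- the arc -/
def w (F : ℕ → Finset ℕ) (v : ℝ) : ℝ × ℝ := ∑' i, (s i * X (U i v), s i * Y (F i) (U i v))

theorem summable_s : Summable s := by
  unfold s
  simp only [pow_succ]
  exact summable_geometric_two.mul_right _

theorem continuous_w (F : ℕ → Finset ℕ) : Continuous (w F) := by
  unfold w
  apply continuous_tsum (u := s)
  · intro i
    exact (continuous_const.mul (continuous_X.comp (continuous_U i))).prodMk
      (continuous_const.mul ((continuous_Y (F i)).comp (continuous_U i)))
  · exact summable_s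
  · intro i v
    have hs := s_pos i
    obtain ⟨b1, b2, b3, b4⟩ := XY_bounds (F i) (U_bounds i v).1 (U_bounds i v).2
    rw [Prod.norm_def]
    apply max_le
    · simp only [Real.norm_eq_abs]
      rw [abs_of_nonneg (by positivity)]
      nlinarith
    · simp only [Real.norm_eq_abs]
      rw [abs_of_nonneg (by positivity)]
      nlinarith

theorem sum_s (i : ℕ) : ∑ j ∈ Finset.range i, s j = a i := by
  induction i with
  | zero => simp [a_zero]
  | succ i ih => rw [Finset.sum_range_succ, ih, a_succ]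

theorem w_block (F : ℕ → Finset ℕ) {i : ℕ} {v : ℝ} (h1 : a i ≤ v) (h2 : v ≤ a (i+1)) :
    w F v = (a i + s i * X (U i v), s i * Y (F i) (U i v)) := by
  unfold w
  rw [tsum_eq_sum (s := Finset.range (i+1))]
  · rw [Finset.sum_range_succ]
    have : ∀ j ∈ Finset.range i, ((s j * X (U j v), s j * Y (F j) (U j v)) : ℝ × ℝ) = (s j, 0) := by
      intro j hj
      rw [Finset.mem_range] at hj
      rw [U_of_ge ((a_mono (Nat.succ_le_of_lt hj)).trans h1), (XY_three (F j)).1, (XY_three (F j)).2,
        mul_one, mul_zero]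
    rw [Finset.sum_congr rfl this]
    have h3 : ∑ j ∈ Finset.range i, ((s j, 0) : ℝ × ℝ) = (a i, 0) := by
      rw [← sum_s i]
      ext
      · simp [Prod.fst_sum]
      · simp [Prod.snd_sum]
    rw [h3, Prod.mk_add_mk, zero_add]
  · intro j hj
    rw [Finset.mem_range, not_lt] at hj
    rw [U_of_le (h2.trans (a_mono hj)), (XY_zero (F j)).1, (XY_zero (F j)).2, mul_zero]
    rfl

theorem w_a (F : ℕ → Finset ℕ) (i : ℕ) : w F (a i) = (a i, 0) := by
  rw [w_block F le_rfl (a_mono (Nat.le_succ i)), U_of_le le_rfl, (XY_zero (F i)).1,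
    (XY_zero (F i)).2, mul_zero, add_zero]

theorem w_one (F : ℕ → Finset ℕ) : w F 1 = (1, 0) := by
  have h1 : Tendsto (fun i => w F (a i)) atTop (𝓝 (w F 1)) :=
    ((continuous_w F).tendsto 1).comp tendsto_a
  simp only [w_a] at h1
  have h2 : Tendsto (fun i => ((a i, 0) : ℝ × ℝ)) atTop (𝓝 (1, 0)) :=
    tendsto_a.prodMk_nhds tendsto_const_nhds
  exact tendsto_nhds_unique h1 h2

theorem exists_block {v : ℝ} (h0 : 0 ≤ v) (h1 : v < 1) : ∃ i, a i ≤ v ∧ v < a (i+1) := by
  have hex : ∃ n, v < a (n+1) :=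
    ((tendsto_a.comp (tendsto_add_atTop_nat 1)).eventually (lt_mem_nhds h1)).exists
  classical
  refine ⟨Nat.find hex, ?_, Nat.find_spec hex⟩
  rcases Nat.eq_zero_or_pos (Nat.find hex) with h2 | h2
  · rw [h2, a_zero]; exact h0
  · obtain ⟨m, hm⟩ := Nat.exists_eq_add_of_lt h2
    have h3 : ¬ v < a (m+1) := Nat.find_min hex (by omega)
    rw [zero_add] at hm
    rw [hm]
    exact not_lt.1 h3

theorem a_le_one (i : ℕ) : a i ≤ 1 := (a_lt_one i).le

theorem w_inj (F : ℕ → Finset ℕ) {v v' : ℝ} (h0 : 0 ≤ v) (hvv : v < v') (h1 : v' ≤ 1) :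
    w F v ≠ w F v' := by
  intro heq
  obtain ⟨i, hi1, hi2⟩ := exists_block h0 (hvv.trans_le h1)
  have hs := s_pos i
  have e1 := w_block F hi1 hi2.le
  -- the `x` coordinate is less than `a (i+1)`
  have hu3 : U i v < 3 := by
    rw [U_of_mem hi1 hi2.le, div_lt_iff₀ hs]
    rw [a_succ] at hi2
    linarith
  have hx : X (U i v) < 1 := by
    have h0' := (U_bounds i v).1
    rcases le_total (U i v) 1 with h | h
    · rw [(XY_low ∅ h).1]; linarith
    · rw [(XY_high ∅ h).1]
      have : max (U i v - 2) 0 < 1 := max_lt (by linarith) (by norm_num)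
      linarith
  have hx1 : (w F v).1 < a (i+1) := by
    rw [e1, a_succ]
    simp only
    nlinarith
  rcases lt_or_ge v' (a (i+1)) with h2 | h2
  · have e2 := w_block F (hi1.trans hvv.le) h2.le
    rw [e1, e2, Prod.mk.injEq] at heq
    have h3 : U i v < U i v' := by
      rw [U_of_mem hi1 hi2.le, U_of_mem (hi1.trans hvv.le) h2.le]
      gcongr
    apply XY_inj (F i) h3
    constructor
    · have := heq.1
      have h4 : s i * X (U i v) = s i * X (U i v') := by linarith
      exact mul_left_cancel₀ hs.ne' h4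
    · exact mul_left_cancel₀ hs.ne' heq.2
  · have h5 : a (i+1) ≤ (w F v').1 := by
      rcases h1.eq_or_lt with rfl | h1
      · rw [w_one]; exact a_le_one _
      · obtain ⟨j, hj1, hj2⟩ := exists_block (h0.trans hvv.le) h1
        rw [w_block F hj1 hj2.le]
        have h6 : i + 1 ≤ j := by
          by_contra h7
          push Not at h7
          have := a_mono (Nat.succ_le_of_lt h7)
          linarith
        have h7 := a_mono h6
        have h8 := (XY_bounds (F j) (U_bounds j v').1 (U_bounds j v').2).1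
        have := s_pos j
        simp only
        nlinarith
    rw [heq] at hx1
    linarith

/-- a parameter in block `i` -/
theorem w_param (F : ℕ → Finset ℕ) (i : ℕ) {u : ℝ} (h0 : 0 ≤ u) (h3 : u ≤ 3) :
    ∃ v ∈ Icc (0:ℝ) 1, w F v = (a i + s i * X u, s i * Y (F i) u) := by
  have hs := s_pos i
  have h1 : a i ≤ a i + s i * u / 3 := by have : 0 ≤ s i * u / 3 := by positivity
                                          linarith
  have h2 : a i + s i * u / 3 ≤ a (i+1) := by rw [a_succ]; nlinarith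
  refine ⟨a i + s i * u / 3, ⟨(a_nonneg i).trans h1, h2.trans (a_le_one _)⟩, ?_⟩
  rw [w_block F h1 h2, U_of_mem h1 h2]
  have : 3 * (a i + s i * u / 3 - a i) / s i = u := by field_simp; ring
  rw [this]

theorem Cp_eq (F : Finset ℕ) (i : ℕ) {t : ℝ} (h0 : 0 ≤ t) :
    Cp i t = (a i + s i * X (1 + 2*t), s i * Y F (1 + 2*t)) := by
  rw [(XY_high F (by linarith : 1 ≤ 1 + 2*t)).1, (XY_high F (by linarith : 1 ≤ 1 + 2*t)).2]
  unfold Cp
  have e1 : 1 + 2*t - 2 = 2*t-1 := by ring
  have e2 : 1 + 2*t - 1 = 2*t := by ring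
  rw [e1, e2]

theorem Dp_eq {b : ℕ → Bool} {F : Finset ℕ} (hF : ∀ n, n ∈ F ↔ b n = true) (i n : ℕ) {t : ℝ}
    (h0 : 0 ≤ t) (h1 : t ≤ 1) :
    Dp i n (bv (b n)) t = (a i + s i * X (2 * (c n + (2*t-1) * h n)),
      s i * Y F (2 * (c n + (2*t-1) * h n))) := by
  have hh := h_pos n
  set x := c n + (2*t-1) * h n with hx
  have hx1 : 1/2 - 4 * h n ≤ x := by rw [hx]; unfold c; nlinarith
  have hx2 : x ≤ 1/2 - 2 * h n := by rw [hx]; unfold c; nlinarith
  rw [(XY_low F (by linarith : 2 * x ≤ 1)).1, (XY_low F (by linarith : 2 * x ≤ 1)).2]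
  have e1 : 2 * x / 2 = x := by ring
  rw [e1, g_eq F hx1 hx2]
  have e2 : tent n x = 1 - |2*t-1| := by
    unfold tent
    have e3 : x - c n = (2*t-1) * h n := by rw [hx]; ring
    rw [e3, abs_mul, abs_of_pos hh, mul_div_cancel_right₀ _ hh.ne']
    apply max_eq_right
    have : |2*t-1| ≤ 1 := abs_le.2 ⟨by linarith, by linarith⟩
    linarith
  unfold Dp bv
  by_cases hn : n ∈ F
  · rw [if_pos hn, if_pos ((hF n).1 hn), e2, one_mul, ← hx]
  · rw [if_neg hn, if_neg (fun h => hn ((hF n).2 h)), ← hx]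
    simp

theorem w_image (b : ℕ → ℕ → Bool) (F : ℕ → Finset ℕ) (hF : ∀ i n, n ∈ F i ↔ b i n = true) :
    w F '' Icc 0 1 =
      C ∪ ⋃ k : ℕ × ℕ, range fun t : unitInterval => Dp k.1 k.2 (bv (b k.1 k.2)) t := by
  apply Subset.antisymm
  · rintro _ ⟨v, ⟨hv0, hv1⟩, rfl⟩
    rcases hv1.eq_or_lt with rfl | hv1
    · rw [w_one]; exact Or.inl (Or.inl rfl)
    · obtain ⟨i, hi1, hi2⟩ := exists_block hv0 hv1
      rw [w_block F hi1 hi2.le]
      have hU := U_bounds i v
      set u := U i v
      rcases le_or_gt 1 u with hu1 | hu1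
      · left; right
        refine mem_iUnion.2 ⟨i, ⟨(u-1)/2, by constructor <;> linarith⟩, ?_⟩
        simp only
        rw [Cp_eq (F i) i (by linarith : 0 ≤ (u-1)/2)]
        have : 1 + 2 * ((u-1)/2) = u := by ring
        rw [this]
      · right
        obtain ⟨n, hn1, hn2⟩ := exists_I (x := u/2) (by linarith) (by linarith)
        have hh := h_pos n
        refine mem_iUnion.2 ⟨(i, n), ⟨((u/2 - c n)/h n + 1)/2, ?_, ?_⟩, ?_⟩
        · have : -1 ≤ (u/2 - c n)/h n := by
            rw [le_div_iff₀ hh]; unfold c; linarith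
          linarith
        · have : (u/2 - c n)/h n ≤ 1 := by
            rw [div_le_iff₀ hh]; unfold c; linarith
          linarith
        · simp only
          rw [Dp_eq (hF i) i n]
          · have : 2 * (c n + (2 * (((u/2 - c n)/h n + 1)/2) - 1) * h n) = u := by
              field_simp; ring
            rw [this]
          · have : -1 ≤ (u/2 - c n)/h n := by
              rw [le_div_iff₀ hh]; unfold c; linarith
            linarith
          · have : (u/2 - c n)/h n ≤ 1 := by
              rw [div_le_iff₀ hh]; unfold c; linarith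
            linarith
  · rintro q ((rfl | hq) | hq)
    · exact ⟨1, by simp, w_one F⟩
    · obtain ⟨i, t, rfl⟩ := mem_iUnion.1 hq
      simp only
      rw [Cp_eq (F i) i t.2.1]
      have h0 := t.2.1
      have h1 := t.2.2
      obtain ⟨v, hv, hv'⟩ := w_param F i (u := 1 + 2 * (t : ℝ)) (by linarith) (by linarith)
      exact ⟨v, hv, hv'⟩
    · obtain ⟨⟨i, n⟩, t, rfl⟩ := mem_iUnion.1 hq
      simp only
      have hh := h_pos n
      have hh' := h_le n
      have h0 := t.2.1
      have h1 := t.2.2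
      rw [Dp_eq (hF i) i n h0 h1]
      obtain ⟨v, hv, hv'⟩ := w_param F i (u := 2 * (c n + (2*(t:ℝ)-1) * h n))
        (by unfold c; nlinarith) (by unfold c; nlinarith)
      exact ⟨v, hv, hv'⟩

theorem stmtW (hG1 : StmtG1) : StmtW := by
  obtain ⟨W, hW, hWe⟩ := exists_K hG1
  refine ⟨W, hW, ?_, ?_, ?_⟩
  · -- triangle
    intro b q hq
    rw [hWe b] at hq
    rcases hq with (rfl | hq) | hq
    · norm_num
    · obtain ⟨i, t, rfl⟩ := mem_iUnion.1 hq
      simp only
      obtain ⟨b1, b2, b3, b4⟩ := Cp_bounds i t.2.1 t.2.2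
      have := a_add i
      have := a_nonneg i
      have := s_pos i
      refine ⟨by linarith, b3, by linarith, fun h => by linarith⟩
    · obtain ⟨⟨i, n⟩, t, rfl⟩ := mem_iUnion.1 hq
      simp only
      obtain ⟨b1, b2, b3, b4⟩ := Dp_bounds i n t.2.1 t.2.2 (bv_nonneg (b i n)) (bv_le _)
      have h1 := a_add i
      have h2 := a_nonneg i
      have h3 := s_pos i
      have h4 := h_le n
      have h5 := h_pos n
      have h6 : 0 ≤ s i * (1/2 - 4 * h n) := mul_nonneg h3.le (by linarith)
      have h7 : s i * (1/2 - 2 * h n) ≤ s i := by nlinarith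
      refine ⟨by linarith, b3, by linarith, fun h0 => ?_⟩
      have h8 : a i = 0 := by linarith
      have h9 : s i * (1/2 - 4 * h n) = 0 := by linarith
      have h10 : h n = 1/8 := by
        rcases mul_eq_zero.1 h9 with h | h
        · linarith
        · linarith
      have h11 := h_eq h10
      have h12 := a_eq_zero h8
      subst h11 h12
      simp only [Dp] at h0 ⊢
      rw [h8, zero_add] at h0
      have h13 : c 0 + (2 * (t:ℝ) - 1) * h 0 = 0 := by
        rcases mul_eq_zero.1 h0 with h | h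
        · linarith
        · exact h
      unfold c at h13
      rw [h10] at h13
      have h14 : (t : ℝ) = 0 := by linarith
      rw [h14]
      norm_num
  · -- good
    intro b hb
    have hF : ∀ i n, n ∈ (hb i).toFinset ↔ b i n = true := fun i n => by simp
    refine ⟨w fun i => (hb i).toFinset, (continuous_w _).continuousOn, ?_, ?_, ?_, w_one _⟩
    · intro v hv v' hv' heq
      rcases lt_trichotomy v v' with h | h | h
      · exact absurd heq (w_inj _ hv.1 h hv'.2)
      · exact h
      · exact absurd heq.symm (w_inj _ hv'.1 h hv.2)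
    · rw [w_image b _ hF, hWe b]
    · have := w_a (fun i => (hb i).toFinset) 0
      rwa [a_zero] at this
  · -- bad
    intro b hb
    push Not at hb
    obtain ⟨i, hi⟩ := hb
    have hi' : ∀ k : ℕ, ∃ n, k ≤ n ∧ b i n = true := by
      intro k
      obtain ⟨n, hn, hkn⟩ := Set.Infinite.exists_gt hi k
      exact ⟨n, hkn.le, hn⟩
    choose N hN1 hN2 using hi'
    have hs := s_pos i
    have ha := a_add i
    have ha0 := a_nonneg i
    have hN : Tendsto (fun k => h (N k)) atTop (𝓝 0) :=
      tendsto_h.comp (tendsto_atTop_mono hN1 tendsto_id)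
    refine ⟨(a i + s i / 2, s i / 2), fun k => a i + s i * c (N k), s i, ?_, ?_, ?_, ?_, ?_, ?_, ?_,
      ?_, ?_, ?_⟩
    · rw [hWe b]
      left; right
      refine mem_iUnion.2 ⟨i, ⟨1/4, by norm_num, by norm_num⟩, ?_⟩
      simp only [Cp]
      norm_num
      ring
    · simp only; linarith
    · simp only; linarith
    · simp only; linarith
    · linarith
    · intro k
      have := h_le (N k)
      have : 0 < c (N k) := by unfold c; linarith
      positivity
    · intro k
      have := h_pos (N k)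
      simp only
      unfold c
      nlinarith
    · have h1 : Tendsto (fun k => a i + s i * (1/2 - 3 * h (N k))) atTop (𝓝 (a i + s i * (1/2 - 3 * 0))) :=
        tendsto_const_nhds.add ((tendsto_const_nhds.sub (hN.const_mul 3)).const_mul (s i))
      have h2 : a i + s i * (1/2 - 3 * 0) = a i + s i / 2 := by ring
      rw [h2] at h1
      exact h1
    · intro k q hq hqk
      set n := N k with hn
      have hh := h_pos n
      have hh' := h_le n
      have hc0 : 0 < c n := by unfold c; linarith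
      have hc1 : c n < 1/2 := by unfold c; linarith
      have l1 : a i < q.1 := by rw [hqk]; nlinarith
      have l2 : q.1 < a i + s i / 2 := by rw [hqk]; nlinarith
      rw [hWe b] at hq
      rcases hq with (rfl | hq) | hq
      · simp only at l2
        linarith
      · obtain ⟨j, t, rfl⟩ := mem_iUnion.1 hq
        simp only at l1 l2
        obtain ⟨b1, b2, b3, b4⟩ := Cp_bounds j t.2.1 t.2.2
        have hsj := s_pos j
        rcases lt_trichotomy j i with h | h | h
        · have := a_mono (Nat.succ_le_of_lt h)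
          rw [Nat.succ_eq_add_one, a_succ] at this
          linarith
        · subst h; linarith
        · have := a_mono (Nat.succ_le_of_lt h)
          rw [Nat.succ_eq_add_one, a_succ] at this
          linarith
      · obtain ⟨⟨j, m⟩, t, rfl⟩ := mem_iUnion.1 hq
        simp only at l1 l2 hqk ⊢
        obtain ⟨b1, b2, b3, b4⟩ := Dp_bounds j m t.2.1 t.2.2 (bv_nonneg (b j m)) (bv_le _)
        have hsj := s_pos j
        have hm := h_le m
        have hm0 := h_pos m
        rcases lt_trichotomy j i with hji | hji | hji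
        · have := a_mono (Nat.succ_le_of_lt hji)
          rw [Nat.succ_eq_add_one, a_succ] at this
          nlinarith
        · subst hji
          have e1 : c m + (2*(t:ℝ)-1) * h m = c n := by
            simp only [Dp] at hqk
            have : s j * (c m + (2*(t:ℝ)-1) * h m) = s j * c n := by linarith
            exact mul_left_cancel₀ hs.ne' this
          have t0 := t.2.1
          have t1 := t.2.2
          have hmn : m = n := by
            unfold c at e1
            rcases lt_trichotomy m n with h | h | h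
            · have := h_lt h
              nlinarith
            · exact h
            · have := h_lt h
              nlinarith
          rw [hmn] at e1 ⊢
          have e2 : (2*(t:ℝ)-1) = 0 := by
            have : (2*(t:ℝ)-1) * h n = 0 := by linarith
            rcases mul_eq_zero.1 this with h | h
            · exact h
            · linarith
          simp only [Dp]
          rw [e2, hn, hN2 k]
          simp [bv]
        · have := a_mono (Nat.succ_le_of_lt hji)
          rw [Nat.succ_eq_add_one, a_succ] at this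
          have : 0 ≤ s j * (1/2 - 4 * h m) := mul_nonneg hsj.le (by linarith)
          linarith
    · intro ε hε
      have h1 : Tendsto (fun k => 4 * h (N k)) atTop (𝓝 (4 * 0)) := hN.const_mul 4
      rw [mul_zero] at h1
      obtain ⟨k, hk⟩ := (h1.eventually (gt_mem_nhds hε)).exists
      have hh := h_pos (N k)
      refine ⟨Dp i (N k) (bv (b i (N k))) (1/4), ?_, ?_, ?_⟩
      · rw [hWe b]
        right
        exact mem_iUnion.2 ⟨(i, N k), ⟨⟨1/4, by norm_num, by norm_num⟩, rfl⟩⟩
      · simp only [Dp, c]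
        nlinarith
      · rw [hN2 k, Prod.dist_eq]
        have e1 : (Dp i (N k) (bv true) (1/4)).2 = s i / 2 := by
          simp only [Dp, bv]
          norm_num
          ring
        rw [e1, dist_self, Real.dist_eq]
        apply max_lt _ hε
        simp only [Dp, c]
        have hs2 := s_le i
        rw [abs_lt]
        constructor <;> nlinarith

end Pool.Agent.Helper17.ACW
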