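import Pool.Agent.Helper31.Sk.SpDef

/-!
# The symplectic value of a link diagram (packet for helper31)

We use the number `dd l l'` of the places where two labellings differ. For a word `C` from `m` to
`0`, `F = oF C` and `G = val Sp C (fun _ => 1)`: `|G l| = F l`, and if `G l ≠ 0`, `G l' ≠ 0`, then
`dd l l' = 2 e` is even and `G l' = (-1) ^ e G l`.
-/

set_option autoImplicit false

namespace Pool.Agent.Helper17.SkSp

open Pool.Agent.Helper31.Sk

/-- the number of the places where two labellings differ -/
def dd : List Bool → List Bool → ℕ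
  | x :: l, y :: l' => (if x = y then 0 else 1) + dd l l'
  | _, _ => 0

theorem dd_self (l : List Bool) : dd l l = 0 := by
  induction l with
  | nil => rfl
  | cons x l ih => simp [dd, ih]

theorem dd_swp (i : ℕ) (l l' : List Bool) (h : i + 2 ≤ l.length) (h' : l.length = l'.length) :
    dd (swp i l) (swp i l') = dd l l' := by
  induction i generalizing l l' with
  | zero =>
    rcases l with _ | ⟨x, _ | ⟨y, l⟩⟩
    · simp at h
    · simp at h
    · rcases l' with _ | ⟨x', _ | ⟨y', l'⟩⟩
      · simp at h'
      · simp at h'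
      · simp only [swp, dd]
        omega
  | succ i ih =>
    rcases l with _ | ⟨x, l⟩
    · simp at h
    · rcases l' with _ | ⟨x', l'⟩
      · simp at h'
      · simp only [swp, dd]
        rw [ih l l' (by simpa using h) (by simpa using h')]

theorem dd_del (i : ℕ) (l l' : List Bool) (h : i + 2 ≤ l.length) (h' : l.length = l'.length) :
    dd l l' = dd (del i l) (del i l') + (if nth l i = nth l' i then 0 else 1) +
      (if nth l (i + 1) = nth l' (i + 1) then 0 else 1) := by
  induction i generalizing l l' with
  | zero =>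
    rcases l with _ | ⟨x, _ | ⟨y, l⟩⟩
    · simp at h
    · simp at h
    · rcases l' with _ | ⟨x', _ | ⟨y', l'⟩⟩
      · simp at h'
      · simp at h'
      · simp only [del, dd, nth_zero, nth_succ]
        split_ifs <;> omega
  | succ i ih =>
    rcases l with _ | ⟨x, l⟩
    · simp at h
    · rcases l' with _ | ⟨x', l'⟩
      · simp at h'
      · simp only [del, dd, nth_succ]
        rw [ih l l' (by simpa using h) (by simpa using h')]
        split_ifs <;> omega

theorem dd_ins (i : ℕ) (a b a' b' : Bool) (l l' : List Bool) (h : i ≤ l.length)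
    (h' : l.length = l'.length) :
    dd (ins i a b l) (ins i a' b' l') = dd l l' + (if a = a' then 0 else 1) +
      (if b = b' then 0 else 1) := by
  induction i generalizing l l' with
  | zero =>
    simp only [ins, dd]
    omega
  | succ i ih =>
    rcases l with _ | ⟨x, l⟩
    · simp at h
    · rcases l' with _ | ⟨x', l'⟩
      · simp at h'
      · simp only [ins, dd]
        rw [ih l l' (by simpa using h) (by simpa using h')]
        omega

/-! ### the actions -/

theorem sp_cross (i : ℕ) (g : Gen) (hg : g = .pos ∨ g = .neg) (φ : List Bool → ℤ) (l : List Bool)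
    (h : i + 2 ≤ l.length) : act Sp i g φ l = φ (swp i l) := by
  induction i generalizing φ l with
  | zero =>
    rcases l with _ | ⟨x, _ | ⟨y, l⟩⟩
    · simp at h
    · simp at h
    · rcases hg with rfl | rfl <;> cases x <;> cases y <;> simp [act0, S2, Sp, swp]
  | succ i ih =>
    rcases l with _ | ⟨x, l⟩
    · simp at h
    · simp only [act_succ, swp]
      exact ih _ l (by simpa using h)

theorem sp_cap (i : ℕ) (φ : List Bool → ℤ) (l : List Bool) (h : i + 2 ≤ l.length) :
    act Sp i .cap φ l = (if nth l i = nth l (i + 1) then 0 else if nth l (i + 1) then 1 else -1) *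
      φ (del i l) := by
  induction i generalizing φ l with
  | zero =>
    rcases l with _ | ⟨x, _ | ⟨y, l⟩⟩
    · simp at h
    · simp at h
    · simp only [act_zero, act0, Sp, del, nth_zero, nth_succ]
      split_ifs <;> simp
  | succ i ih =>
    rcases l with _ | ⟨x, l⟩
    · simp at h
    · simp only [act_succ, del, nth_succ]
      exact ih _ l (by simpa using h)

theorem sp_cup (i : ℕ) (φ : List Bool → ℤ) (l : List Bool) (h : i ≤ l.length) :
    act Sp i .cup φ l = φ (ins i false true l) - φ (ins i true false l) := by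
  induction i generalizing φ l with
  | zero => simp [act0, S2, Sp, ins]; ring
  | succ i ih =>
    rcases l with _ | ⟨x, l⟩
    · simp at h
    · simp only [act_succ, ins]
      exact ih _ l (by simpa using h)

/-! ### the two properties -/

/-- the values of `G` are those of `F` up to signs, and the signs change at each pair -/
structure Pr (m : ℕ) (F G : List Bool → ℤ) : Prop where
  ab : ∀ l : List Bool, l.length = m → |G l| = F l
  sg : ∀ l l' : List Bool, l.length = m → l'.length = m → G l ≠ 0 → G l' ≠ 0 →
    ∃ e, dd l l' = 2 * e ∧ G l' = (-1) ^ e * G l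

theorem pr_cross {m : ℕ} {F G : List Bool → ℤ} (h : Pr m F G) (i : ℕ) (g : Gen)
    (hg : g = .pos ∨ g = .neg) (hi : i + 2 ≤ m) : Pr m (act (Or ℤ) i g F) (act Sp i g G) := by
  constructor
  · intro l hl
    rw [sp_cross i g hg G l (by omega), or_cross i g hg F l (by omega)]
    exact h.ab _ (by rw [length_swp, hl])
  · intro l l' hl hl' h1 h2
    rw [sp_cross i g hg G l (by omega)] at h1 ⊢
    rw [sp_cross i g hg G l' (by omega)] at h2 ⊢
    obtain ⟨e, e1, e2⟩ := h.sg _ _ (by rw [length_swp, hl]) (by rw [length_swp, hl']) h1 h2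
    rw [dd_swp i l l' (by omega) (by omega)] at e1
    exact ⟨e, e1, e2⟩

theorem pr_cap {m : ℕ} {F G : List Bool → ℤ} (h : Pr m F G) (i : ℕ) (hi : i ≤ m) :
    Pr (m + 2) (act (Or ℤ) i .cap F) (act Sp i .cap G) := by
  constructor
  · intro l hl
    rw [sp_cap i G l (by omega), or_cap i F l (by omega)]
    by_cases hxy : nth l i = nth l (i + 1)
    · rw [if_pos hxy, if_pos hxy]; simp
    · rw [if_neg hxy, if_neg hxy, abs_mul,
        h.ab _ (by rw [length_del i l (by omega)]; omega)]
      split_ifs <;> simp
  · intro l l' hl hl' h1 h2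
    rw [sp_cap i G l (by omega)] at h1 ⊢
    rw [sp_cap i G l' (by omega)] at h2 ⊢
    have n1 : nth l i ≠ nth l (i + 1) := fun e => h1 (by rw [if_pos e, zero_mul])
    have n2 : nth l' i ≠ nth l' (i + 1) := fun e => h2 (by rw [if_pos e, zero_mul])
    rw [if_neg n1] at h1 ⊢
    rw [if_neg n2] at h2 ⊢
    obtain ⟨e, e1, e2⟩ := h.sg _ _ (by rw [length_del i l (by omega)]; omega)
      (by rw [length_del i l' (by omega)]; omega) (right_ne_zero_of_mul h1)
      (right_ne_zero_of_mul h2)
    rw [dd_del i l l' (by omega) (by omega), e1, e2]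
    generalize nth l i = x at n1 ⊢
    generalize nth l (i + 1) = y at n1 ⊢
    generalize nth l' i = x' at n2 ⊢
    generalize nth l' (i + 1) = y' at n2 ⊢
    by_cases hx : y = y'
    · subst hx
      have hx2 : x = x' := by revert n1 n2; cases x <;> cases x' <;> cases y <;> simp
      subst hx2
      refine ⟨e, by simp, by ring⟩
    · have hx2 : x ≠ x' := by
        revert n1 n2 hx; cases x <;> cases x' <;> cases y <;> cases y' <;> simp
      refine ⟨e + 1, by simp [hx, hx2]; ring, ?_⟩
      cases y <;> cases y' <;> simp at hx ⊢ <;> rw [pow_succ] <;> ring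

theorem pr_cup {m : ℕ} {F G : List Bool → ℤ} (h : Pr (m + 2) F G) (i : ℕ) (hi : i ≤ m)
    (hc : ∃ c : ℤ, ∀ l : List Bool, l.length = m + 2 → F l = 0 ∨ F l = c)
    (hc' : ∃ c : ℤ, ∀ l : List Bool, l.length = m →
      act (Or ℤ) i .cup F l = 0 ∨ act (Or ℤ) i .cup F l = c) :
    Pr m (act (Or ℤ) i .cup F) (act Sp i .cup G) := by
  have hlen : ∀ (l : List Bool) (a b : Bool), l.length = m → (ins i a b l).length = m + 2 :=
    fun l a b hl => by rw [length_ins _ _ _ _ (by omega), hl]
  -- if both completions are possible, then the values are opposite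
  have hop : ∀ l : List Bool, l.length = m → G (ins i false true l) ≠ 0 →
      G (ins i true false l) ≠ 0 → G (ins i true false l) = - G (ins i false true l) := by
    intro l hl h1 h2
    obtain ⟨e, e1, e2⟩ := h.sg _ _ (hlen l _ _ hl) (hlen l _ _ hl) h1 h2
    rw [dd_ins i _ _ _ _ l l (by omega) rfl, dd_self] at e1
    simp at e1
    have : e = 1 := by omega
    rw [e2, this]
    ring
  have hab : ∀ l : List Bool, l.length = m → |act Sp i .cup G l| = act (Or ℤ) i .cup F l := by
    intro l hl
    rw [sp_cup i G l (by omega), or_cup i F l (by omega), ← h.ab _ (hlen l _ _ hl),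
      ← h.ab _ (hlen l _ _ hl)]
    by_cases h1 : G (ins i false true l) = 0
    · rw [h1]; simp
    · by_cases h2 : G (ins i true false l) = 0
      · rw [h2]; simp
      · rw [hop l hl h1 h2, sub_neg_eq_add, abs_neg, ← two_mul, abs_mul]
        simp; ring
  refine ⟨hab, ?_⟩
  intro l l' hl hl' h1 h2
  obtain ⟨c, hc⟩ := hc
  obtain ⟨c', hc'⟩ := hc'
  have a1 := hab l hl
  have a2 := hab l' hl'
  have b1 : act (Or ℤ) i .cup F l = c' := by
    rcases hc' l hl with e | e
    · rw [e, abs_eq_zero] at a1; exact absurd a1 h1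
    · exact e
  have b2 : act (Or ℤ) i .cup F l' = c' := by
    rcases hc' l' hl' with e | e
    · rw [e, abs_eq_zero] at a2; exact absurd a2 h2
    · exact e
  rw [sp_cup i G l (by omega)] at h1 a1 ⊢
  rw [sp_cup i G l' (by omega)] at h2 a2 ⊢
  -- values of `G` have the absolute value `c`
  have hGc : ∀ (l : List Bool) (a b : Bool), l.length = m → G (ins i a b l) ≠ 0 →
      |G (ins i a b l)| = c := by
    intro l a b hl hne
    rw [h.ab _ (hlen l _ _ hl)]
    rcases hc _ (hlen l a b hl) with e | e
    · rw [← h.ab _ (hlen l _ _ hl), abs_eq_zero] at e; exact absurd e hne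
    · exact e
  -- both completions are possible for `l` if and only if they are for `l'`
  have hmix : ∀ l l' : List Bool, l.length = m → l'.length = m →
      |G (ins i false true l) - G (ins i true false l)| = c' →
      |G (ins i false true l') - G (ins i true false l')| = c' →
      G (ins i false true l') - G (ins i true false l') ≠ 0 →
      G (ins i false true l) ≠ 0 → G (ins i true false l) ≠ 0 →
      G (ins i false true l') ≠ 0 ∧ G (ins i true false l') ≠ 0 := by
    intro l l' hl hl' e1 e2 hne n1 n2
    have o := hop l hl n1 n2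
    have c1 := hGc l _ _ hl n1
    have k1 : c' = 2 * c := by
      rw [← e1, o, sub_neg_eq_add, ← two_mul, abs_mul, c1]; simp
    have cpos : 0 < c := by rw [← c1]; exact abs_pos.2 n1
    constructor
    · intro z
      rw [z, zero_sub, abs_neg] at e2
      rw [z, zero_sub, neg_ne_zero] at hne
      have := hGc l' _ _ hl' hne
      omega
    · intro z
      rw [z, sub_zero] at e2
      rw [z, sub_zero] at hne
      have := hGc l' _ _ hl' hne
      omega
  have m1 := hmix l l' hl hl' (a1.trans b1) (a2.trans b2) h2
  have m2 := hmix l' l hl' hl (a2.trans b2) (a1.trans b1) h1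
  have sgn : ∀ a b a' b' : Bool, G (ins i a b l) ≠ 0 → G (ins i a' b' l') ≠ 0 →
      ∃ e, dd l l' + (if a = a' then 0 else 1) + (if b = b' then 0 else 1) = 2 * e ∧
        G (ins i a' b' l') = (-1) ^ e * G (ins i a b l) := by
    intro a b a' b' n1 n2
    obtain ⟨e, e1, e2⟩ := h.sg _ _ (hlen l _ _ hl) (hlen l' _ _ hl') n1 n2
    rw [dd_ins i _ _ _ _ l l' (by omega) (by omega)] at e1
    exact ⟨e, e1, e2⟩
  by_cases hA : G (ins i false true l) = 0
  · have hB : G (ins i true false l) ≠ 0 := by
      intro z; exact h1 (by rw [hA, z]; ring)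
    by_cases hA' : G (ins i false true l') = 0
    · have hB' : G (ins i true false l') ≠ 0 := by
        intro z; exact h2 (by rw [hA', z]; ring)
      obtain ⟨e, e1, e2⟩ := sgn _ _ _ _ hB hB'
      refine ⟨e, by simpa using e1, ?_⟩
      rw [hA, hA', e2]; ring
    · have hB' : G (ins i true false l') = 0 := by
        by_contra z
        exact (m2 hA' z).1 hA
      obtain ⟨e, e1, e2⟩ := sgn _ _ _ _ hB hA'
      simp only [reduceCtorEq, if_false] at e1
      obtain ⟨e', rfl⟩ : ∃ e', e = e' + 1 := ⟨e - 1, by omega⟩
      refine ⟨e', by omega, ?_⟩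
      rw [hA, hB', e2, pow_succ]; ring
  · by_cases hA' : G (ins i false true l') = 0
    · have hB' : G (ins i true false l') ≠ 0 := by
        intro z; exact h2 (by rw [hA', z]; ring)
      have hB : G (ins i true false l) = 0 := by
        by_contra z
        exact (m1 hA z).1 hA'
      obtain ⟨e, e1, e2⟩ := sgn _ _ _ _ hA hB'
      simp only [reduceCtorEq, if_false] at e1
      obtain ⟨e', rfl⟩ : ∃ e', e = e' + 1 := ⟨e - 1, by omega⟩
      refine ⟨e', by omega, ?_⟩
      rw [hB, hA', e2, pow_succ]; ring
    · obtain ⟨e, e1, e2⟩ := sgn _ _ _ _ hA hA'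
      refine ⟨e, by simpa using e1, ?_⟩
      by_cases hB : G (ins i true false l) = 0
      · have hB' : G (ins i true false l') = 0 := by
          by_contra z
          exact (m2 hA' z).2 hB
        rw [hB, hB', e2]; ring
      · have hB' := (m1 hA hB).2
        rw [hop l hl hA hB, hop l' hl' hA' hB', e2]; ring

/-- the values of `oF C` are `0` and one number -/
theorem oF_two {m : ℕ} (C : Word) (h : Legal m C 0) :
    ∃ c : ℤ, ∀ l : List Bool, l.length = m → oF C l = 0 ∨ oF C l = c := by
  classical
  obtain ⟨k, f, hF⟩ := mt_word C m h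
  refine ⟨2 ^ k, fun l hl => ?_⟩
  have := hF.v l hl
  by_cases hc : Cmp m f (nth l)
  · right
    show val (Or ℤ) C (fun _ => 1) l = _
    rw [this, if_pos hc]
  · left
    show val (Or ℤ) C (fun _ => 1) l = _
    rw [this, if_neg hc]

theorem pr_word (C : Word) : ∀ m, Legal m C 0 → Pr m (oF C) (val Sp C (fun _ => 1)) := by
  induction C with
  | nil =>
    intro m h
    obtain rfl : m = 0 := h
    refine ⟨fun l hl => ?_, fun l l' hl hl' _ _ => ⟨0, ?_, ?_⟩⟩
    · show |(1 : ℤ)| = 1
      simp
    · rw [List.length_eq_zero_iff.1 hl, List.length_eq_zero_iff.1 hl']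
      rfl
    · show (1 : ℤ) = (-1) ^ 0 * 1
      simp
  | cons s C ih =>
    intro m h
    obtain ⟨i, g⟩ := s
    have h0 := h
    obtain ⟨h1, h2⟩ := h
    have hP := ih _ h2
    have e : val Sp ((i, g) :: C) (fun _ => 1) = act Sp i g (val Sp C (fun _ => 1)) := rfl
    rw [e, oF_cons]
    rcases g with _ | _ | _ | _
    · simp only [Gen.src, Gen.tgt] at h1 h2 hP
      exact pr_cup hP i (by omega) (oF_two C h2) (oF_two _ h0)
    · simp only [Gen.src, Gen.tgt] at h1 hP
      obtain ⟨m', rfl⟩ : ∃ m', m = m' + 2 := ⟨m - 2, by omega⟩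
      exact pr_cap (m := m') (by simpa using hP) i (by omega)
    · simp only [Gen.src, Gen.tgt] at h1 hP
      have e1 : m - 2 + 2 = m := by omega
      rw [e1] at hP
      exact pr_cross hP i .pos (Or.inl rfl) h1
    · simp only [Gen.src, Gen.tgt] at h1 hP
      have e1 : m - 2 + 2 = m := by omega
      rw [e1] at hP
      exact pr_cross hP i .neg (Or.inr rfl) h1

theorem goalSp : GoalSp := fun w hw => (pr_word w 0 hw).ab [] rfl

end Pool.Agent.Helper17.SkSp
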