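import Mathlib

/-!
# Tuples mapped into themselves by a permutation (packet W3)
-/

namespace Pool.Agent.Helper17.W3

open Finset

set_option linter.unusedSectionVars false

variable {α : Type} [Fintype α] [DecidableEq α]

/-- number of points of `A` leaving `A` -/
def uu (g : Equiv.Perm α) (A : Finset α) : ℕ := (A.filter fun x => g x ∉ A).card

/-- the gaps of `A` -/
def gaps (g : Equiv.Perm α) (A : Finset α) : Finset α :=
  univ.filter fun y => y ∉ A ∧ g y ∈ A ∧ g.symm y ∈ A

theorem uu_insert_fix (g : Equiv.Perm α) {A : Finset α} {x : α} (hx : x ∉ A) (hg : g x = x) :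
    uu g (insert x A) = uu g A := by
  unfold uu
  congr 1
  ext z
  simp only [mem_filter, mem_insert, not_or]
  constructor
  · rintro ⟨rfl | hz, h1, h2⟩
    · exact absurd hg h1
    · exact ⟨hz, h2⟩
  · rintro ⟨hz, h2⟩
    refine ⟨Or.inr hz, ?_, h2⟩
    intro h
    have : z = x := g.injective (h.trans hg.symm)
    exact hx (this ▸ hz)

theorem gaps_insert_fix (g : Equiv.Perm α) {A : Finset α} {x : α} (hg : g x = x) :
    gaps g (insert x A) ⊆ gaps g A := by
  intro y hy
  simp only [gaps, mem_filter, mem_univ, true_and, mem_insert, not_or] at hy ⊢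
  obtain ⟨⟨h1, h2⟩, h3, h4⟩ := hy
  refine ⟨h2, ?_, ?_⟩
  · rcases h3 with h3 | h3
    · exact absurd (g.injective (h3.trans hg.symm)) h1
    · exact h3
  · rcases h4 with h4 | h4
    · exfalso
      apply h1
      rw [Equiv.symm_apply_eq] at h4
      rw [h4, hg]
    · exact h4

theorem uu_insert (g : Equiv.Perm α) {A : Finset α} {x : α} (hx : x ∉ A) (hg : g x ≠ x) :
    uu g (insert x A) + (if g x ∈ A then 1 else 0) + (if g.symm x ∈ A then 1 else 0) =
      uu g A + 1 := by
  have h1 : A.filter (fun z => g z ∉ insert x A) = (A.filter fun z => g z ∉ A).erase (g.symm x) := by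
    ext z
    simp only [mem_filter, mem_insert, not_or, mem_erase, ne_eq]
    constructor
    · rintro ⟨hz, h1, h2⟩
      refine ⟨?_, hz, h2⟩
      rintro rfl
      simp at h1
    · rintro ⟨h1, hz, h2⟩
      refine ⟨hz, ?_, h2⟩
      intro h
      exact h1 ((Equiv.eq_symm_apply g).2 h)
  have h2 : (A.filter (fun z => g z ∉ insert x A)).card + (if g.symm x ∈ A then 1 else 0) =
      (A.filter fun z => g z ∉ A).card := by
    rw [h1]
    split_ifs with h
    · apply card_erase_add_one
      simp [h, hx]
    · rw [erase_eq_of_notMem]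
      · rfl
      · simp [h]
  unfold uu
  rw [filter_insert]
  by_cases h3 : g x ∈ A
  · rw [if_neg (by simp [h3]), if_pos h3]
    omega
  · rw [if_pos (by simp [h3, hg]), if_neg h3, card_insert_of_notMem (by simp [hx])]
    omega

/-- new gaps -/
theorem gaps_insert (g : Equiv.Perm α) {A : Finset α} {x : α} :
    gaps g (insert x A) ⊆ ((gaps g A).erase x) ∪
      ((if g x ∉ A ∧ (g (g x) ∈ A ∨ g (g x) = x) then {g x} else ∅) ∪
       (if g.symm x ∉ A then {g.symm x} else ∅)) := by
  intro y hy
  simp only [gaps, mem_filter, mem_univ, true_and, mem_insert, not_or] at hy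
  obtain ⟨⟨h1, h2⟩, h3, h4⟩ := hy
  rw [mem_union, mem_union]
  rcases h3 with h3 | h3
  · -- y = g.symm x
    right; right
    have hy : y = g.symm x := (Equiv.eq_symm_apply g).2 h3
    rw [if_pos (by rw [← hy]; exact h2)]
    simp [hy]
  · rcases h4 with h4 | h4
    · right; left
      have hy : y = g x := (Equiv.symm_apply_eq g).1 h4
      rw [if_pos ⟨by rw [← hy]; exact h2, by rw [← hy]; exact Or.inl h3⟩]
      simp [hy]
    · left
      simp [gaps, h1, h2, h3, h4]

theorem card_gaps_insert (g : Equiv.Perm α) {A : Finset α} {x : α} :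
    (gaps g (insert x A)).card ≤ ((gaps g A).erase x).card +
      ((if g x ∉ A ∧ (g (g x) ∈ A ∨ g (g x) = x) then 1 else 0) + 
       (if g.symm x ∉ A then 1 else 0)) := by
  refine (card_le_card (gaps_insert g)).trans ((card_union_le _ _).trans ?_)
  gcongr
  refine (card_union_le _ _).trans ?_
  gcongr <;> split_ifs <;> simp

/-- the weight -/
noncomputable def Psi (g : Equiv.Perm α) (q lam : ℝ) (A : Finset α) : ℝ :=
  q ^ uu g A * lam ^ (gaps g A).card

theorem step_point (g : Equiv.Perm α) {q lam : ℝ} (hq : 0 < q) (hq1 : q ≤ 1) (hl : 1 ≤ lam)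
    {A : Finset α} {x : α} (hx : x ∉ A) :
    Psi g q lam (insert x A) ≤ ((if g x = x then 1 else 0) +
      (if g x ∈ A then 1 / (q * lam) else 0) + (if g x ∈ A then lam else 0) +
      (if g.symm x ∈ A then lam else 0) + q * lam +
      (if g (g x) ∈ A then q * lam ^ 2 else 0)) * Psi g q lam A := by
  have hl0 : 0 < lam := by linarith
  have hP : 0 < Psi g q lam A := by unfold Psi; positivity
  have key : ∀ (c : ℝ), 0 ≤ c → Psi g q lam (insert x A) ≤ c * Psi g q lam A →
      c ≤ ((if g x = x then 1 else 0) +
      (if g x ∈ A then 1 / (q * lam) else 0) + (if g x ∈ A then lam else 0) +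
      (if g.symm x ∈ A then lam else 0) + q * lam +
      (if g (g x) ∈ A then q * lam ^ 2 else 0)) → Psi g q lam (insert x A) ≤ ((if g x = x then 1 else 0) +
      (if g x ∈ A then 1 / (q * lam) else 0) + (if g x ∈ A then lam else 0) +
      (if g.symm x ∈ A then lam else 0) + q * lam +
      (if g (g x) ∈ A then q * lam ^ 2 else 0)) * Psi g q lam A :=
    fun c _ h1 h2 => h1.trans (mul_le_mul_of_nonneg_right h2 hP.le)
  have n1 : (0 : ℝ) ≤ (if g x = x then 1 else 0) := by split_ifs <;> norm_num
  have n2 : (0 : ℝ) ≤ (if g x ∈ A then 1 / (q * lam) else 0) := by split_ifs <;> positivity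
  have n3 : (0 : ℝ) ≤ (if g x ∈ A then lam else 0) := by split_ifs <;> positivity
  have n4 : (0 : ℝ) ≤ (if g.symm x ∈ A then lam else 0) := by split_ifs <;> positivity
  have n5 : (0 : ℝ) ≤ (if g (g x) ∈ A then q * lam ^ 2 else 0) := by split_ifs <;> positivity
  have n6 : (0 : ℝ) ≤ q * lam := by positivity
  by_cases hf : g x = x
  · refine key 1 zero_le_one ?_ ?_
    · rw [one_mul]
      unfold Psi
      rw [uu_insert_fix g hx hf]
      gcongr
      exact gaps_insert_fix g hf
    · rw [if_pos hf] at *
      linarith
  have hu := uu_insert g hx hf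
  have hgap := card_gaps_insert g (A := A) (x := x)
  have her : ((gaps g A).erase x).card ≤ (gaps g A).card := card_erase_le
  by_cases ha : g x ∈ A
  · by_cases hb : g.symm x ∈ A
    · refine key (1 / (q * lam)) (by positivity) ?_ ?_
      · rw [if_pos ha, if_pos hb] at hu
        have hxg : x ∈ gaps g A := by simp [gaps, hx, ha, hb]
        have h1 := card_erase_add_one hxg
        rw [if_neg (by tauto), if_neg (by tauto)] at hgap
        have h2 : (gaps g (insert x A)).card + 1 ≤ (gaps g A).card := by omega
        unfold Psi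
        have h3 : uu g A = uu g (insert x A) + 1 := by omega
        rw [h3, pow_succ]
        have h4 : lam ^ ((gaps g (insert x A)).card + 1) ≤ lam ^ (gaps g A).card :=
          pow_le_pow_right₀ hl h2
        rw [pow_succ] at h4
        have h5 : q ^ uu g (insert x A) * lam ^ (gaps g (insert x A)).card =
            1 / (q * lam) * (q ^ uu g (insert x A) * q * (lam ^ (gaps g (insert x A)).card * lam)) := by
          field_simp
        rw [h5]
        gcongr
      · rw [if_pos ha, if_pos ha] at *
        linarith
    · refine key lam hl0.le ?_ ?_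
      · rw [if_pos ha, if_neg hb] at hu
        rw [if_neg (by tauto), if_pos hb] at hgap
        have h3 : uu g (insert x A) = uu g A := by omega
        unfold Psi
        rw [h3]
        have h4 : lam ^ (gaps g (insert x A)).card ≤ lam ^ ((gaps g A).card + 1) :=
          pow_le_pow_right₀ hl (by omega)
        calc q ^ uu g A * lam ^ (gaps g (insert x A)).card ≤ q ^ uu g A * lam ^ ((gaps g A).card + 1) := by
              gcongr
          _ = lam * (q ^ uu g A * lam ^ (gaps g A).card) := by ring
      · rw [if_pos ha, if_pos ha] at *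
        linarith
  · by_cases hb : g.symm x ∈ A
    · refine key lam hl0.le ?_ ?_
      · rw [if_neg ha, if_pos hb] at hu
        rw [if_neg (not_not.2 hb)] at hgap
        have h3 : uu g (insert x A) = uu g A := by omega
        have h6 : (if g x ∉ A ∧ (g (g x) ∈ A ∨ g (g x) = x) then 1 else 0) ≤ 1 := by
          split_ifs <;> simp
        unfold Psi
        rw [h3]
        have h4 : lam ^ (gaps g (insert x A)).card ≤ lam ^ ((gaps g A).card + 1) :=
          pow_le_pow_right₀ hl (by omega)
        calc q ^ uu g A * lam ^ (gaps g (insert x A)).card ≤ q ^ uu g A * lam ^ ((gaps g A).card + 1) := by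
              gcongr
          _ = lam * (q ^ uu g A * lam ^ (gaps g A).card) := by ring
      · rw [if_pos hb] at *
        linarith
    · rw [if_neg ha, if_neg hb] at hu
      have h3 : uu g (insert x A) = uu g A + 1 := by omega
      by_cases hc : g (g x) ∈ A
      · refine key (q * lam ^ 2) (by positivity) ?_ ?_
        · have h6 : (if g x ∉ A ∧ (g (g x) ∈ A ∨ g (g x) = x) then 1 else 0) ≤ 1 := by
            split_ifs <;> simp
          have h7 : (if g.symm x ∉ A then 1 else 0) ≤ 1 := by split_ifs <;> simp
          unfold Psi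
          rw [h3]
          have h4 : lam ^ (gaps g (insert x A)).card ≤ lam ^ ((gaps g A).card + 2) :=
            pow_le_pow_right₀ hl (by omega)
          calc q ^ (uu g A + 1) * lam ^ (gaps g (insert x A)).card ≤
                q ^ (uu g A + 1) * lam ^ ((gaps g A).card + 2) := by gcongr
            _ = q * lam ^ 2 * (q ^ uu g A * lam ^ (gaps g A).card) := by ring
        · rw [if_pos hc] at *
          linarith
      · refine key (q * lam) (by positivity) ?_ ?_
        · -- at most one new gap
          have h8 : (gaps g (insert x A)).card ≤ (gaps g A).card + 1 := by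
            by_cases hd : g (g x) = x
            · have h9 : gaps g (insert x A) ⊆ gaps g A ∪ {g x} := by
                refine (gaps_insert g).trans ?_
                have h10 : g.symm x = g x := (Equiv.symm_apply_eq g).2 hd.symm
                rw [h10, if_pos ⟨ha, Or.inr hd⟩, if_pos ha]
                intro z hz
                simp only [mem_union, mem_erase, mem_singleton] at hz ⊢
                tauto
              refine (card_le_card h9).trans ((card_union_le _ _).trans ?_)
              simp
            · rw [if_neg (by tauto)] at hgap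
              have h7 : (if g.symm x ∉ A then 1 else 0) ≤ 1 := by split_ifs <;> simp
              omega
          unfold Psi
          rw [h3]
          have h4 : lam ^ (gaps g (insert x A)).card ≤ lam ^ ((gaps g A).card + 1) :=
            pow_le_pow_right₀ hl h8
          calc q ^ (uu g A + 1) * lam ^ (gaps g (insert x A)).card ≤
                q ^ (uu g A + 1) * lam ^ ((gaps g A).card + 1) := by gcongr
            _ = q * lam * (q ^ uu g A * lam ^ (gaps g A).card) := by ring
        · linarith

theorem step_sum (g : Equiv.Perm α) {q lam : ℝ} (hq : 0 < q) (hq1 : q ≤ 1) (hl : 1 ≤ lam)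
    {r : ℕ} {A : Finset α} (hA : A.card ≤ r) :
    ∑ x ∈ Aᶜ, Psi g q lam (insert x A) ≤
      ((Finset.univ.filter fun i => g i = i).card + Fintype.card α * (q * lam) + r / (q * lam) +
        2 * r * lam + r * q * lam ^ 2) * Psi g q lam A := by
  have hl0 : 0 < lam := by linarith
  have hP : 0 < Psi g q lam A := by unfold Psi; positivity
  have h1 : ∑ x ∈ Aᶜ, Psi g q lam (insert x A) ≤ ∑ x ∈ Aᶜ, ((if g x = x then 1 else 0) +
      (if g x ∈ A then 1 / (q * lam) else 0) + (if g x ∈ A then lam else 0) +
      (if g.symm x ∈ A then lam else 0) + q * lam +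
      (if g (g x) ∈ A then q * lam ^ 2 else 0)) * Psi g q lam A :=
    sum_le_sum fun x hx => step_point g hq hq1 hl (by simpa using hx)
  refine h1.trans ?_
  rw [← sum_mul]
  refine mul_le_mul_of_nonneg_right ?_ hP.le
  refine (sum_le_sum_of_subset_of_nonneg (subset_univ _) ?_).trans ?_
  · intro x _ _
    have n1 : (0 : ℝ) ≤ (if g x = x then 1 else 0) := by split_ifs <;> norm_num
    have n2 : (0 : ℝ) ≤ (if g x ∈ A then 1 / (q * lam) else 0) := by split_ifs <;> positivity
    have n3 : (0 : ℝ) ≤ (if g x ∈ A then lam else 0) := by split_ifs <;> positivity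
    have n4 : (0 : ℝ) ≤ (if g.symm x ∈ A then lam else 0) := by split_ifs <;> positivity
    have n5 : (0 : ℝ) ≤ (if g (g x) ∈ A then q * lam ^ 2 else 0) := by split_ifs <;> positivity
    have n6 : (0 : ℝ) ≤ q * lam := by positivity
    linarith
  have hcard : ∀ (h : Equiv.Perm α) (c : ℝ), 0 ≤ c →
      ∑ x, (if h x ∈ A then c else 0) ≤ r * c := by
    intro h c hc
    rw [← sum_filter, sum_const, nsmul_eq_mul]
    refine mul_le_mul_of_nonneg_right ?_ hc
    have : (univ.filter fun x => h x ∈ A).card ≤ A.card := by
      refine card_le_card_of_injOn h ?_ h.injective.injOn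
      intro x hx
      simpa using hx
    exact_mod_cast this.trans hA
  rw [sum_add_distrib, sum_add_distrib, sum_add_distrib, sum_add_distrib, sum_add_distrib]
  have e1 : ∑ x, (if g x = x then (1 : ℝ) else 0) = (Finset.univ.filter fun i => g i = i).card := by
    rw [← sum_filter, sum_const, nsmul_eq_mul, mul_one]
  have e2 := hcard g (1 / (q * lam)) (by positivity)
  have e3 := hcard g lam hl0.le
  have e4 := hcard g.symm lam hl0.le
  have e5 : ∑ _x : α, q * lam = Fintype.card α * (q * lam) := by
    rw [sum_const, nsmul_eq_mul]; rfl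
  have e6 : ∑ x, (if g (g x) ∈ A then q * lam ^ 2 else 0) ≤ r * (q * lam ^ 2) :=
    hcard (g * g) (q * lam ^ 2) (by positivity)
  rw [e1, e5]
  have e7 : (r : ℝ) * (1 / (q * lam)) = r / (q * lam) := by ring
  rw [e7] at e2
  linarith

theorem sum_embeddings (g : Equiv.Perm α) {q lam : ℝ} (hq : 0 < q) (hq1 : q ≤ 1) (hl : 1 ≤ lam)
    (r : ℕ) (j : ℕ) (hj : j ≤ r) :
    ∑ a : Fin j ↪ α, Psi g q lam (univ.map a) ≤
      ((Finset.univ.filter fun i => g i = i).card + Fintype.card α * (q * lam) + r / (q * lam) +
        2 * r * lam + r * q * lam ^ 2) ^ j := by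
  have hl0 : 0 < lam := by linarith
  induction j with
  | zero =>
    rw [pow_zero, Fintype.sum_eq_single (Function.Embedding.ofIsEmpty)]
    · simp [Psi, uu, gaps]
    · intro a ha
      exact absurd (Subsingleton.elim _ _) ha
  | succ j ih =>
    rw [← (Equiv.embeddingFinSucc j α).symm.sum_comp, Fintype.sum_sigma, pow_succ]
    have h1 : ∀ a : Fin j ↪ α, ∑ x : {i // i ∉ Set.range a},
        Psi g q lam (univ.map ((Equiv.embeddingFinSucc j α).symm ⟨a, x⟩)) ≤
        ((Finset.univ.filter fun i => g i = i).card + Fintype.card α * (q * lam) + r / (q * lam) +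
        2 * r * lam + r * q * lam ^ 2) * Psi g q lam (univ.map a) := by
      intro a
      have h2 : ∀ x : {i // i ∉ Set.range a},
          univ.map ((Equiv.embeddingFinSucc j α).symm ⟨a, x⟩) = insert x.1 (univ.map a) := by
        intro x
        ext y
        simp only [mem_map, mem_univ, true_and, mem_insert]
        rw [Fin.exists_fin_succ]
        simp only [Equiv.coe_embeddingFinSucc_symm, Fin.cons_zero, Fin.cons_succ]
        constructor
        · rintro (h | h)
          · exact Or.inl h.symm
          · exact Or.inr h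
        · rintro (h | h)
          · exact Or.inl h.symm
          · exact Or.inr h
      have h3 : ∑ x : {i // i ∉ Set.range a},
          Psi g q lam (univ.map ((Equiv.embeddingFinSucc j α).symm ⟨a, x⟩)) =
          ∑ x ∈ (univ.map a)ᶜ, Psi g q lam (insert x (univ.map a)) := by
        rw [sum_congr rfl (fun x _ => by rw [h2 x])]
        rw [← Finset.sum_subtype (F := inferInstance) ((univ.map a)ᶜ) (p := fun i => i ∉ Set.range a)
          (f := fun x => Psi g q lam (insert x (univ.map a)))]
        intro x
        simp
      rw [h3]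
      refine step_sum g hq hq1 hl ?_
      rw [card_map, card_univ, Fintype.card_fin]
      omega
    refine (sum_le_sum fun a _ => h1 a).trans ?_
    rw [← mul_sum, mul_comm]
    refine mul_le_mul_of_nonneg_right (ih (by omega)) ?_
    positivity

theorem tuple_sum {α : Type} [Fintype α] [DecidableEq α] (g : Equiv.Perm α) (r : ℕ) (q lam : ℝ)
    (hq : 0 < q) (hq1 : q ≤ 1) (hl : 1 ≤ lam) :
    ∑ a : Fin r ↪ α, q ^ (Finset.univ.filter fun i : Fin r => ∀ j, g (a i) ≠ a j).card ≤
      ((Finset.univ.filter fun i => g i = i).card + Fintype.card α * (q * lam) + r / (q * lam) +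
        2 * r * lam + r * q * lam ^ 2) ^ r := by
  refine le_trans (sum_le_sum fun a _ => ?_) (sum_embeddings g hq hq1 hl r r le_rfl)
  have h1 : uu g (univ.map a) = (Finset.univ.filter fun i : Fin r => ∀ j, g (a i) ≠ a j).card := by
    unfold uu
    rw [filter_map, card_map]
    congr 1
    ext i
    simp only [mem_filter, mem_univ, true_and, Function.comp_apply, mem_map, not_exists, ne_eq]
    constructor
    · intro h j hj
      exact h j hj.symm
    · intro h j hj
      exact h j hj.symm
  unfold Psi
  rw [h1]
  have h2 : (1 : ℝ) ≤ lam ^ (gaps g (univ.map a)).card := one_le_pow₀ hl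
  have h3 : (0 : ℝ) < q ^ (Finset.univ.filter fun i : Fin r => ∀ j, g (a i) ≠ a j).card := by
    positivity
  nlinarith

end Pool.Agent.Helper17.W3
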